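import Pool.Agent.EVT.Stmts

set_option autoImplicit false

/-!
# EVT, module ADO: density in degree two implies that the Lie algebra is stable
-/

open scoped BigOperators

namespace Pool.Agent.EVT

open Pool.Agent.EVD (Iso wed OSim pt cm Ix)

noncomputable section

namespace ADO_

variable {r : ℕ} {ι : Fin r → Type}

/-- functions given by polynomials of degree at most `d` -/
def IsP (d : ℕ) (f : Pm ι → ℂ) : Prop :=
  ∃ P : MvPolynomial (Option (Σ i, ι i × ι i)) ℂ, P.totalDegree ≤ d ∧ ∀ a, ev P a = f a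

theorem isP_const (c : ℂ) (d : ℕ) : IsP (ι := ι) d (fun _ => c) :=
  ⟨MvPolynomial.C c, by rw [MvPolynomial.totalDegree_C]; exact Nat.zero_le _,
    fun a => by rw [ev, MvPolynomial.eval_C]⟩

theorem isP_entry (i : Fin r) (p q : ι i) : IsP 1 (fun a : Pm ι => a.2 i p q) :=
  ⟨MvPolynomial.X (some ⟨i, (p, q)⟩), by rw [MvPolynomial.totalDegree_X],
    fun a => by rw [ev, MvPolynomial.eval_X]; rfl⟩

theorem isP_mul {d e : ℕ} {f g : Pm ι → ℂ} (hf : IsP d f) (hg : IsP e g) :
    IsP (d + e) (fun a => f a * g a) := by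
  obtain ⟨P, hP, hP'⟩ := hf
  obtain ⟨R, hR, hR'⟩ := hg
  refine ⟨P * R, le_trans (MvPolynomial.totalDegree_mul P R) (Nat.add_le_add hP hR), fun a => ?_⟩
  rw [ev, map_mul]
  exact congrArg₂ (· * ·) (hP' a) (hR' a)

theorem isP_add {d : ℕ} {f g : Pm ι → ℂ} (hf : IsP d f) (hg : IsP d g) :
    IsP d (fun a => f a + g a) := by
  obtain ⟨P, hP, hP'⟩ := hf
  obtain ⟨R, hR, hR'⟩ := hg
  refine ⟨P + R, le_trans (MvPolynomial.totalDegree_add P R) (max_le hP hR), fun a => ?_⟩
  rw [ev, map_add]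
  exact congrArg₂ (· + ·) (hP' a) (hR' a)

theorem isP_sum {κ : Type} {d : ℕ} (s : Finset κ) {f : κ → Pm ι → ℂ}
    (hf : ∀ k ∈ s, IsP d (f k)) : IsP d (fun a => ∑ k ∈ s, f k a) := by
  classical
  induction s using Finset.induction_on with
  | empty =>
    simp only [Finset.sum_empty]
    exact isP_const 0 d
  | insert k s hk ih =>
    have h1 : (fun a : Pm ι => ∑ k ∈ insert k s, f k a) = fun a => f k a + ∑ k ∈ s, f k a := by
      funext a
      rw [Finset.sum_insert hk]
    rw [h1]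
    exact isP_add (hf k (Finset.mem_insert_self k s))
      (ih (fun k' hk' => hf k' (Finset.mem_insert_of_mem hk')))

theorem isP_cmul {d : ℕ} (c : ℂ) {f : Pm ι → ℂ} (hf : IsP d f) : IsP d (fun a => c * f a) := by
  have h := isP_mul (isP_const (ι := ι) c 0) hf
  rwa [Nat.zero_add] at h

variable [∀ i, Fintype (ι i)] [∀ i, DecidableEq (ι i)]

omit [∀ i, DecidableEq (ι i)] in
/-- the entries of `a_i X a_i^T Y` -/
theorem isP_quad (i : Fin r) (X Y : Matrix (ι i) (ι i) ℂ) (p q : ι i) :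
    IsP 2 (fun a : Pm ι => (a.2 i * X * ((a.2 i).transpose * Y)) p q) := by
  have h1 : (fun a : Pm ι => (a.2 i * X * ((a.2 i).transpose * Y)) p q)
      = fun a => ∑ u, (∑ v, X v u * a.2 i p v) * (∑ w, Y w q * a.2 i w u) := by
    funext a
    rw [Matrix.mul_apply]
    refine Finset.sum_congr rfl (fun u _ => ?_)
    rw [Matrix.mul_apply, Matrix.mul_apply]
    refine congrArg₂ (· * ·) ?_ ?_
    · exact Finset.sum_congr rfl (fun v _ => mul_comm _ _)
    · refine Finset.sum_congr rfl (fun w _ => ?_)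
      rw [Matrix.transpose_apply, mul_comm]
  rw [h1]
  refine isP_sum _ (fun u _ => ?_)
  refine isP_mul (d := 1) (e := 1) ?_ ?_
  · exact isP_sum _ (fun v _ => isP_cmul _ (isP_entry i p v))
  · exact isP_sum _ (fun w _ => isP_cmul _ (isP_entry i w u))

/-- a linear functional in coordinates -/
theorem dual_coord (ψ : Pm ι →ₗ[ℂ] ℂ) (y : Pm ι) :
    ψ y = ψ (y.1, 0) + ∑ i, ∑ p, ∑ q,
      ψ (0, Pi.single i (Matrix.single p q (1 : ℂ))) * y.2 i p q := by
  have h1 : y = (y.1, 0) + ∑ i, ∑ p, ∑ q,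
      y.2 i p q • ((0, Pi.single i (Matrix.single p q (1 : ℂ))) : Pm ι) := by
    have h2 : ∀ i, y.2 i = ∑ p, ∑ q, y.2 i p q • Matrix.single p q (1 : ℂ) := by
      intro i
      conv_lhs => rw [Matrix.matrix_eq_sum_single (y.2 i)]
      refine Finset.sum_congr rfl (fun p _ => Finset.sum_congr rfl (fun q _ => ?_))
      rw [Matrix.smul_single, smul_eq_mul, mul_one]
    have h3 : y.2 = ∑ i, Pi.single i (y.2 i) := (Finset.univ_sum_single y.2).symm
    have h4 : y.2 = ∑ i, ∑ p, ∑ q, y.2 i p q •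
        (Pi.single i (Matrix.single p q (1 : ℂ)) : ∀ i, Matrix (ι i) (ι i) ℂ) := by
      conv_lhs => rw [h3]
      refine Finset.sum_congr rfl (fun i _ => ?_)
      conv_lhs => rw [h2 i]
      rw [← LinearMap.single_apply (R := ℂ), map_sum]
      refine Finset.sum_congr rfl (fun p _ => ?_)
      rw [map_sum]
      refine Finset.sum_congr rfl (fun q _ => ?_)
      rw [map_smul, LinearMap.single_apply]
    refine Prod.ext ?_ ?_
    · simp only [Prod.fst_add, Prod.fst_sum, Prod.smul_fst, smul_zero, Finset.sum_const_zero,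
        add_zero]
    · simp only [Prod.snd_add, Prod.snd_sum, Prod.smul_snd, zero_add]
      exact h4
  conv_lhs => rw [h1]
  rw [map_add, map_sum]
  congr 1
  refine Finset.sum_congr rfl (fun i _ => ?_)
  rw [map_sum]
  refine Finset.sum_congr rfl (fun p _ => ?_)
  rw [map_sum]
  refine Finset.sum_congr rfl (fun q _ => ?_)
  rw [map_smul, smul_eq_mul, mul_comm]

/-- the conjugate, in terms of the transposed matrices -/
theorem conj_eq {Q : ∀ i, Matrix (ι i) (ι i) ℂ} (hQ : ∀ i, (Q i).det ≠ 0) {a b : Pm ι}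
    (ha : InO Q a) (hab : a * b = 1) (X : Pm ι) :
    a * X * b = (X.1, fun i => a.2 i * (X.2 i * (Q i)⁻¹) * ((a.2 i).transpose * Q i)) := by
  refine Prod.ext ?_ ?_
  · have h1 : a.1 * b.1 = 1 := congrArg Prod.fst hab
    show a.1 * X.1 * b.1 = X.1
    calc a.1 * X.1 * b.1 = X.1 * (a.1 * b.1) := by ring
      _ = X.1 := by rw [h1, mul_one]
  · funext i
    have h1 : a.2 i * b.2 i = 1 := congrFun (congrArg Prod.snd hab) i
    have hiso : (a.2 i).transpose * Q i * a.2 i = Q i := (ha.2 i).1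
    have hu : IsUnit (Q i).det := isUnit_iff_ne_zero.mpr (hQ i)
    have h2 : (Q i)⁻¹ * ((a.2 i).transpose * Q i) = b.2 i := by
      calc (Q i)⁻¹ * ((a.2 i).transpose * Q i)
          = (Q i)⁻¹ * ((a.2 i).transpose * Q i) * (a.2 i * b.2 i) := by rw [h1, mul_one]
        _ = (Q i)⁻¹ * ((a.2 i).transpose * Q i * a.2 i) * b.2 i := by
          simp only [Matrix.mul_assoc]
        _ = b.2 i := by rw [hiso, Matrix.nonsing_inv_mul _ hu, one_mul]
    show a.2 i * X.2 i * b.2 i = _
    rw [← h2]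
    simp only [Matrix.mul_assoc]

end ADO_

open ADO_ in
theorem ado_proof (hLIE : Stmt_Lie) : Stmt_Ado := by
  intro r ι _ _ Q hQ H hH hD X hX a b ha hab
  obtain ⟨hlin, -, -, hconj⟩ := hLIE r ι Q hQ H hH
  have h0 : (0 : Pm ι) ∈ LieO H := by
    have h1 := hlin X hX X hX (-1)
    rwa [neg_one_smul, add_neg_cancel] at h1
  let W : Submodule ℂ (Pm ι) :=
    { carrier := LieO H
      zero_mem' := h0
      add_mem' := fun {x y} hx hy => by
        have h1 := hlin x hx y hy 1
        rwa [one_smul] at h1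
      smul_mem' := fun c x hx => by
        have h1 := hlin 0 h0 x hx c
        rwa [zero_add] at h1 }
  have hW : ∀ x, x ∈ W ↔ x ∈ LieO H := fun x => Iff.rfl
  by_contra hcon
  have hcon' : a * X * b ∉ W := fun h => hcon ((hW _).mp h)
  obtain ⟨ψ, hψ1, hψ2⟩ := Submodule.exists_dual_map_eq_bot_of_notMem hcon' inferInstance
  have hψ3 : ∀ x ∈ W, ψ x = 0 := by
    intro x hx
    have h1 : ψ x ∈ W.map ψ := Submodule.mem_map_of_mem hx
    rw [hψ2] at h1
    exact (Submodule.mem_bot ℂ).mp h1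
  have hpoly : IsP 2 (fun z : Pm ι =>
      ψ (X.1, fun i => z.2 i * (X.2 i * (Q i)⁻¹) * ((z.2 i).transpose * Q i))) := by
    have h1 : (fun z : Pm ι =>
        ψ (X.1, fun i => z.2 i * (X.2 i * (Q i)⁻¹) * ((z.2 i).transpose * Q i)))
        = fun z => ψ (X.1, 0) + ∑ i, ∑ p, ∑ q,
          ψ (0, Pi.single i (Matrix.single p q (1 : ℂ))) *
            (z.2 i * (X.2 i * (Q i)⁻¹) * ((z.2 i).transpose * Q i)) p q := by
      funext z
      rw [dual_coord ψ]
    rw [h1]
    refine isP_add (isP_const _ 2) ?_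
    refine isP_sum _ (fun i _ => ?_)
    refine isP_sum _ (fun p _ => ?_)
    refine isP_sum _ (fun q _ => ?_)
    exact isP_cmul _ (isP_quad i _ _ p q)
  obtain ⟨P, hP, hP'⟩ := hpoly
  have h1 : ev P a = 0 := by
    refine hD P hP (fun h hh => ?_) a ha
    obtain ⟨b', hb', hhb, hbh⟩ := hH.inv h hh
    have h2 := hconj X hX h hh b' hhb hbh
    have h3 := hψ3 _ ((hW _).mpr h2)
    rw [conj_eq hQ (hH.sub h hh) hhb X] at h3
    rw [hP']
    exact h3
  apply hψ1
  rw [conj_eq hQ ha hab X]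
  exact (hP' a).symm.trans h1

end

end Pool.Agent.EVT
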