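import Pool.Agent.EVT.Stmts

set_option autoImplicit false

/-!
# CRD: the rank is at least five
-/

namespace Pool.Agent.EVT

namespace CRD_

lemma three (a b c : ℕ) (ha : 2 ≤ a) (hb : 2 ≤ b) (hc : 2 ≤ c) (hab : Nat.Coprime a b)
    (hac : Nat.Coprime a c) (hbc : Nat.Coprime b c) : 5 ≤ (a - 1) * (b - 1) * (c - 1) := by
  by_contra h
  have h' : (a - 1) * (b - 1) * (c - 1) ≤ 4 := by omega
  have pa : 0 < a - 1 := by omega
  have pb : 0 < b - 1 := by omega
  have pc : 0 < c - 1 := by omega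
  have ea : a - 1 ≤ 4 := by
    refine le_trans ?_ h'
    rw [mul_assoc]
    exact Nat.le_mul_of_pos_right _ (Nat.mul_pos pb pc)
  have eb : b - 1 ≤ 4 := by
    refine le_trans ?_ h'
    rw [mul_comm (a - 1), mul_assoc]
    exact Nat.le_mul_of_pos_right _ (Nat.mul_pos pa pc)
  have ec : c - 1 ≤ 4 := le_trans (Nat.le_mul_of_pos_left _ (Nat.mul_pos pa pb)) h'
  have ea' : a ≤ 5 := by omega
  have eb' : b ≤ 5 := by omega
  have ec' : c ≤ 5 := by omega
  clear ea eb ec pa pb pc h
  interval_cases a <;> interval_cases b <;> interval_cases c <;>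
    first | (norm_num at h'; done) | (norm_num at hab; done) | (norm_num at hac; done) |
      (norm_num at hbc; done)

end CRD_

theorem crd_proof : Stmt_Crd := by
  intro k f hk h2 hco
  have e : Fintype.card (Pool.Agent.EVD.Ix f) = ∏ j, ((f j).natDegree - 1) := by
    rw [Fintype.card_pi]
    simp
  rw [e]
  have l0 : 0 < 2 * k + 1 := by omega
  have l1 : 1 < 2 * k + 1 := by omega
  have l2 : 2 < 2 * k + 1 := by omega
  set i0 : Fin (2 * k + 1) := ⟨0, l0⟩ with hi0
  set i1 : Fin (2 * k + 1) := ⟨1, l1⟩ with hi1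
  set i2 : Fin (2 * k + 1) := ⟨2, l2⟩ with hi2
  have n01 : i0 ≠ i1 := by simp [hi0, hi1]
  have n02 : i0 ≠ i2 := by simp [hi0, hi2]
  have n12 : i1 ≠ i2 := by simp [hi1, hi2]
  have hle : ∏ j ∈ ({i0, i1, i2} : Finset (Fin (2 * k + 1))), ((f j).natDegree - 1) ≤
      ∏ j, ((f j).natDegree - 1) := by
    refine Finset.prod_le_prod_of_subset_of_one_le' (Finset.subset_univ _) fun j _ _ => ?_
    have := h2 j
    omega
  refine le_trans ?_ hle
  rw [Finset.prod_insert (by simp [n01, n02]), Finset.prod_insert (by simp [n12]),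
    Finset.prod_singleton, ← mul_assoc]
  exact CRD_.three _ _ _ (h2 i0) (h2 i1) (h2 i2) (hco _ _ n01) (hco _ _ n02) (hco _ _ n12)

end Pool.Agent.EVT
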