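import Pool.Agent.EVT.Stmts

set_option autoImplicit false

/-!
# EVT, module FAC: every factor is full or trivial for the Lie algebra
-/

open scoped BigOperators

namespace Pool.Agent.EVT

open Pool.Agent.EVD (Iso wed OSim pt cm Ix)

noncomputable section

set_option linter.unusedSectionVars false

namespace FAC_

variable {r : ℕ} {ι : Fin r → Type} [∀ i, Fintype (ι i)] [∀ i, DecidableEq (ι i)]

theorem at1_mul (i : Fin r) (s t : Matrix (ι i) (ι i) ℂ) :
    (at1 i s * at1 i t : Pm ι) = at1 i (s * t) := by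
  refine Prod.ext (by simp [at1]) ?_
  funext j
  by_cases h : j = i
  · subst h; simp [at1]
  · simp [at1, Function.update_of_ne h]

theorem at1_one (i : Fin r) : (at1 i 1 : Pm ι) = 1 := by
  refine Prod.ext (by simp [at1]) ?_
  funext j
  by_cases h : j = i
  · subst h; simp [at1]
  · simp [at1]

theorem at1_two (i : Fin r) (s : Matrix (ι i) (ι i) ℂ) : (at1 i s).2 i = s := by
  simp [at1]

theorem at1_ne (i j : Fin r) (h : j ≠ i) (s : Matrix (ι i) (ι i) ℂ) :
    (at1 i s : Pm ι).2 j = 1 := by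
  simp [at1, Function.update_of_ne h]

/-- the vector with component `Y` at `i` -/
def sg (i : Fin r) (Y : Matrix (ι i) (ι i) ℂ) : Pm ι := (0, Pi.single i Y)

theorem sg_two (i : Fin r) (Y : Matrix (ι i) (ι i) ℂ) : (sg i Y).2 i = Y := by
  simp [sg]

theorem conj_at1 (i : Fin r) (X : Pm ι) (s t : Matrix (ι i) (ι i) ℂ) :
    at1 i s * X * at1 i t = (X.1, Function.update X.2 i (s * X.2 i * t)) := by
  refine Prod.ext (by simp [at1]) ?_
  funext j
  by_cases h : j = i
  · subst h; simp [at1]
  · simp [at1, Function.update_of_ne h]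

theorem conj_sg (i : Fin r) (Y : Matrix (ι i) (ι i) ℂ) (s t : Matrix (ι i) (ι i) ℂ) :
    at1 i s * sg i Y * at1 i t = sg i (s * Y * t) := by
  rw [conj_at1]
  refine Prod.ext rfl ?_
  funext j
  by_cases h : j = i
  · subst h; simp [sg]
  · simp [sg, Function.update_of_ne h, Pi.single_eq_of_ne h]

theorem upd_sub (i : Fin r) (X : Pm ι) (Z : Matrix (ι i) (ι i) ℂ) :
    ((X.1, Function.update X.2 i Z) : Pm ι) + (-1 : ℂ) • X = sg i (Z - X.2 i) := by
  refine Prod.ext (by simp [sg]) ?_
  funext j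
  by_cases h : j = i
  · subst h; simp [sg, sub_eq_add_neg]
  · simp [sg, Function.update_of_ne h, Pi.single_eq_of_ne h]

theorem sg_add (i : Fin r) (X Y : Matrix (ι i) (ι i) ℂ) (c : ℂ) :
    (sg i X : Pm ι) + c • sg i Y = sg i (X + c • Y) := by
  refine Prod.ext (by simp [sg]) ?_
  funext j
  by_cases h : j = i
  · subst h; simp [sg]
  · simp [sg, Pi.single_eq_of_ne h]

theorem ino_at1 (Q : ∀ i, Matrix (ι i) (ι i) ℂ) (i : Fin r) (s : Matrix (ι i) (ι i) ℂ)
    (h1 : Iso (Q i) s) (h2 : s.det = 1) : InO Q (at1 i s) := by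
  refine ⟨by simp [at1], fun j => ?_⟩
  by_cases h : j = i
  · subst h
    rw [at1_two]
    exact ⟨h1, h2⟩
  · rw [at1_ne i j h]
    exact ⟨by simp [Iso], Matrix.det_one⟩

theorem ex_sg (i : Fin r) (Y : Matrix (ι i) (ι i) ℂ) (t : ℂ) :
    ex t (sg i Y : Pm ι) = at1 i (NormedSpace.exp (t • Y)) := by
  refine Prod.ext (by simp [ex, sg, at1]) ?_
  funext j
  by_cases h : j = i
  · subst h; simp [ex, sg, at1]
  · simp [ex, sg, at1, Function.update_of_ne h, Pi.single_eq_of_ne h]

/-- the substitution -/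
def sb (i : Fin r) : Option (Σ i, ι i × ι i) → MvPolynomial (ι i × ι i) ℂ
  | none => 1
  | some ⟨j, p⟩ => if h : j = i then MvPolynomial.X (h ▸ p) else
      MvPolynomial.C ((1 : Matrix (ι j) (ι j) ℂ) p.1 p.2)

theorem ev_sb (i : Fin r) (P : MvPolynomial (Option (Σ i, ι i × ι i)) ℂ)
    (s : Matrix (ι i) (ι i) ℂ) :
    MvPolynomial.eval (fun p => s p.1 p.2) (MvPolynomial.bind₁ (sb i) P) = ev P (at1 i s) := by
  show MvPolynomial.eval₂Hom (RingHom.id ℂ) (fun p : ι i × ι i => s p.1 p.2)
      (MvPolynomial.bind₁ (sb i) P) =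
    MvPolynomial.eval₂Hom (RingHom.id ℂ) (pt (at1 i s).1 (at1 i s).2) P
  rw [MvPolynomial.eval₂Hom_bind₁]
  congr 2
  funext o
  rcases o with _ | ⟨j, p⟩
  · simp [sb, pt, at1]
  · by_cases h : j = i
    · subst h
      simp [sb, pt, at1]
    · simp [sb, pt, at1, h]

end FAC_

open FAC_

theorem fac_proof (hLIE : Stmt_Lie) (hADO : Stmt_Ado) (hSOI : Stmt_Soi) (hSCM : Stmt_Scm)
    (hGEN : EVD.Stmt_Gen) : Stmt_Fac := by
  intro r ι _ _ Q hcard hQ H hH hD i
  by_cases hX : ∀ X ∈ LieO H, X.2 i = 0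
  · exact Or.inr hX
  left
  push Not at hX
  obtain ⟨X, hXL, hX0⟩ := hX
  have hdet : ∀ i, (Q i).det ≠ 0 := fun i => (hQ i).2
  obtain ⟨hlin, -, hanti, -⟩ := hLIE r ι Q hdet H hH
  have hado := hADO r ι Q hdet H hH hD
  -- inverses
  have hinv : ∀ s : Matrix (ι i) (ι i) ℂ, s.det = 1 → s * s⁻¹ = 1 := fun s hs =>
    Matrix.mul_nonsing_inv s (by rw [hs]; exact isUnit_one)
  have hinv' : ∀ s : Matrix (ι i) (ι i) ℂ, s.det = 1 → s⁻¹ * s = 1 := fun s hs =>
    Matrix.nonsing_inv_mul s (by rw [hs]; exact isUnit_one)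
  have hconj : ∀ Z ∈ LieO H, ∀ s, Iso (Q i) s → s.det = 1 →
      at1 i s * Z * at1 i s⁻¹ ∈ LieO H := by
    intro Z hZ s hs hs1
    apply hado Z hZ _ _ (ino_at1 Q i s hs hs1)
    rw [at1_mul, hinv s hs1, at1_one]
  -- the set `W`
  have hW : ∀ u w, wed (Q i) u w ∈ {Y : Matrix (ι i) (ι i) ℂ | sg i Y ∈ LieO H} := by
    apply hSOI (ι i) (Q i) (hcard i) (hQ i).1 (hQ i).2
    · intro Y hY Z hZ c
      show sg i (Y + c • Z) ∈ LieO H
      rw [← sg_add]
      exact hlin _ hY _ hZ c
    · intro Y hY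
      have h := hanti _ hY i
      rwa [sg_two] at h
    · intro Y hY s hs hs1
      show sg i (s * Y * s⁻¹) ∈ LieO H
      rw [← conj_sg]
      exact hconj _ hY s hs hs1
    · -- a nonzero element
      by_contra hno
      push Not at hno
      apply hX0
      apply hSCM (ι i) (Q i) (by have := hcard i; omega) (hQ i).1 (hQ i).2 _ (hanti X hXL i)
      intro s hs hs1
      have h1 : sg i (s * X.2 i * s⁻¹ - X.2 i) ∈ LieO H := by
        rw [← upd_sub, ← conj_at1]
        exact hlin _ (hconj X hXL s hs hs1) _ hXL _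
      have h2 := hno _ h1
      have h3 : s * X.2 i * s⁻¹ = X.2 i := sub_eq_zero.mp h2
      calc s * X.2 i = s * X.2 i * (s⁻¹ * s) := by rw [hinv' s hs1, mul_one]
        _ = (s * X.2 i * s⁻¹) * s := by simp only [mul_assoc]
        _ = X.2 i * s := by rw [h3]
  -- the closed group
  have hcl : EVD.ClG (Q i) {s : Matrix (ι i) (ι i) ℂ | at1 i s ∈ H} := by
    refine ⟨?_, ?_, ?_, ?_, ?_⟩
    · intro a ha
      have h := (hH.sub _ ha).2 i
      rw [at1_two] at h
      exact h.1
    · show at1 i 1 ∈ H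
      rw [at1_one]; exact hH.one
    · intro a ha b hb
      show at1 i (a * b) ∈ H
      rw [← at1_mul]
      exact hH.mul _ ha _ hb
    · intro a ha
      obtain ⟨b, hb, h1, h2⟩ := hH.inv _ ha
      have hba : b = at1 i (b.2 i) := by
        refine Prod.ext ?_ ?_
        · have := congrArg Prod.fst h1
          simpa [at1] using this
        · funext j
          by_cases h : j = i
          · subst h; rw [at1_two]
          · rw [at1_ne i j h]
            have := congrFun (congrArg Prod.snd h1) j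
            have h3 : (at1 i a).2 j * b.2 j = 1 := this
            rw [at1_ne i j h, one_mul] at h3
            exact h3
      refine ⟨b.2 i, ?_, ?_, ?_⟩
      · show at1 i (b.2 i) ∈ H
        rw [← hba]; exact hb
      · have h3 : (at1 i a).2 i * b.2 i = 1 := congrFun (congrArg Prod.snd h1) i
        rwa [at1_two] at h3
      · have h3 : b.2 i * (at1 i a).2 i = 1 := congrFun (congrArg Prod.snd h2) i
        rwa [at1_two] at h3
    · intro a ha hP
      show at1 i a ∈ H
      apply hH.closed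
      · apply ino_at1 Q i a ha
        -- the determinant
        have hdp : ∀ s : Matrix (ι i) (ι i) ℂ, MvPolynomial.eval (fun p => s p.1 p.2)
            ((Matrix.of fun p q => (MvPolynomial.X (p, q) : MvPolynomial (ι i × ι i) ℂ)).det - 1)
            = s.det - 1 := by
          intro s
          rw [map_sub, map_one, RingHom.map_det]
          congr 2
          ext p q
          simp
        have h := hP _ (by
          intro h hh
          rw [hdp]
          have h5 := ((hH.sub _ hh).2 i).2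
          rw [at1_two] at h5
          rw [h5, sub_self])
        rw [hdp] at h
        exact sub_eq_zero.mp h
      · intro P hPH
        rw [← ev_sb]
        apply hP
        intro h hh
        rw [ev_sb]
        exact hPH _ hh
  intro s hs hs1
  exact hGEN (ι i) (Q i) _ (by have := hcard i; omega) (hQ i).1 (hQ i).2 hcl (by
    intro u w t
    show at1 i (NormedSpace.exp (t • wed (Q i) u w)) ∈ H
    rw [← ex_sg]
    exact hW u w t) s hs hs1

end

end Pool.Agent.EVT
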