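import Pool.Agent.EVT.Stmts
import Pool.Agent.EVD.FINA
import Pool.Agent.Lib70.PiTranscendental

set_option autoImplicit false

/-!
# EVT: the final statement
-/

open scoped BigOperators

namespace Pool.Agent.EVT

open Pool.Agent.EVD
open Pool.Agent.EVD.FIN_ (data adm_g1 adm_ray cm_mul cm_det MK_eq)
open Pool.Agent.DG2.INDX_ (exists_le small)

noncomputable section

/-- FI2: the final statement. -/
def Stmt_Fi2 : Prop := ∀ (nF : ℕ) (k : Fin nF → ℕ) (f : ∀ a, Fin (2 * k a + 1) → Polynomial ℚ),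
  (∀ a, 1 ≤ k a) → (∀ a, Adm (f a)) →
  (∀ a b, a ≠ b → ∀ ρ : ℚ, 0 < ρ → (fun v => (ρ : ℂ) * v) '' crit (f a) ≠ crit (f b)) →
  ∀ (r : ℕ) (φ : Fin r → Fin nF) (D : ℕ), ∃ δ : ℝ, 0 < δ ∧ ∃ C n₀ : ℕ, ∀ n : ℕ, n₀ ≤ n →
  ∃ S : Finset ℚ, S.card ≤ C ∧
    ∀ ρ : Fin r → ℚ, (∀ i j, i ≠ j → φ i = φ j → ρ i ≠ ρ j) →
    (∀ i, 0 < ρ i ∧ ρ i ∉ S ∧ ((ρ i).num : ℝ) ≤ (n : ℝ) ^ δ ∧
      ((ρ i).den : ℝ) ≤ (n : ℝ) ^ δ) →
    ∀ L : IntermediateField ℚ ℂ, FiniteDimensional ℚ L → Module.finrank ℚ L ≤ D →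
    (∀ P : MvPolynomial (Option (Σ i : Fin r, Ix (f (φ i)) × Ix (f (φ i)))) L,
      P.totalDegree ≤ D →
      MvPolynomial.aeval (pt (ι := fun i => Ix (f (φ i))) (2 * Real.pi * Complex.I)
        (fun i => per (f (φ i)) ((ρ i / n : ℚ) : ℂ))) P = (0 : ℂ) →
      ∀ (mu : ℂ) (g : ∀ i, Matrix (Ix (f (φ i))) (Ix (f (φ i))) ℂ), mu ≠ 0 →
        (∀ i, OSim (2 * k (φ i) + 2) (inter (f (φ i))) mu (g i)) →
        MvPolynomial.aeval (pt (ι := fun i => Ix (f (φ i))) (mu * (2 * Real.pi * Complex.I))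
          (fun i => per (f (φ i)) ((ρ i / n : ℚ) : ℂ) * g i)) P = (0 : ℂ)) ∧
    ∀ H : Subgroup (Aut (fun i => Ix (f (φ i)))),
      IsTors (ι := fun i => Ix (f (φ i))) L (2 * Real.pi * Complex.I)
        (fun i => per (f (φ i)) ((ρ i / n : ℚ) : ℂ)) H →
      ∀ x : Aut (fun i => Ix (f (φ i))), (∀ i, OSim (2 * k (φ i) + 2) (inter (f (φ i)))
        (x.1 : ℂ) (x.2 i : Matrix (Ix (f (φ i))) (Ix (f (φ i))) ℂ)) → x ∈ H

/-- `2 π i` is transcendental. -/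
theorem tr : Transcendental ℚ (2 * Real.pi * Complex.I : ℂ) := by
  intro halg
  apply Pool.Agent.Lib70.PiTr.transcendental_pi
  have hI : IsAlgebraic ℚ Complex.I :=
    ⟨Polynomial.X ^ 2 + 1, by
      intro h
      have := congrArg (Polynomial.eval 0) h
      simp at this, by simp⟩
  have h2 : IsAlgebraic ℚ ((2 * Real.pi * Complex.I) * Complex.I : ℂ) := halg.mul hI
  have h3 : ((2 * Real.pi * Complex.I) * Complex.I : ℂ) = -2 * (Real.pi : ℂ) := by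
    have := Complex.I_mul_I
    linear_combination (2 * (Real.pi : ℂ)) * this
  rw [h3] at h2
  have h4 : IsAlgebraic ℚ ((-2 : ℂ)⁻¹ * (-2 * (Real.pi : ℂ))) := by
    refine IsAlgebraic.mul ?_ h2
    have : ((-2 : ℂ)⁻¹) = algebraMap ℚ ℂ ((-2)⁻¹) := by simp
    rw [this]
    exact isAlgebraic_algebraMap _
  have h5 : ((-2 : ℂ)⁻¹ * (-2 * (Real.pi : ℂ))) = ((Real.pi : ℝ) : ℂ) := by
    field_simp
  rw [h5] at h4
  exact (isAlgebraic_algebraMap_iff (algebraMap ℝ ℂ).injective).1 h4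

/-- The determinant of the period matrix. -/
theorem det_sq {ι : Type} [Fintype ι] [DecidableEq ι] (w : ℕ) {N Q : Matrix ι ι ℚ}
    {M : Matrix ι ι ℂ} {c : ℚ} {lam : ℂ} (hlam : lam ≠ 0) (hc : c ≠ 0) (hQ : Q.det ≠ 0)
    (h : M.transpose * cm N * M = (lam ^ (2 * w) * (c : ℂ)) • cm Q) :
    ∃ q : ℚ, (M.det / lam ^ (w * Fintype.card ι)) ^ 2 = (q : ℂ) := by
  have h1 := congrArg Matrix.det h
  rw [Matrix.det_mul, Matrix.det_mul, Matrix.det_transpose, Matrix.det_smul, cm_det, cm_det] at h1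
  have hN : ((N.det : ℚ) : ℂ) ≠ 0 := by
    intro h0
    rw [h0, mul_zero, zero_mul] at h1
    have hcC : (c : ℂ) ≠ 0 := by exact_mod_cast hc
    have hQC : ((Q.det : ℚ) : ℂ) ≠ 0 := by exact_mod_cast hQ
    exact (mul_ne_zero (pow_ne_zero _ (mul_ne_zero (pow_ne_zero _ hlam) hcC)) hQC) h1.symm
  refine ⟨c ^ Fintype.card ι * Q.det / N.det, ?_⟩
  have h2 : M.det ^ 2 = (lam ^ (2 * w) * (c : ℂ)) ^ Fintype.card ι * ((Q.det : ℚ) : ℂ) /
      ((N.det : ℚ) : ℂ) := by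
    rw [eq_div_iff hN, ← h1]
    ring
  rw [div_pow, h2, mul_pow, ← pow_mul, ← pow_mul]
  have h3 : (lam ^ (w * Fintype.card ι * 2)) ≠ 0 := pow_ne_zero _ hlam
  have h4 : 2 * w * Fintype.card ι = w * Fintype.card ι * 2 := by ring
  rw [h4]
  push_cast
  field_simp

theorem fi2_proof (hOkt : EVD.Stmt_Okt) (hSro : EVD.Stmt_Sro) (hLap : EVD.Stmt_Lap)
    (hMko : EVD.Stmt_Mko) (hBlc : EVD.Stmt_Blc) (hTrg : EVD.Stmt_Trg) (hNdg : EVD.Stmt_Ndg)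
    (hFin : EVD.Stmt_Fin) (hTro : Stmt_Tro) (hFld : Stmt_Fld) (hCrd : Stmt_Crd) : Stmt_Fi2 := by
  classical
  intro nF k f hk hAdm hsep r φ D
  have hpi : (2 * Real.pi * Complex.I : ℂ) ≠ 0 := by
    simp [Real.pi_ne_zero, Complex.I_ne_zero]
  choose R hR hθ hdata using fun a => data hOkt hSro hLap hMko hBlc hTrg hNdg (hk a) (hAdm a)
  have hfacQ : ∀ a, ((-1) ^ (k a) / ((k a).factorial : ℚ) ^ 2 : ℚ) ≠ 0 := by
    intro a
    apply div_ne_zero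
    · exact pow_ne_zero _ (by norm_num)
    · exact pow_ne_zero _ (by exact_mod_cast Nat.factorial_ne_zero (k a))
  have hndg : ∀ a, (inter (f a)).det ≠ 0 ∧ (inter (f a)).transpose = inter (f a) := fun a =>
    hNdg (k a) (f a) (hk a) (hAdm a).two (hAdm a).cop
  obtain ⟨D₁, hD₁⟩ := hTro r (fun i => Ix (f (φ i))) (fun i => inter (f (φ i)))
    (fun i => k (φ i) + 1) (fun i => hCrd (k (φ i)) (f (φ i)) (hk _) (hAdm _).two (hAdm _).cop)
    (fun i => ⟨(hndg (φ i)).2, (hndg (φ i)).1⟩)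
  obtain ⟨δ₁, hδ₁, C, n₁, hfin⟩ := hFin nF k f hk hAdm hsep r φ (max (D * 2 ^ r) (max D D₁))
  obtain ⟨ρ₁, hρ₁, hρ₁le⟩ := exists_le R R hR hR
  refine ⟨min δ₁ (1 / 2), lt_min hδ₁ (by norm_num), C, max n₁ (⌈1 / ρ₁ ^ 2⌉₊ + 2), ?_⟩
  intro n hn
  have hn1 : n₁ ≤ n := le_trans (le_max_left _ _) hn
  have hn2 : ⌈1 / ρ₁ ^ 2⌉₊ + 2 ≤ n := le_trans (le_max_right _ _) hn
  have hnN : 1 ≤ n := by omega
  have hnR : (1 : ℝ) ≤ n := by exact_mod_cast hnN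
  obtain ⟨S, hS, hmain⟩ := hfin n hn1
  refine ⟨S, hS, ?_⟩
  intro ρ hρd hρ L hLfin hfr
  have hpow : (n : ℝ) ^ (min δ₁ (1 / 2)) ≤ (n : ℝ) ^ δ₁ :=
    Real.rpow_le_rpow_of_exponent_le hnR (min_le_left _ _)
  have hρ' : ∀ i, 0 < ρ i ∧ ρ i ∉ S ∧ ((ρ i).num : ℝ) ≤ (n : ℝ) ^ δ₁ ∧
      ((ρ i).den : ℝ) ≤ (n : ℝ) ^ δ₁ := fun i => ⟨(hρ i).1, (hρ i).2.1,
    le_trans (hρ i).2.2.1 hpow, le_trans (hρ i).2.2.2 hpow⟩
  have hsm : ∀ i, (0 : ℝ) < (ρ i : ℝ) / n ∧ (ρ i : ℝ) / n < ρ₁ := fun i =>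
    small n ρ₁ (min δ₁ (1 / 2)) hρ₁ (min_le_right _ _) hn2 (ρ i) (hρ i).1 (hρ i).2.2
  refine ⟨fun P hP hP0 mu g hmu hg => hmain ρ hρd hρ' L hLfin
    (le_trans hfr (le_trans (le_max_left D D₁) (le_max_right _ _))) P
    (le_trans hP (le_trans (le_max_left D D₁) (le_max_right _ _))) hP0 mu g hmu hg, ?_⟩
  intro H hH x hx
  have hcast : ∀ i, (((ρ i / n : ℚ)) : ℝ) = (ρ i : ℝ) / n := by
    intro i
    push_cast
    rfl
  have hd : ∀ i, _ := fun i => hdata (φ i) (ρ i / n) (by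
    have h1 := (hρ i).1
    positivity) (by
    rw [hcast]
    exact lt_of_lt_of_le (hsm i).2 (hρ₁le (φ i)).1)
  -- the bilinear relation for the period matrices
  have hbil : ∀ i, (per (f (φ i)) ((ρ i / n : ℚ) : ℂ)).transpose *
      cm ((GK (f (φ i)) (k (φ i)) (ρ i / n)).transpose * (UT (f (φ i)) *
        ((ρ i / n) • (1 : Matrix (Ix (f (φ i))) (Ix (f (φ i))) ℚ) + AT (f (φ i)))) *
        GK (f (φ i)) (k (φ i)) (ρ i / n)) * per (f (φ i)) ((ρ i / n : ℚ) : ℂ) =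
      ((2 * Real.pi * Complex.I) ^ (2 * (k (φ i) + 1)) *
        (((-1) ^ (k (φ i)) / ((k (φ i)).factorial : ℚ) ^ 2 : ℚ) : ℂ)) •
        cm (inter (f (φ i))) := by
    intro i
    have h1 : per (f (φ i)) ((ρ i / n : ℚ) : ℂ) = LM (f (φ i)) ((ρ i / n : ℚ) : ℂ) :=
      hLap (2 * k (φ i) + 1) (f (φ i)) (by omega) (hAdm _).mon (hAdm _).two (adm_ray (hAdm _))
        ((ρ i / n : ℚ) : ℂ) (by
          have h2 : (((ρ i / n : ℚ)) : ℂ) = (((ρ i : ℝ) / n : ℝ) : ℂ) := by push_cast; rfl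
          rw [h2, Complex.ofReal_re]
          exact (hsm i).1.le)
    have h3 := (hd i).2.2.1
    rw [MK_eq, ← h1] at h3
    rw [← h3, cm_mul, cm_mul, Matrix.transpose_mul]
    have h4 : cm ((GK (f (φ i)) (k (φ i)) (ρ i / n)).transpose) =
        (cm (GK (f (φ i)) (k (φ i)) (ρ i / n))).transpose := rfl
    rw [h4]
    simp only [Matrix.mul_assoc]
  -- the determinants
  set δ : Fin r → ℂ := fun i => (per (f (φ i)) ((ρ i / n : ℚ) : ℂ)).det /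
    (2 * Real.pi * Complex.I) ^ ((k (φ i) + 1) * Fintype.card (Ix (f (φ i)))) with hδ
  obtain ⟨L', hL'fin, hLL', hδL', hfr'⟩ := hFld r δ (fun i =>
    det_sq (k (φ i) + 1) hpi (hfacQ (φ i)) (hndg (φ i)).1 (hbil i)) L hLfin
  have hLalg : ∀ a ∈ L', IsAlgebraic ℚ a := by
    intro a ha
    have h1 : IsAlgebraic ℚ (⟨a, ha⟩ : L') := IsAlgebraic.of_finite ℚ _
    exact IsAlgebraic.algHom L'.val h1
  refine hD₁ L' hLalg (2 * Real.pi * Complex.I) tr _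
    (fun i => (-1) ^ (k (φ i)) / ((k (φ i)).factorial : ℚ) ^ 2) δ
    (fun i => per (f (φ i)) ((ρ i / n : ℚ) : ℂ)) (fun i => ⟨hfacQ (φ i), hδL' i, hbil i, ?_⟩) ?_
    H ?_ x ?_
  · rw [hδ]
    exact (div_mul_cancel₀ _ (pow_ne_zero _ hpi)).symm
  · intro P hP hP0 mu g hmu hg
    refine hmain ρ hρd hρ' L' hL'fin (le_trans hfr' (le_trans (Nat.mul_le_mul_right _ hfr)
      (le_max_left _ _))) P (le_trans hP (le_trans (le_max_right D D₁) (le_max_right _ _))) hP0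
      mu g hmu (fun i => ?_)
    have h1 : 2 * (k (φ i) + 1) = 2 * k (φ i) + 2 := by ring
    rw [← h1]
    exact hg i
  · -- the torsor over the larger field
    obtain ⟨E, hE⟩ := hH
    refine ⟨(MvPolynomial.map (IntermediateField.inclusion hLL' : L →+* L')) '' E, ?_⟩
    intro y
    rw [hE y]
    have h1 : ∀ e : MvPolynomial (Option (Σ i : Fin r, Ix (f (φ i)) × Ix (f (φ i)))) L,
        ∀ v : Option (Σ i : Fin r, Ix (f (φ i)) × Ix (f (φ i))) → ℂ,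
        (MvPolynomial.aeval v (MvPolynomial.map
          (IntermediateField.inclusion hLL' : L →+* L') e) : ℂ) = MvPolynomial.aeval v e := by
      intro e v
      rw [MvPolynomial.aeval_def, MvPolynomial.eval₂_map, MvPolynomial.aeval_def]
      rfl
    constructor
    · rintro h e ⟨e', he', rfl⟩
      rw [h1]
      exact h e' he'
    · intro h e he
      have h2 := h _ ⟨e, he, rfl⟩
      rw [h1] at h2
      exact h2
  · intro i
    have h1 : 2 * (k (φ i) + 1) = 2 * k (φ i) + 2 := by ring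
    show OSim (2 * (k (φ i) + 1)) (inter (f (φ i))) (x.1 : ℂ) _
    rw [h1]
    exact hx i

end

end Pool.Agent.EVT
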