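import Pool.Agent.EVT.Stmts

/-!
# EVT, module FLD: adjunction of square roots
-/

set_option autoImplicit false

open IntermediateField

namespace Pool.Agent.EVT

namespace FLD_

theorem one_step (L : IntermediateField ℚ ℂ) (hL : FiniteDimensional ℚ L) (δ : ℂ) (q : ℚ)
    (h : δ ^ 2 = (q : ℂ)) : ∃ L' : IntermediateField ℚ ℂ, FiniteDimensional ℚ L' ∧ L ≤ L' ∧
      δ ∈ L' ∧ Module.finrank ℚ L' ≤ Module.finrank ℚ L * 2 := by
  have hp : (Polynomial.X ^ 2 - Polynomial.C q : Polynomial ℚ).Monic :=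
    Polynomial.monic_X_pow_sub_C q two_ne_zero
  have hev : Polynomial.aeval δ (Polynomial.X ^ 2 - Polynomial.C q : Polynomial ℚ) = 0 := by
    simp [h]
  have hint : IsIntegral ℚ δ := ⟨_, hp, by simpa [Polynomial.aeval_def] using hev⟩
  have hfd : FiniteDimensional ℚ ℚ⟮δ⟯ := adjoin.finiteDimensional hint
  have hrank : Module.finrank ℚ ℚ⟮δ⟯ ≤ 2 := by
    rw [adjoin.finrank hint]
    calc (minpoly ℚ δ).natDegree
        ≤ (Polynomial.X ^ 2 - Polynomial.C q : Polynomial ℚ).natDegree :=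
          Polynomial.natDegree_le_of_dvd (minpoly.dvd ℚ δ hev) hp.ne_zero
      _ = 2 := Polynomial.natDegree_X_pow_sub_C
  refine ⟨L ⊔ ℚ⟮δ⟯, finiteDimensional_sup L ℚ⟮δ⟯, le_sup_left,
    le_sup_right (a := L) (mem_adjoin_simple_self ℚ δ), ?_⟩
  calc Module.finrank ℚ (L ⊔ ℚ⟮δ⟯ : IntermediateField ℚ ℂ)
      ≤ Module.finrank ℚ L * Module.finrank ℚ ℚ⟮δ⟯ := finrank_sup_le L ℚ⟮δ⟯
    _ ≤ Module.finrank ℚ L * 2 := Nat.mul_le_mul_left _ hrank

end FLD_

theorem fld_proof : Stmt_Fld := by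
  intro r
  induction r with
  | zero =>
    intro δ _ L hL
    exact ⟨L, hL, le_refl _, fun i => i.elim0, by simp⟩
  | succ r ih =>
    intro δ hδ L hL
    obtain ⟨L1, h1, h2, h3, h4⟩ := ih (fun i => δ i.castSucc) (fun i => hδ i.castSucc) L hL
    obtain ⟨q, hq⟩ := hδ (Fin.last r)
    obtain ⟨L2, h5, h6, h7, h8⟩ := FLD_.one_step L1 h1 (δ (Fin.last r)) q hq
    refine ⟨L2, h5, le_trans h2 h6, fun i => ?_, ?_⟩
    · refine Fin.lastCases h7 (fun i => ?_) i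
      exact h6 (h3 i)
    · calc Module.finrank ℚ L2 ≤ Module.finrank ℚ L1 * 2 := h8
        _ ≤ Module.finrank ℚ L * 2 ^ r * 2 := Nat.mul_le_mul_right _ h4
        _ = Module.finrank ℚ L * 2 ^ (r + 1) := by rw [pow_succ, mul_assoc]

end Pool.Agent.EVT
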