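import Pool.Agent.EVT.Main

set_option autoImplicit false

/-!
# EVT: the statement in brief form
-/

open scoped BigOperators

namespace Pool.Agent.EVT

open Pool.Agent.EVD

noncomputable section

section

variable {r : ℕ} {ι : Fin r → Type} [∀ i, Fintype (ι i)] [∀ i, DecidableEq (ι i)]

/-- The coefficients of `P` are in `L`. -/
def Over {σ : Type} (L : IntermediateField ℚ ℂ) (P : MvPolynomial σ ℂ) : Prop :=
  ∀ a, P.coeff a ∈ L

/-- `InT w Q mu g`: `mu ≠ 0` and `g_i` is a similitude of the symmetric form `Q_i` with multiplier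
`mu ^ w_i`, and with determinant `mu ^ (w_i m_i / 2)` (`m_i` is the rank and `w_i` is even). -/
def InT (w : Fin r → ℕ) (Q : ∀ i, Matrix (ι i) (ι i) ℚ) (mu : ℂ)
    (g : ∀ i, Matrix (ι i) (ι i) ℂ) : Prop :=
  mu ≠ 0 ∧ ∀ i, OSim (w i) (Q i) mu (g i)

/-- Every polynomial over `L` of degree at most `D` which vanishes at `(lam, M_1, ..., M_r)` vanishes
at all `(mu lam, M_1 g_1, ..., M_r g_r)`, `(mu, g)` in the group `InT w Q`. -/
def Rel (L : IntermediateField ℚ ℂ) (D : ℕ) (w : Fin r → ℕ) (Q : ∀ i, Matrix (ι i) (ι i) ℚ)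
    (lam : ℂ) (M : ∀ i, Matrix (ι i) (ι i) ℂ) : Prop :=
  ∀ P, Over L P → P.totalDegree ≤ D → MvPolynomial.eval (pt lam M) P = 0 →
    ∀ mu g, InT w Q mu g → MvPolynomial.eval (pt (mu * lam) fun i => M i * g i) P = 0

/-- The orbit `c H` of the point `c = (lam, M_1, ..., M_r)` under the group `H` is the set of the
common zeros (among the points of the orbit of `c` under all automorphisms) of some polynomials with
coefficients in `L`: it is a torsor over `L` under `H`, which contains `c`. -/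
def IsTor (L : IntermediateField ℚ ℂ) (lam : ℂ) (M : ∀ i, Matrix (ι i) (ι i) ℂ)
    (H : Subgroup (Aut ι)) : Prop :=
  ∃ E : Set (MvPolynomial (Option (Σ i, ι i × ι i)) ℂ), (∀ e ∈ E, Over L e) ∧ ∀ x : Aut ι,
    x ∈ H ↔ ∀ e ∈ E, MvPolynomial.eval (pt (x.1 * lam) fun i => M i * (x.2 i).val) e = 0

/-- Every torsor over `L` which contains `(lam, M_1, ..., M_r)` contains all
`(mu lam, M_1 g_1, ..., M_r g_r)`, `(mu, g)` in the group `InT w Q`. -/
def Tor (L : IntermediateField ℚ ℂ) (w : Fin r → ℕ) (Q : ∀ i, Matrix (ι i) (ι i) ℚ) (lam : ℂ)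
    (M : ∀ i, Matrix (ι i) (ι i) ℂ) : Prop :=
  ∀ H : Subgroup (Aut ι), IsTor L lam M H → ∀ x : Aut ι, InT w Q x.1 (fun i => x.2 i) → x ∈ H

end

section

variable {r : ℕ} {n : Fin r → ℕ}

/-- `Rel` for the period matrices `per (f_i) (t_i)` and `lam = 2 π i`. -/
def Relations (L : IntermediateField ℚ ℂ) (D : ℕ) (f : ∀ i, Fin (n i) → Polynomial ℚ)
    (t : Fin r → ℚ) : Prop :=
  Rel L D (fun i => n i + 1) (fun i => inter (f i)) (2 * Real.pi * Complex.I)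
    (fun i => per (f i) (t i))

/-- `Tor` for the period matrices `per (f_i) (t_i)` and `lam = 2 π i`. -/
def Torsors (L : IntermediateField ℚ ℂ) (f : ∀ i, Fin (n i) → Polynomial ℚ)
    (t : Fin r → ℚ) : Prop :=
  Tor L (fun i => n i + 1) (fun i => inter (f i)) (2 * Real.pi * Complex.I)
    (fun i => per (f i) (t i))

end

/-- `ρ` is positive and its numerator and denominator are at most `n ^ δ`. -/
def Small (δ : ℝ) (n : ℕ) (ρ : ℚ) : Prop :=
  0 < ρ ∧ (ρ.num : ℝ) ≤ n ^ δ ∧ (ρ.den : ℝ) ≤ n ^ δ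

end

theorem over_map {σ : Type} (L : IntermediateField ℚ ℂ) (P : MvPolynomial σ ℂ)
    (h : Over L P) : ∃ P' : MvPolynomial σ L, MvPolynomial.map (algebraMap L ℂ) P' = P ∧
      P'.totalDegree = P.totalDegree := by
  have h1 : P ∈ Set.range (MvPolynomial.map (σ := σ) (algebraMap L ℂ)) := by
    rw [MvPolynomial.mem_range_map_iff_coeffs_subset]
    intro x hx
    rw [Finset.mem_coe, MvPolynomial.mem_coeffs_iff] at hx
    obtain ⟨a, -, rfl⟩ := hx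
    exact ⟨⟨_, h a⟩, rfl⟩
  obtain ⟨P', hP'⟩ := h1
  refine ⟨P', hP', ?_⟩
  rw [← hP', MvPolynomial.totalDegree, MvPolynomial.totalDegree,
    MvPolynomial.support_map_of_injective P' (algebraMap L ℂ).injective]

theorem eval_map {σ : Type} (L : IntermediateField ℚ ℂ) (P' : MvPolynomial σ L) (v : σ → ℂ) :
    MvPolynomial.eval v (MvPolynomial.map (algebraMap L ℂ) P') = MvPolynomial.aeval v P' := by
  rw [MvPolynomial.eval_map]
  rfl

section

variable {r : ℕ} {ι : Fin r → Type} [∀ i, Fintype (ι i)] [∀ i, DecidableEq (ι i)]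

theorem rel_of (L : IntermediateField ℚ ℂ) (D : ℕ) (w : Fin r → ℕ)
    (Q : ∀ i, Matrix (ι i) (ι i) ℚ) (lam : ℂ) (M : ∀ i, Matrix (ι i) (ι i) ℂ)
    (h : ∀ P : MvPolynomial (Option (Σ i, ι i × ι i)) L, P.totalDegree ≤ D →
      MvPolynomial.aeval (pt lam M) P = (0 : ℂ) →
      ∀ (mu : ℂ) (g : ∀ i, Matrix (ι i) (ι i) ℂ), mu ≠ 0 → (∀ i, OSim (w i) (Q i) mu (g i)) →
        MvPolynomial.aeval (pt (mu * lam) (fun i => M i * g i)) P = (0 : ℂ)) :
    Rel L D w Q lam M := by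
  intro P hP hd hz mu g hg
  obtain ⟨P', rfl, hd'⟩ := over_map L P hP
  rw [eval_map] at hz ⊢
  exact h P' (hd'.le.trans hd) hz mu g hg.1 hg.2

theorem tor_of (L : IntermediateField ℚ ℂ) (w : Fin r → ℕ)
    (Q : ∀ i, Matrix (ι i) (ι i) ℚ) (lam : ℂ) (M : ∀ i, Matrix (ι i) (ι i) ℂ)
    (h : ∀ H : Subgroup (Aut ι), IsTors L lam M H → ∀ x : Aut ι,
      (∀ i, OSim (w i) (Q i) (x.1 : ℂ) (x.2 i : Matrix (ι i) (ι i) ℂ)) → x ∈ H) :
    Tor L w Q lam M := by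
  intro H hH x hx
  refine h H ?_ x hx.2
  obtain ⟨E, hE, hx⟩ := hH
  refine ⟨{P' | MvPolynomial.map (algebraMap L ℂ) P' ∈ E}, fun x => (hx x).trans
    ⟨fun h e he => ?_, fun h e he => ?_⟩⟩
  · rw [← eval_map]
    exact h _ he
  · obtain ⟨P', rfl, -⟩ := over_map L e (hE e he)
    rw [eval_map]
    exact h P' he

end

open Pool.Agent.EVD in
/-- The main theorem in brief form. -/
theorem final (nF : ℕ) (k : Fin nF → ℕ) (f : ∀ a, Fin (2 * k a + 1) → Polynomial ℚ)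
    (hk : ∀ a, 1 ≤ k a) (hf : ∀ a, Adm (f a))
    (hp : ∀ a b, a ≠ b → ∀ ρ : ℚ, 0 < ρ → (fun v : ℂ => ρ * v) '' crit (f a) ≠ crit (f b))
    (r : ℕ) (φ : Fin r → Fin nF) (D : ℕ) :
    ∃ δ : ℝ, 0 < δ ∧ ∃ C n₀ : ℕ, ∀ n : ℕ, n₀ ≤ n → ∃ S : Finset ℚ, S.card ≤ C ∧
    ∀ ρ : Fin r → ℚ, (∀ i j, i ≠ j → φ i = φ j → ρ i ≠ ρ j) → (∀ i, Small δ n (ρ i) ∧ ρ i ∉ S) →
    ∀ L : IntermediateField ℚ ℂ, FiniteDimensional ℚ L → Module.finrank ℚ L ≤ D →
    Relations L D (fun i => f (φ i)) (fun i => ρ i / n) ∧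
    Torsors L (fun i => f (φ i)) (fun i => ρ i / n) := by
  obtain ⟨δ, hδ, C, n₀, h⟩ := main nF k f hk hf hp r φ D
  refine ⟨δ, hδ, C, n₀, fun n hn => ?_⟩
  obtain ⟨S, hS, h⟩ := h n hn
  refine ⟨S, hS, fun ρ h1 h2 L hL hD => ?_⟩
  obtain ⟨h3, h4⟩ := h ρ h1 (fun i => ⟨(h2 i).1.1, (h2 i).2, (h2 i).1.2⟩) L hL hD
  exact ⟨rel_of (ι := fun i => Ix (f (φ i))) L D _ _ _ _ h3,
    tor_of (ι := fun i => Ix (f (φ i))) L _ _ _ _ h4⟩

end Pool.Agent.EVT
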