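import Pool.Agent.EVT.Stmts

set_option autoImplicit false

/-!
# EVT, module LIE: the Lie algebra of a closed subgroup
-/

open scoped BigOperators

namespace Pool.Agent.EVT

open Pool.Agent.EVD (Iso wed OSim pt cm Ix)

noncomputable section

namespace LIE_

open Matrix

attribute [local instance] Matrix.linftyOpNormedRing Matrix.linftyOpNormedAlgebra

/-! ## Exponential of block matrices -/

section blocks

variable {m n : Type} [Fintype m] [DecidableEq m] [Fintype n] [DecidableEq n]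

/-- The pairs of matrices as block matrices. -/
def blk : (Matrix m m ℂ × Matrix n n ℂ) →+* Matrix (m ⊕ n) (m ⊕ n) ℂ where
  toFun p := Matrix.fromBlocks p.1 0 0 p.2
  map_one' := by simp
  map_mul' p q := by simp [Matrix.fromBlocks_multiply]
  map_zero' := by simp
  map_add' p q := by simp [Matrix.fromBlocks_add]

theorem exp_blocks (A : Matrix m m ℂ) (D : Matrix n n ℂ) :
    NormedSpace.exp (Matrix.fromBlocks A 0 0 D) =
      Matrix.fromBlocks (NormedSpace.exp A) 0 0 (NormedSpace.exp D) := by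
  have hc : Continuous (blk : (Matrix m m ℂ × Matrix n n ℂ) →+* Matrix (m ⊕ n) (m ⊕ n) ℂ) :=
    Continuous.matrix_fromBlocks continuous_fst continuous_const continuous_const continuous_snd
  have c1 : CompleteSpace (Matrix m m ℂ) := FiniteDimensional.complete ℂ _
  have c2 : CompleteSpace (Matrix n n ℂ) := FiniteDimensional.complete ℂ _
  have h := @NormedSpace.map_exp (Matrix m m ℂ × Matrix n n ℂ) (Matrix (m ⊕ n) (m ⊕ n) ℂ) _ _
    (by exact CompleteSpace.prod) _ _ _ _ _ (blk : (Matrix m m ℂ × Matrix n n ℂ) →+* _) hc (A, D)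
  have h2 : NormedSpace.exp ((A, D) : Matrix m m ℂ × Matrix n n ℂ) =
      (NormedSpace.exp A, NormedSpace.exp D) := by
    ext1
    · exact Prod.fst_exp (A, D)
    · exact Prod.snd_exp (A, D)
  exact h.symm.trans (congrArg blk h2)

theorem deriv_exp (X : Matrix m m ℂ) :
    HasDerivAt (fun t : ℂ => NormedSpace.exp (t • X)) X 0 := by
  have h := hasDerivAt_exp_smul_const X (0 : ℂ)
  rw [zero_smul, NormedSpace.exp_zero, one_mul] at h
  exact h

theorem deriv_entry (X : Matrix m m ℂ) (i j : m) :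
    HasDerivAt (fun t : ℂ => NormedSpace.exp (t • X) i j) (X i j) 0 := by
  have h1 := deriv_exp X
  exact hasDerivAt_pi.1 (hasDerivAt_pi.1 h1 i) j

end blocks

set_option linter.unusedSectionVars false

variable {r : ℕ} {ι : Fin r → Type} [∀ i, Fintype (ι i)] [∀ i, DecidableEq (ι i)]

/-- The index set. -/
abbrev K (ι : Fin r → Type) : Type := (Σ i, ι i) ⊕ Fin 2

/-- The block diagonal matrix. -/
def E (x y : ℂ) (Y : ∀ i, Matrix (ι i) (ι i) ℂ) : Matrix (K ι) (K ι) ℂ :=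
  Matrix.fromBlocks (Matrix.blockDiagonal' Y) 0 0 (Matrix.diagonal ![x, y])

theorem E_mul (x y x' y' : ℂ) (Y Y' : ∀ i, Matrix (ι i) (ι i) ℂ) :
    E x y Y * E x' y' Y' = E (x * x') (y * y') (fun i => Y i * Y' i) := by
  unfold E
  rw [Matrix.fromBlocks_multiply, Matrix.blockDiagonal'_mul, Matrix.diagonal_mul_diagonal]
  simp only [Matrix.mul_zero, Matrix.zero_mul, add_zero, zero_add]
  congr 2
  funext k
  fin_cases k <;> rfl

theorem E_add (x y x' y' : ℂ) (Y Y' : ∀ i, Matrix (ι i) (ι i) ℂ) :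
    E x y Y + E x' y' Y' = E (x + x') (y + y') (fun i => Y i + Y' i) := by
  unfold E
  rw [Matrix.fromBlocks_add, ← Matrix.blockDiagonal'_add, Matrix.diagonal_add]
  simp only [add_zero]
  congr 2
  funext k
  fin_cases k <;> rfl

theorem E_smul (c x y : ℂ) (Y : ∀ i, Matrix (ι i) (ι i) ℂ) :
    c • E x y Y = E (c * x) (c * y) (fun i => c • Y i) := by
  unfold E
  rw [Matrix.fromBlocks_smul, ← Matrix.blockDiagonal'_smul, ← Matrix.diagonal_smul]
  simp only [smul_zero]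
  congr 2
  funext k
  fin_cases k <;> rfl

theorem E_one : E (1 : ℂ) 1 (1 : ∀ i, Matrix (ι i) (ι i) ℂ) = 1 := by
  unfold E
  have h : (Matrix.diagonal ![(1 : ℂ), 1] : Matrix (Fin 2) (Fin 2) ℂ) = 1 := by
    rw [← Matrix.diagonal_one]
    congr 1
    funext k
    fin_cases k <;> rfl
  rw [h, Matrix.blockDiagonal'_one, Matrix.fromBlocks_one]

theorem E_inj {x y x' y' : ℂ} {Y Y' : ∀ i, Matrix (ι i) (ι i) ℂ}
    (h : E x y Y = E x' y' Y') : x = x' ∧ y = y' ∧ Y = Y' := by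
  refine ⟨?_, ?_, ?_⟩
  · have := congrFun (congrFun h (Sum.inr 0)) (Sum.inr 0)
    simpa [E] using this
  · have := congrFun (congrFun h (Sum.inr 1)) (Sum.inr 1)
    simpa [E] using this
  · funext i
    ext a b
    have := congrFun (congrFun h (Sum.inl ⟨i, a⟩)) (Sum.inl ⟨i, b⟩)
    simpa [E, Matrix.blockDiagonal'_apply_eq] using this

theorem exp_E (x y : ℂ) (Y : ∀ i, Matrix (ι i) (ι i) ℂ) :
    NormedSpace.exp (E x y Y) = E (Complex.exp x) (Complex.exp y)
      (fun i => NormedSpace.exp (Y i)) := by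
  unfold E
  rw [exp_blocks, Matrix.exp_blockDiagonal', Matrix.exp_diagonal]
  have h : (NormedSpace.exp ![x, y] : Fin 2 → ℂ) = ![Complex.exp x, Complex.exp y] := by
    rw [Pi.exp_def]
    funext k
    fin_cases k <;> simp [Complex.exp_eq_exp_ℂ]
  have h2 : (NormedSpace.exp Y : ∀ i, Matrix (ι i) (ι i) ℂ) = fun i => NormedSpace.exp (Y i) := by
    have : ∀ i, CompleteSpace (Matrix (ι i) (ι i) ℂ) := fun i => FiniteDimensional.complete ℂ _
    exact Pi.exp_def Y
  rw [h, h2]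

/-- The form. -/
def Qh (Q : ∀ i, Matrix (ι i) (ι i) ℂ) : Matrix (K ι) (K ι) ℂ :=
  Matrix.fromBlocks (Matrix.blockDiagonal' Q) 0 0 !![0, 1; 1, 0]

/-- The group of block matrices. -/
def Hh (H : Set (Pm ι)) : Set (Matrix (K ι) (K ι) ℂ) :=
  {A | ∃ a ∈ H, A = E a.1 (a.1)⁻¹ a.2}

/-- The indices. -/
def gi (ι : Fin r → Type) : Option (Σ i, ι i × ι i) → K ι × K ι := fun o =>
  o.elim (Sum.inr 0, Sum.inr 0) (fun p => (Sum.inl ⟨p.1, p.2.1⟩, Sum.inl ⟨p.1, p.2.2⟩))

theorem gi_E (x y : ℂ) (Y : ∀ i, Matrix (ι i) (ι i) ℂ) :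
    (fun p : K ι × K ι => E x y Y p.1 p.2) ∘ gi ι = pt x Y := by
  funext o
  cases o with
  | none => simp [gi, E, pt]
  | some p => simp [gi, E, pt, Matrix.blockDiagonal'_apply_eq]

theorem E_tr (x y : ℂ) (Y : ∀ i, Matrix (ι i) (ι i) ℂ) :
    (E x y Y).transpose = E x y (fun i => (Y i).transpose) := by
  unfold E
  rw [Matrix.fromBlocks_transpose, Matrix.blockDiagonal'_transpose, Matrix.diagonal_transpose]
  simp

theorem E_Qh (x y x' y' : ℂ) (Y Y' Q : ∀ i, Matrix (ι i) (ι i) ℂ) :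
    E x y Y * Qh Q * E x' y' Y' =
      Matrix.fromBlocks (Matrix.blockDiagonal' (fun i => Y i * Q i * Y' i)) 0 0
        !![0, x * y'; y * x', 0] := by
  unfold E Qh
  rw [Matrix.fromBlocks_multiply, Matrix.fromBlocks_multiply]
  simp only [Matrix.mul_zero, Matrix.zero_mul, add_zero, zero_add]
  rw [← Matrix.blockDiagonal'_mul, ← Matrix.blockDiagonal'_mul]
  congr 1
  ext a b
  fin_cases a <;> fin_cases b <;> simp [Matrix.mul_apply, Matrix.diagonal_apply]

theorem iso_E {Q : ∀ i, Matrix (ι i) (ι i) ℂ} {x y : ℂ} {Y : ∀ i, Matrix (ι i) (ι i) ℂ} :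
    Iso (Qh Q) (E x y Y) ↔ x * y = 1 ∧ ∀ i, Iso (Q i) (Y i) := by
  unfold Iso
  rw [E_tr, E_Qh]
  constructor
  · intro h
    unfold Qh at h
    rw [Matrix.fromBlocks_inj] at h
    obtain ⟨h1, -, -, h4⟩ := h
    refine ⟨?_, ?_⟩
    · have := congrFun (congrFun h4 0) 1
      simpa using this
    · have := Matrix.blockDiagonal'_injective h1
      intro i
      exact congrFun this i
  · rintro ⟨h1, h2⟩
    unfold Qh
    have h3 : (fun i => (Y i).transpose * Q i * Y i) = Q := funext h2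
    rw [h3, h1, mul_comm y x, h1]

/-- A matrix of the block form. -/
theorem form {Z : Matrix (K ι) (K ι) ℂ}
    (h1 : ∀ p k, Z (Sum.inl p) (Sum.inr k) = 0) (h2 : ∀ p k, Z (Sum.inr k) (Sum.inl p) = 0)
    (h3 : ∀ p q : Σ i, ι i, p.1 ≠ q.1 → Z (Sum.inl p) (Sum.inl q) = 0)
    (h4 : Z (Sum.inr 0) (Sum.inr 1) = 0) (h5 : Z (Sum.inr 1) (Sum.inr 0) = 0) :
    Z = E (Z (Sum.inr 0) (Sum.inr 0)) (Z (Sum.inr 1) (Sum.inr 1))
      (fun i => Matrix.of fun a b => Z (Sum.inl ⟨i, a⟩) (Sum.inl ⟨i, b⟩)) := by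
  ext p q
  rcases p with ⟨i, a⟩ | k <;> rcases q with ⟨j, b⟩ | l
  · unfold E
    rw [Matrix.fromBlocks_apply₁₁]
    by_cases hij : i = j
    · subst hij
      rw [Matrix.blockDiagonal'_apply_eq]
      rfl
    · rw [Matrix.blockDiagonal'_apply_ne _ _ _ hij]
      exact h3 _ _ hij
  · unfold E
    rw [Matrix.fromBlocks_apply₁₂]
    exact h1 _ _
  · unfold E
    rw [Matrix.fromBlocks_apply₂₁]
    exact h2 _ _
  · unfold E
    rw [Matrix.fromBlocks_apply₂₂]
    fin_cases k <;> fin_cases l <;> simp [h4, h5]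

theorem clg {Q : ∀ i, Matrix (ι i) (ι i) ℂ} {H : Set (Pm ι)} (hH : GrpO Q H) :
    EVD.ClG (Qh Q) (Hh H) where
  sub := by
    rintro A ⟨a, ha, rfl⟩
    have h := hH.sub a ha
    exact iso_E.2 ⟨mul_inv_cancel₀ h.1, fun i => (h.2 i).1⟩
  one := by
    refine ⟨1, hH.one, ?_⟩
    have : E (1 : Pm ι).1 ((1 : Pm ι).1)⁻¹ (1 : Pm ι).2 = E 1 1 1 := by
      show E (1 : ℂ) (1 : ℂ)⁻¹ 1 = E 1 1 1
      rw [inv_one]
    rw [this, E_one]
  mul := by
    rintro A ⟨a, ha, rfl⟩ B ⟨b, hb, rfl⟩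
    refine ⟨a * b, hH.mul a ha b hb, ?_⟩
    rw [E_mul]
    show _ = E (a.1 * b.1) (a.1 * b.1)⁻¹ (a.2 * b.2)
    rw [mul_inv]
    rfl
  inv := by
    rintro A ⟨a, ha, rfl⟩
    obtain ⟨b, hb, h1, h2⟩ := hH.inv a ha
    refine ⟨_, ⟨b, hb, rfl⟩, ?_, ?_⟩
    · rw [E_mul, ← mul_inv]
      have e1 : a.1 * b.1 = 1 := congrArg Prod.fst h1
      have e2 : (fun i => a.2 i * b.2 i) = 1 := congrArg Prod.snd h1
      rw [e1, e2, inv_one, E_one]
    · rw [E_mul, ← mul_inv]
      have e1 : b.1 * a.1 = 1 := congrArg Prod.fst h2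
      have e2 : (fun i => b.2 i * a.2 i) = 1 := congrArg Prod.snd h2
      rw [e1, e2, inv_one, E_one]
  closed := by
    intro A hA hP
    -- entries which vanish
    have hX : ∀ p q : K ι, (∀ a ∈ H, E a.1 (a.1)⁻¹ a.2 p q = 0) → A p q = 0 := by
      intro p q h
      have := hP (MvPolynomial.X (p, q)) (by
        rintro B ⟨a, ha, rfl⟩
        rw [MvPolynomial.eval_X]
        exact h a ha)
      rwa [MvPolynomial.eval_X] at this
    have hform := form (Z := A)
      (fun p k => hX _ _ (fun a _ => by simp [E]))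
      (fun p k => hX _ _ (fun a _ => by simp [E]))
      (fun p q hpq => hX _ _ (fun a _ => by
        rcases p with ⟨i, a'⟩
        rcases q with ⟨j, b'⟩
        unfold E
        rw [Matrix.fromBlocks_apply₁₁, Matrix.blockDiagonal'_apply_ne _ _ _ hpq]))
      (hX _ _ (fun a _ => by simp [E]))
      (hX _ _ (fun a _ => by simp [E]))
    set x := A (Sum.inr 0) (Sum.inr 0) with hx
    set y := A (Sum.inr 1) (Sum.inr 1) with hy
    set Y : ∀ i, Matrix (ι i) (ι i) ℂ := fun i => Matrix.of fun a b =>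
      A (Sum.inl ⟨i, a⟩) (Sum.inl ⟨i, b⟩) with hY
    rw [hform] at hA
    obtain ⟨hxy, hIso⟩ := iso_E.1 hA
    have hx0 : x ≠ 0 := fun h => by
      rw [h, zero_mul] at hxy
      exact zero_ne_one hxy
    have hyx : y = x⁻¹ := eq_inv_of_mul_eq_one_right hxy
    have hdet : ∀ i, (Y i).det = 1 := by
      intro i
      have := hP ((Matrix.of fun a b : ι i => (MvPolynomial.X
        ((Sum.inl ⟨i, a⟩, Sum.inl ⟨i, b⟩) : K ι × K ι) : MvPolynomial (K ι × K ι) ℂ)).det - 1) (by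
        rintro B ⟨a, ha, rfl⟩
        rw [map_sub, map_one, RingHom.map_det, ← ((hH.sub a ha).2 i).2, sub_eq_zero]
        congr 1
        ext c d
        simp [E, Matrix.blockDiagonal'_apply_eq])
      rw [map_sub, map_one, RingHom.map_det, sub_eq_zero] at this
      rw [← this]
      congr 1
      ext c d
      simp [hY]
    have hmem : ((x, Y) : Pm ι) ∈ H := by
      refine hH.closed (x, Y) ⟨hx0, fun i => ⟨hIso i, hdet i⟩⟩ ?_
      intro P hPH
      have := hP (MvPolynomial.rename (gi ι) P) (by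
        rintro B ⟨a, ha, rfl⟩
        rw [MvPolynomial.eval_rename, gi_E]
        exact hPH a ha)
      rw [MvPolynomial.eval_rename, hform, gi_E] at this
      exact this
    refine ⟨(x, Y), hmem, ?_⟩
    rw [hform, hyx]

theorem exp_smul_E (t x : ℂ) (Y : ∀ i, Matrix (ι i) (ι i) ℂ) :
    NormedSpace.exp (t • E x (-x) Y) = E (ex t (x, Y)).1 ((ex t (x, Y)).1)⁻¹ (ex t (x, Y)).2 := by
  rw [E_smul, exp_E, mul_neg, Complex.exp_neg]
  rfl

theorem mem_iff {H : Set (Pm ι)} {X : Pm ι} : X ∈ LieO H ↔ E X.1 (-X.1) X.2 ∈ EVD.Lie (Hh H) := by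
  constructor
  · intro h t
    rw [exp_smul_E]
    exact ⟨ex t X, h t, rfl⟩
  · intro h t
    have h1 := h t
    rw [exp_smul_E] at h1
    obtain ⟨a, ha, hE⟩ := h1
    obtain ⟨h1, -, h2⟩ := E_inj hE
    have : ex t X = a := Prod.ext h1 h2
    rw [this]
    exact ha

theorem lie_form {Q : ∀ i, Matrix (ι i) (ι i) ℂ} {H : Set (Pm ι)} (hH : GrpO Q H)
    {Z : Matrix (K ι) (K ι) ℂ} (hZ : Z ∈ EVD.Lie (Hh H)) :
    ∃ X ∈ LieO H, Z = E X.1 (-X.1) X.2 := by
  have hX : ∀ p q : K ι, (∀ a ∈ H, E a.1 (a.1)⁻¹ a.2 p q = 0) → Z p q = 0 := by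
    intro p q h
    have h1 : ∀ t : ℂ, NormedSpace.exp (t • Z) p q = 0 := by
      intro t
      obtain ⟨a, ha, hE⟩ := hZ t
      rw [hE]
      exact h a ha
    have h2 := deriv_entry Z p q
    have h3 : (fun t : ℂ => NormedSpace.exp (t • Z) p q) = fun _ => 0 := funext h1
    rw [h3] at h2
    exact h2.unique (hasDerivAt_const (0 : ℂ) (0 : ℂ))
  have hform := form (Z := Z)
    (fun p k => hX _ _ (fun a _ => by simp [E]))
    (fun p k => hX _ _ (fun a _ => by simp [E]))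
    (fun p q hpq => hX _ _ (fun a _ => by
      rcases p with ⟨i, a'⟩
      rcases q with ⟨j, b'⟩
      unfold E
      rw [Matrix.fromBlocks_apply₁₁, Matrix.blockDiagonal'_apply_ne _ _ _ hpq]))
    (hX _ _ (fun a _ => by simp [E]))
    (hX _ _ (fun a _ => by simp [E]))
  have hneg : Z (Sum.inr 1) (Sum.inr 1) = - Z (Sum.inr 0) (Sum.inr 0) := by
    have h1 : ∀ t : ℂ, NormedSpace.exp (t • Z) (Sum.inr 0) (Sum.inr 0) *
        NormedSpace.exp (t • Z) (Sum.inr 1) (Sum.inr 1) = 1 := by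
      intro t
      obtain ⟨a, ha, hE⟩ := hZ t
      rw [hE]
      have := (hH.sub a ha).1
      simp [E, this]
    have h2 := (deriv_entry Z (Sum.inr 0) (Sum.inr 0)).mul
      (deriv_entry Z (Sum.inr 1) (Sum.inr 1))
    have h3 : ((fun t : ℂ => NormedSpace.exp (t • Z) (Sum.inr 0) (Sum.inr 0)) *
        fun t : ℂ => NormedSpace.exp (t • Z) (Sum.inr 1) (Sum.inr 1)) = fun _ => 1 := funext h1
    rw [h3] at h2
    have h4 := h2.unique (hasDerivAt_const (0 : ℂ) (1 : ℂ))
    rw [zero_smul, NormedSpace.exp_zero, Matrix.one_apply_eq, Matrix.one_apply_eq, one_mul,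
      mul_one] at h4
    exact eq_neg_of_add_eq_zero_right h4
  rw [hneg] at hform
  refine ⟨(Z (Sum.inr 0) (Sum.inr 0), fun i => Matrix.of fun a b =>
    Z (Sum.inl ⟨i, a⟩) (Sum.inl ⟨i, b⟩)), ?_, hform⟩
  rw [mem_iff]
  rw [hform] at hZ
  exact hZ

end LIE_

open LIE_ in
theorem lie_proof (h1 : EVD.Stmt_Lia) (h2 : EVD.Stmt_Lib) (h3 : EVD.Stmt_Lic) : Stmt_Lie := by
  intro r ι _ _ Q hQ H hH
  have hC := clg hH
  refine ⟨?_, ?_, ?_, ?_⟩
  · intro X hX Y hY c
    have := h1 _ _ _ hC _ (mem_iff.1 hX) _ (mem_iff.1 hY) c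
    rw [E_smul, E_add] at this
    rw [mem_iff]
    have e : -(X + c • Y).1 = -X.1 + c * -Y.1 := by
      show -(X.1 + c * Y.1) = _
      ring
    rw [e]
    exact this
  · intro hfin
    have hdet : (Qh Q).det ≠ 0 := by
      apply Matrix.det_ne_zero_of_right_inverse (B := Qh fun i => (Q i)⁻¹)
      unfold Qh
      rw [Matrix.fromBlocks_multiply, ← Matrix.blockDiagonal'_mul]
      have e1 : (fun i => Q i * (Q i)⁻¹) = 1 := by
        funext i
        exact Matrix.mul_nonsing_inv _ (Ne.isUnit (hQ i))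
      have e2 : (!![0, 1; 1, 0] : Matrix (Fin 2) (Fin 2) ℂ) * !![0, 1; 1, 0] = 1 := by
        ext a b
        fin_cases a <;> fin_cases b <;> simp
      simp only [Matrix.mul_zero, Matrix.zero_mul, add_zero, zero_add]
      rw [e1, e2, Matrix.blockDiagonal'_one, Matrix.fromBlocks_one]
    obtain ⟨Z, hZ, hZ0⟩ := h2 _ (Qh Q) (Hh H) hdet hC (by
      intro hf
      apply hfin
      have hinj : Set.InjOn (fun a : Pm ι => E a.1 (a.1)⁻¹ a.2) H := by
        intro a _ b _ hab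
        obtain ⟨e1, -, e2⟩ := E_inj hab
        exact Prod.ext e1 e2
      refine Set.Finite.of_finite_image (hf.subset ?_) hinj
      rintro _ ⟨a, ha, rfl⟩
      exact ⟨a, ha, rfl⟩)
    obtain ⟨X, hX, rfl⟩ := lie_form hH hZ
    refine ⟨X, hX, ?_⟩
    rintro rfl
    apply hZ0
    show E (0 : ℂ) (-0) (0 : ∀ i, Matrix (ι i) (ι i) ℂ) = 0
    unfold E
    rw [neg_zero, Matrix.blockDiagonal'_zero]
    have : Matrix.diagonal ![(0 : ℂ), 0] = 0 := by
      ext a b
      fin_cases a <;> fin_cases b <;> simp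
    rw [this, Matrix.fromBlocks_zero]
  · intro X hX i
    have := (h3 _ (Qh Q) (Hh H) hC).1 _ (mem_iff.1 hX)
    rw [E_tr] at this
    have e1 : E X.1 (-X.1) (fun i => (X.2 i).transpose) * Qh Q =
        E X.1 (-X.1) (fun i => (X.2 i).transpose) * Qh Q * E 1 1 1 := by rw [E_one, mul_one]
    have e2 : Qh Q * E X.1 (-X.1) X.2 = E 1 1 1 * Qh Q * E X.1 (-X.1) X.2 := by
      rw [E_one, one_mul]
    rw [e1, e2, E_Qh, E_Qh, Matrix.fromBlocks_add, ← Matrix.blockDiagonal'_add] at this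
    ext a b
    have := congrFun (congrFun this (Sum.inl ⟨i, a⟩)) (Sum.inl ⟨i, b⟩)
    rw [Matrix.fromBlocks_apply₁₁, Matrix.blockDiagonal'_apply_eq] at this
    simpa using this
  · intro X hX a ha b hab hba
    have hb : b ∈ H := by
      obtain ⟨b', hb', h4, -⟩ := hH.inv a ha
      have : b = b' := by
        calc b = b * (a * b') := by rw [h4, mul_one]
          _ = b' := by rw [← mul_assoc, hba, one_mul]
      rw [this]
      exact hb'
    have e1 : a.1 * b.1 = 1 := congrArg Prod.fst hab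
    have e2 : ∀ i, a.2 i * b.2 i = 1 := fun i => congrFun (congrArg Prod.snd hab) i
    have e3 : ∀ i, b.2 i * a.2 i = 1 := fun i => congrFun (congrArg Prod.snd hba) i
    have := (h3 _ (Qh Q) (Hh H) hC).2.1 (E a.1 (a.1)⁻¹ a.2) (E b.1 (b.1)⁻¹ b.2) (by
        rw [E_mul, ← mul_inv, e1, inv_one, ← E_one]
        congr 1
        funext i
        exact e2 i) (by
        rw [E_mul, ← mul_inv, mul_comm b.1, e1, inv_one, ← E_one]
        congr 1
        funext i
        exact e3 i) (by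
        intro h hh
        exact hC.mul _ (hC.mul _ ⟨a, ha, rfl⟩ _ hh) _ ⟨b, hb, rfl⟩) _ (mem_iff.1 hX)
    rw [E_mul, E_mul] at this
    rw [mem_iff]
    have e : -(a * X * b).1 = (a.1)⁻¹ * -X.1 * (b.1)⁻¹ := by
      show -(a.1 * X.1 * b.1) = _
      have h5 : (a.1)⁻¹ * (b.1)⁻¹ = 1 := by rw [← mul_inv, e1, inv_one]
      linear_combination (-X.1) * e1 + X.1 * h5
    rw [e]
    exact this

end

end Pool.Agent.EVT
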