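import Pool.Agent.EVT.Stmts
import Pool.Agent.EVD.ORT

set_option autoImplicit false

/-!
# EVT, module LSO: a finite component contradicts the density
-/

open scoped BigOperators
open Matrix

namespace Pool.Agent.EVT

open Pool.Agent.EVD (Iso wed OSim pt cm Ix)

noncomputable section

namespace LSO_

/-! ### the commutant of the special orthogonal group -/

section comm

variable {ι : Type} [Fintype ι] [DecidableEq ι]

/-- the diagonal matrix with `-1` at `p` -/
def dg (p : ι) : Matrix ι ι ℂ := Matrix.diagonal (fun i => if i = p then -1 else 1)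

lemma dg_T (p : ι) : (dg p)ᵀ = dg p := by unfold dg; rw [Matrix.diagonal_transpose]

lemma dg_sq (p : ι) : dg p * dg p = 1 := by
  unfold dg
  rw [Matrix.diagonal_mul_diagonal, ← Matrix.diagonal_one]
  congr 1
  funext i
  by_cases h : i = p
  · rw [if_pos h]; norm_num
  · rw [if_neg h]; norm_num

lemma dg_det (p : ι) : (dg p).det = -1 := by
  unfold dg
  rw [Matrix.det_diagonal, Finset.prod_ite_eq' Finset.univ p (fun _ => (-1 : ℂ))]
  simp

lemma exists_third (hc : 3 ≤ Fintype.card ι) (p q : ι) : ∃ a, a ≠ p ∧ a ≠ q := by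
  by_contra hcon
  push Not at hcon
  have h1 : (Finset.univ : Finset ι) ⊆ {p, q} := by
    intro a _
    rw [Finset.mem_insert, Finset.mem_singleton]
    by_cases h : a = p
    · exact Or.inl h
    · exact Or.inr (hcon a h)
  have h2 := Finset.card_le_card h1
  have h3 := Finset.card_le_two (a := p) (b := q)
  rw [Finset.card_univ] at h2
  omega

lemma comm_one (hc : 3 ≤ Fintype.card ι) (s : Matrix ι ι ℂ)
    (h : ∀ a : Matrix ι ι ℂ, aᵀ * a = 1 → a.det = 1 → a * s = s * a) :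
    ∃ c : ℂ, s = c • (1 : Matrix ι ι ℂ) := by
  have off : ∀ p q : ι, p ≠ q → s p q = 0 := by
    intro p q hpq
    obtain ⟨a, hap, haq⟩ := exists_third hc p q
    have h1 := h (dg p * dg a) (by
      rw [Matrix.transpose_mul, dg_T, dg_T, mul_assoc, ← mul_assoc (dg p), dg_sq, one_mul, dg_sq])
      (by rw [Matrix.det_mul, dg_det, dg_det]; norm_num)
    have h2 := congrFun (congrFun h1 p) q
    unfold dg at h2
    rw [Matrix.diagonal_mul_diagonal, Matrix.diagonal_mul, Matrix.mul_diagonal] at h2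
    rw [if_pos rfl, if_neg (Ne.symm hap), if_neg (Ne.symm hpq), if_neg (Ne.symm haq)] at h2
    have h3 : (2 : ℂ) * s p q = 0 := by linear_combination -h2
    exact (mul_eq_zero.1 h3).resolve_left two_ne_zero
  have dia : ∀ p q : ι, s p p = s q q := by
    intro p q
    by_cases hpq : p = q
    · rw [hpq]
    obtain ⟨a, hap, haq⟩ := exists_third hc p q
    set P : Matrix ι ι ℂ := (Equiv.swap p q).permMatrix ℂ with hP
    have hPT : Pᵀ * P = 1 := by
      rw [hP, Matrix.transpose_permMatrix, ← Matrix.permMatrix_mul]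
      simp
    have hPd : P.det = -1 := by
      rw [hP, Matrix.det_permutation, Equiv.Perm.sign_swap hpq]
      simp
    have h1 := h (P * dg a) (by
      rw [Matrix.transpose_mul, dg_T, mul_assoc, ← mul_assoc Pᵀ, hPT, one_mul, dg_sq])
      (by rw [Matrix.det_mul, hPd, dg_det]; norm_num)
    have h2 := congrFun (congrFun h1 p) q
    have hPe : ∀ i j, P i j = if Equiv.swap p q i = j then 1 else 0 := by
      intro i j
      rw [hP]
      unfold Equiv.Perm.permMatrix
      rw [PEquiv.toMatrix_apply]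
      simp [Equiv.toPEquiv_apply, eq_comm]
    have e1 : (P * dg a * s) p q = s q q := by
      rw [Matrix.mul_assoc, Matrix.mul_apply, Finset.sum_eq_single q]
      · rw [hPe, Equiv.swap_apply_left, if_pos rfl, one_mul]
        unfold dg
        rw [Matrix.diagonal_mul, if_neg (Ne.symm haq), one_mul]
      · intro b _ hb
        rw [hPe, Equiv.swap_apply_left, if_neg (Ne.symm hb), zero_mul]
      · intro hq
        exact absurd (Finset.mem_univ q) hq
    have e2 : (s * (P * dg a)) p q = s p p := by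
      rw [Matrix.mul_apply, Finset.sum_eq_single p]
      · unfold dg
        rw [Matrix.mul_diagonal, if_neg (Ne.symm haq), mul_one, hPe, Equiv.swap_apply_left,
          if_pos rfl, mul_one]
      · intro b _ hb
        rw [off p b (Ne.symm hb), zero_mul]
      · intro hq
        exact absurd (Finset.mem_univ p) hq
    rw [e1, e2] at h2
    exact h2.symm
  have hne : Nonempty ι := by
    rw [← Fintype.card_pos_iff]
    omega
  obtain ⟨p⟩ := hne
  refine ⟨s p p, ?_⟩
  ext i j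
  rw [Matrix.smul_apply, smul_eq_mul]
  by_cases hij : i = j
  · subst hij; rw [Matrix.one_apply_eq, mul_one]; exact dia i p
  · rw [Matrix.one_apply_ne hij, mul_zero]; exact off i j hij

lemma comm_iso (hc : 3 ≤ Fintype.card ι) (Q : Matrix ι ι ℂ) (hQ : Q.transpose = Q)
    (hdet : Q.det ≠ 0) (s : Matrix ι ι ℂ)
    (h : ∀ a : Matrix ι ι ℂ, Iso Q a → a.det = 1 → a * s = s * a) :
    ∃ c : ℂ, s = c • (1 : Matrix ι ι ℂ) := by
  obtain ⟨M, hM, hMQ⟩ := EVD.ort_proof ι Q hQ hdet
  have hu : IsUnit M.det := isUnit_iff_ne_zero.2 hM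
  have m1 : M * M⁻¹ = 1 := Matrix.mul_nonsing_inv M hu
  have m2 : M⁻¹ * M = 1 := Matrix.nonsing_inv_mul M hu
  have hQe : Q = M⁻¹ᵀ * M⁻¹ := by
    have h1 : M⁻¹ᵀ * Mᵀ = 1 := by rw [← Matrix.transpose_mul, m1, Matrix.transpose_one]
    calc Q = (M⁻¹ᵀ * Mᵀ) * Q * (M * M⁻¹) := by rw [h1, m1, one_mul, mul_one]
      _ = M⁻¹ᵀ * (Mᵀ * Q * M) * M⁻¹ := by simp only [Matrix.mul_assoc]
      _ = M⁻¹ᵀ * M⁻¹ := by rw [hMQ, mul_one]
  obtain ⟨c, hcc⟩ := comm_one hc (M⁻¹ * s * M) (by
    intro a' h1 h2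
    have h3 := h (M * a' * M⁻¹) (by
      unfold Iso
      calc (M * a' * M⁻¹)ᵀ * Q * (M * a' * M⁻¹)
          = M⁻¹ᵀ * (a'ᵀ * (Mᵀ * Q * M) * a') * M⁻¹ := by
            simp only [Matrix.transpose_mul, Matrix.mul_assoc]
        _ = Q := by rw [hMQ, mul_one, h1, mul_one, ← hQe])
      (by
        rw [Matrix.det_mul, Matrix.det_mul, h2, mul_one, ← Matrix.det_mul, m1, Matrix.det_one])
    calc a' * (M⁻¹ * s * M) = M⁻¹ * ((M * a' * M⁻¹) * s) * M := by
          simp only [Matrix.mul_assoc]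
          rw [← Matrix.mul_assoc M⁻¹ M, m2, Matrix.one_mul]
      _ = M⁻¹ * (s * (M * a' * M⁻¹)) * M := by rw [h3]
      _ = (M⁻¹ * s * M) * a' := by
          simp only [Matrix.mul_assoc]
          rw [m2, Matrix.mul_one])
  refine ⟨c, ?_⟩
  calc s = (M * M⁻¹) * s * (M * M⁻¹) := by rw [m1, one_mul, mul_one]
    _ = M * (M⁻¹ * s * M) * M⁻¹ := by simp only [Matrix.mul_assoc]
    _ = c • (1 : Matrix ι ι ℂ) := by
        rw [hcc, Matrix.mul_smul, Matrix.smul_mul, mul_one, m1]

end comm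

variable {r : ℕ} {ι : Fin r → Type} [∀ i, Fintype (ι i)] [∀ i, DecidableEq (ι i)]

lemma at1_comp (i : Fin r) (M : Matrix (ι i) (ι i) ℂ) : (at1 i M : Pm ι).2 i = M := by
  show Function.update (1 : ∀ i, Matrix (ι i) (ι i) ℂ) i M i = M
  rw [Function.update_self]

lemma iso_one {κ : Type} [Fintype κ] [DecidableEq κ] (Q : Matrix κ κ ℂ) : Iso Q 1 := by
  unfold Iso; simp

lemma inO_at1 (Q : ∀ i, Matrix (ι i) (ι i) ℂ) (i : Fin r) {M : Matrix (ι i) (ι i) ℂ}
    (hM : Iso (Q i) M) (hd : M.det = 1) : InO Q (at1 i M) := by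
  refine ⟨one_ne_zero, fun j => ?_⟩
  show Iso (Q j) (Function.update (1 : ∀ i, Matrix (ι i) (ι i) ℂ) i M j) ∧
    (Function.update (1 : ∀ i, Matrix (ι i) (ι i) ℂ) i M j).det = 1
  by_cases h : j = i
  · subst h; rw [Function.update_self]; exact ⟨hM, hd⟩
  · rw [Function.update_of_ne h]
    exact ⟨iso_one _, Matrix.det_one⟩

lemma inO_one (Q : ∀ i, Matrix (ι i) (ι i) ℂ) : InO Q (1 : Pm ι) :=
  ⟨one_ne_zero, fun j => ⟨iso_one _, Matrix.det_one⟩⟩

/-- polynomials -/
abbrev Pol {r : ℕ} (ι : Fin r → Type) : Type := MvPolynomial (Option (Σ i, ι i × ι i)) ℂ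

/-- A coordinate. -/
def co (i : Fin r) (j k : ι i) : Pol ι := MvPolynomial.X (some ⟨i, (j, k)⟩)

omit [∀ i, Fintype (ι i)] [∀ i, DecidableEq (ι i)] in
lemma ev_co (i : Fin r) (j k : ι i) (a : Pm ι) : ev (co i j k) a = a.2 i j k := by
  unfold ev co; rw [MvPolynomial.eval_X]; rfl

omit [∀ i, Fintype (ι i)] [∀ i, DecidableEq (ι i)] in
lemma deg_co (i : Fin r) (j k : ι i) : (co i j k : Pol ι).totalDegree ≤ 1 := by
  unfold co; exact (MvPolynomial.totalDegree_X _).le

/-- An entry of `a_i s - t a_i`. -/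
def ent (i : Fin r) (s t : Matrix (ι i) (ι i) ℂ) (j k : ι i) : Pol ι :=
  ∑ l, (MvPolynomial.C (s l k) * co i j l - MvPolynomial.C (t j l) * co i l k)

omit [∀ i, DecidableEq (ι i)] in
lemma ev_ent (i : Fin r) (s t : Matrix (ι i) (ι i) ℂ) (j k : ι i) (a : Pm ι) :
    ev (ent i s t j k) a = (a.2 i * s) j k - (t * a.2 i) j k := by
  rw [Matrix.mul_apply, Matrix.mul_apply, ← Finset.sum_sub_distrib]
  unfold ent
  unfold ev
  rw [map_sum]
  refine Finset.sum_congr rfl fun l _ => ?_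
  have h1 := ev_co i j l a
  have h2 := ev_co i l k a
  unfold ev at h1 h2
  rw [map_sub, map_mul, map_mul, MvPolynomial.eval_C, MvPolynomial.eval_C, h1, h2]
  ring

omit [∀ i, DecidableEq (ι i)] in
lemma deg_ent (i : Fin r) (s t : Matrix (ι i) (ι i) ℂ) (j k : ι i) :
    (ent i s t j k).totalDegree ≤ 1 := by
  unfold ent
  refine (MvPolynomial.totalDegree_finsetSum _ _).trans ?_
  refine Finset.sup_le fun l _ => ?_
  refine (MvPolynomial.totalDegree_sub _ _).trans (max_le ?_ ?_)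
  · refine (MvPolynomial.totalDegree_mul _ _).trans ?_
    rw [MvPolynomial.totalDegree_C, zero_add]; exact deg_co _ _ _
  · refine (MvPolynomial.totalDegree_mul _ _).trans ?_
    rw [MvPolynomial.totalDegree_C, zero_add]; exact deg_co _ _ _

/-- irreducibility for finite products of polynomials in the components -/
lemma irr_prod [∀ i, Nonempty (ι i)] (hI : EVD.Stmt_Irx) (Q : ∀ i, Matrix (ι i) (ι i) ℂ)
    (hQ : ∀ i, (Q i).transpose = Q i ∧ (Q i).det ≠ 0) {κ : Type} (F : Finset κ) (P : κ → Pol ι)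
    (hP : ∀ t ∈ F, ∃ g : ∀ i, Matrix (ι i) (ι i) ℂ, (∀ i, Iso (Q i) (g i) ∧ (g i).det = 1) ∧
      ev (P t) ((1 : ℂ), g) ≠ 0) :
    ∃ g : ∀ i, Matrix (ι i) (ι i) ℂ, (∀ i, Iso (Q i) (g i) ∧ (g i).det = 1) ∧
      ev (∏ t ∈ F, P t) ((1 : ℂ), g) ≠ 0 := by
  classical
  induction F using Finset.induction_on with
  | empty =>
    refine ⟨1, fun i => ⟨iso_one _, Matrix.det_one⟩, ?_⟩
    rw [Finset.prod_empty]
    unfold ev
    rw [map_one]
    exact one_ne_zero
  | insert t F ht ih =>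
    have h1 := ih (fun t' ht' => hP t' (Finset.mem_insert_of_mem ht'))
    have h2 := hP t (Finset.mem_insert_self _ _)
    obtain ⟨g, hg, h3, h4⟩ := hI r ι Q hQ (∏ t ∈ F, P t) (P t) 1 (fun _ => 1)
      (by
        obtain ⟨g, hg, hne⟩ := h1
        refine ⟨g, hg, ?_⟩
        simp only [one_mul]
        exact hne)
      (by
        obtain ⟨g, hg, hne⟩ := h2
        refine ⟨g, hg, ?_⟩
        simp only [one_mul]
        exact hne)
    simp only [one_mul] at h3 h4
    refine ⟨g, hg, ?_⟩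
    rw [Finset.prod_insert ht]
    unfold ev
    rw [map_mul]
    exact mul_ne_zero h4 h3

end LSO_

open LSO_ in
theorem lso_proof (hJ : UBD.Stmt_JOR) (hI : EVD.Stmt_Irx) : Stmt_Lso := by
  intro r ι _ _ Q hcard hQ i₀
  have hne : ∀ i, Nonempty (ι i) := by
    intro i
    rw [← Fintype.card_pos_iff]
    have := hcard i
    omega
  obtain ⟨J, hJ⟩ := hJ (ι i₀)
  refine ⟨max J 1, ?_⟩
  intro H hG hfin hD
  set S : Set (Matrix (ι i₀) (ι i₀) ℂ) := {x | ∃ h ∈ H, h.2 i₀ = x} with hS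
  have hFinG : UBD.FinG S := by
    refine ⟨hfin, ⟨1, hG.one, rfl⟩, ?_, ?_⟩
    · rintro a ⟨x, hx, rfl⟩ b ⟨y, hy, rfl⟩
      exact ⟨x * y, hG.mul x hx y hy, rfl⟩
    · rintro a ⟨x, hx, rfl⟩
      obtain ⟨y, hy, h1, h2⟩ := hG.inv x hx
      refine ⟨y.2 i₀, ⟨y, hy, rfl⟩, ?_, ?_⟩
      · exact congrFun (congrArg Prod.snd h1) i₀
      · exact congrFun (congrArg Prod.snd h2) i₀
  have hc3 : 3 ≤ Fintype.card (ι i₀) := by
    have := hcard i₀
    omega
  by_cases hsc : ∃ s ∈ S, ∀ c : ℂ, s ≠ c • (1 : Matrix (ι i₀) (ι i₀) ℂ)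
  · obtain ⟨s, hs, hns, F, hF, hFt⟩ := hJ S hFinG hsc
    have key : ∀ t : Matrix (ι i₀) (ι i₀) ℂ, ∃ p : ι i₀ × ι i₀,
        ∃ g : ∀ i, Matrix (ι i) (ι i) ℂ, (∀ i, Iso (Q i) (g i) ∧ (g i).det = 1) ∧
          ev (ent i₀ s t p.1 p.2) ((1 : ℂ), g) ≠ 0 := by
      intro t
      by_contra hcon
      push Not at hcon
      have hz : ∀ g : ∀ i, Matrix (ι i) (ι i) ℂ, (∀ i, Iso (Q i) (g i) ∧ (g i).det = 1) →
          g i₀ * s = t * g i₀ := by
        intro g hg
        ext j k
        have h1 := hcon (j, k) g hg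
        rw [ev_ent] at h1
        exact sub_eq_zero.1 h1
      have h1 : s = t := by
        have h2 := hz 1 (fun i => ⟨iso_one _, Matrix.det_one⟩)
        rw [Pi.one_apply, one_mul, mul_one] at h2
        exact h2
      subst h1
      obtain ⟨c, hc⟩ := comm_iso hc3 (Q i₀) (hQ i₀).1 (hQ i₀).2 s (fun a ha hd => by
        have h2 := hz (at1 i₀ a : Pm ι).2 (inO_at1 Q i₀ ha hd).2
        rw [at1_comp] at h2
        exact h2)
      exact hns c hc
    choose p hp using key
    obtain ⟨g, hg, hPg⟩ := irr_prod hI Q hQ F (fun t => ent i₀ s t (p t).1 (p t).2)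
      (fun t _ => hp t)
    have hdeg : (∏ t ∈ F, ent i₀ s t (p t).1 (p t).2).totalDegree ≤ max J 1 := by
      refine (MvPolynomial.totalDegree_finsetProd _ _).trans ?_
      refine (Finset.sum_le_card_nsmul _ _ 1 fun j _ => deg_ent _ _ _ _ _).trans ?_
      rw [smul_eq_mul, mul_one]
      exact hF.trans (le_max_left _ _)
    have hv : ∀ h ∈ H, ev (∏ t ∈ F, ent i₀ s t (p t).1 (p t).2) h = 0 := by
      intro h hh
      obtain ⟨t, ht, hst⟩ := hFt (h.2 i₀) ⟨h, hh, rfl⟩
      have h1 : ev (ent i₀ s t (p t).1 (p t).2) h = 0 := by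
        rw [ev_ent, hst, sub_self]
      unfold ev at h1 ⊢
      rw [map_prod]
      exact Finset.prod_eq_zero ht h1
    exact hPg (hD _ hdeg hv ((1 : ℂ), g) ⟨one_ne_zero, hg⟩)
  · push Not at hsc
    -- every element is scalar at `i₀`
    have hall : ∀ a : Matrix (ι i₀) (ι i₀) ℂ, Iso (Q i₀) a → a.det = 1 →
        ∃ c : ℂ, a = c • (1 : Matrix (ι i₀) (ι i₀) ℂ) := by
      intro a ha hd
      have hoff : ∀ j k : ι i₀, j ≠ k → a j k = 0 := by
        intro j k hjk
        have hv : ∀ h ∈ H, ev (co i₀ j k) h = 0 := by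
          intro h hh
          obtain ⟨c, hc⟩ := hsc (h.2 i₀) ⟨h, hh, rfl⟩
          rw [ev_co, hc, Matrix.smul_apply, Matrix.one_apply_ne hjk, smul_zero]
        have h1 := hD _ ((deg_co _ _ _).trans (le_max_right _ _)) hv (at1 i₀ a)
          (inO_at1 Q i₀ ha hd)
        rw [ev_co, at1_comp] at h1
        exact h1
      have hdia : ∀ j k : ι i₀, a j j = a k k := by
        intro j k
        have hev : ∀ b : Pm ι, ev (co i₀ j j - co i₀ k k) b = b.2 i₀ j j - b.2 i₀ k k := by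
          intro b
          rw [← ev_co, ← ev_co]
          unfold ev
          rw [map_sub]
        have hv : ∀ h ∈ H, ev (co i₀ j j - co i₀ k k) h = 0 := by
          intro h hh
          obtain ⟨c, hc⟩ := hsc (h.2 i₀) ⟨h, hh, rfl⟩
          rw [hev, hc, Matrix.smul_apply, Matrix.smul_apply, Matrix.one_apply_eq,
            Matrix.one_apply_eq, sub_self]
        have hdeg : (co i₀ j j - co i₀ k k : Pol ι).totalDegree ≤ max J 1 :=
          (MvPolynomial.totalDegree_sub _ _).trans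
            ((max_le (deg_co _ _ _) (deg_co _ _ _)).trans (le_max_right _ _))
        have h1 := hD _ hdeg hv (at1 i₀ a) (inO_at1 Q i₀ ha hd)
        rw [hev, at1_comp] at h1
        exact sub_eq_zero.1 h1
      obtain ⟨q⟩ := hne i₀
      refine ⟨a q q, ?_⟩
      ext i j
      rw [Matrix.smul_apply, smul_eq_mul]
      by_cases hij : i = j
      · subst hij; rw [Matrix.one_apply_eq, mul_one]; exact hdia i q
      · rw [Matrix.one_apply_ne hij, mul_zero]; exact hoff i j hij
    obtain ⟨q⟩ := hne i₀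
    obtain ⟨q', hq', -⟩ := exists_third hc3 q q
    obtain ⟨c, hc⟩ := comm_iso hc3 (Q i₀) (hQ i₀).1 (hQ i₀).2 (Matrix.single q' q (1 : ℂ))
      (fun a ha hd => by
        obtain ⟨c, hc⟩ := hall a ha hd
        rw [hc, Matrix.smul_mul, Matrix.mul_smul, one_mul, mul_one])
    have h1 := congrFun (congrFun hc q') q
    rw [Matrix.single_apply_same, Matrix.smul_apply, Matrix.one_apply_ne hq', smul_zero] at h1
    exact one_ne_zero h1

end

end Pool.Agent.EVT
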