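import Pool.Agent.EVT.Stmts

set_option autoImplicit false

/-! # EVT: module RDO -/

open scoped BigOperators

namespace Pool.Agent.EVT

open Pool.Agent.EVD (Iso wed OSim pt cm Ix)

namespace RDO_

noncomputable section

variable {r : ℕ} {ι : Fin r → Type} [∀ i, Fintype (ι i)] [∀ i, DecidableEq (ι i)]

omit [∀ i, Fintype (ι i)] [∀ i, DecidableEq (ι i)] in
theorem ev_sub (P Q : MvPolynomial (Option (Σ i, ι i × ι i)) ℂ) (a : Pm ι) :
    ev (P - Q) a = ev P a - ev Q a := map_sub _ _ _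

omit [∀ i, Fintype (ι i)] [∀ i, DecidableEq (ι i)] in
theorem ev_X_some (i : Fin r) (j l : ι i) (a : Pm ι) :
    ev (MvPolynomial.X (some ⟨i, (j, l)⟩)) a = a.2 i j l := by
  simp [ev, pt]

omit [∀ i, Fintype (ι i)] [∀ i, DecidableEq (ι i)] in
theorem ev_X_none (a : Pm ι) : ev (MvPolynomial.X none) a = a.1 := by
  simp [ev, pt]

omit [∀ i, Fintype (ι i)] [∀ i, DecidableEq (ι i)] in
theorem ev_C (c : ℂ) (a : Pm ι) : ev (MvPolynomial.C c) a = c := by
  simp [ev]

/-- elements with components `1` in `T` -/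
def H2 (T : Set (Fin r)) (H : Set (Pm ι)) : Set (Pm ι) :=
  {h | h ∈ H ∧ ∀ i ∈ T, h.2 i = 1}

/-- elements of multiplier one -/
def H1 (H : Set (Pm ι)) : Set (Pm ι) := {h | h ∈ H ∧ h.1 = 1}

theorem grpO_H2 {Q : ∀ i, Matrix (ι i) (ι i) ℂ} {H : Set (Pm ι)} (hG : GrpO Q H)
    (T : Set (Fin r)) : GrpO Q (H2 T H) where
  sub := fun a ha => hG.sub a ha.1
  one := ⟨hG.one, fun i _ => rfl⟩
  mul := fun a ha b hb => ⟨hG.mul a ha.1 b hb.1, fun i hi => by
    show a.2 i * b.2 i = 1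
    rw [ha.2 i hi, hb.2 i hi, mul_one]⟩
  inv := fun a ha => by
    obtain ⟨b, hb, h1, h2⟩ := hG.inv a ha.1
    refine ⟨b, ⟨hb, fun i hi => ?_⟩, h1, h2⟩
    have e1 : a.2 i * b.2 i = 1 := congrFun (congrArg Prod.snd h1) i
    rwa [ha.2 i hi, one_mul] at e1
  closed := fun a haG hP => by
    refine ⟨hG.closed a haG (fun P h => hP P (fun x hx => h x hx.1)), fun i hi => ?_⟩
    ext j l
    have h := hP (MvPolynomial.X (some ⟨i, (j, l)⟩) -
      MvPolynomial.C ((1 : Matrix (ι i) (ι i) ℂ) j l)) (fun x hx => by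
      rw [ev_sub, ev_X_some, ev_C, hx.2 i hi, sub_self])
    rw [ev_sub, ev_X_some, ev_C] at h
    exact sub_eq_zero.1 h

theorem grpO_H1 {Q : ∀ i, Matrix (ι i) (ι i) ℂ} {H : Set (Pm ι)} (hG : GrpO Q H) :
    GrpO Q (H1 H) where
  sub := fun a ha => hG.sub a ha.1
  one := ⟨hG.one, rfl⟩
  mul := fun a ha b hb => ⟨hG.mul a ha.1 b hb.1, by
    show a.1 * b.1 = 1
    rw [ha.2, hb.2, mul_one]⟩
  inv := fun a ha => by
    obtain ⟨b, hb, h1, h2⟩ := hG.inv a ha.1
    have e1 : a.1 * b.1 = 1 := congrArg Prod.fst h1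
    rw [ha.2, one_mul] at e1
    exact ⟨b, ⟨hb, e1⟩, h1, h2⟩
  closed := fun a haG hP => by
    refine ⟨hG.closed a haG (fun P h => hP P (fun x hx => h x hx.1)), ?_⟩
    have h := hP (MvPolynomial.X none - MvPolynomial.C 1) (fun x hx => by
      rw [ev_sub, ev_X_none, ev_C, hx.2, sub_self])
    rw [ev_sub, ev_X_none, ev_C] at h
    exact sub_eq_zero.1 h

section exp

variable {n : Type} [Fintype n] [DecidableEq n]

attribute [local instance] Matrix.linftyOpNormedRing Matrix.linftyOpNormedAlgebra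

theorem eq_zero_of_exp (M : Matrix n n ℂ)
    (h : ∀ t : ℂ, NormedSpace.exp (t • M) = (1 : Matrix n n ℂ)) : M = 0 := by
  have h1 := hasDerivAt_exp_smul_const (𝕂 := ℂ) M (0 : ℂ)
  have h2 : HasDerivAt (fun _ : ℂ => (1 : Matrix n n ℂ)) (NormedSpace.exp ((0 : ℂ) • M) * M) 0 :=
    h1.congr_of_eventuallyEq (Filter.Eventually.of_forall fun u => (h u).symm)
  have h3 := h2.unique (hasDerivAt_const (0 : ℂ) (1 : Matrix n n ℂ))
  rwa [h 0, one_mul] at h3

end exp

theorem czero {x : ℂ} (h : ∀ t : ℂ, Complex.exp (t * x) = 1) : x = 0 := by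
  by_contra hx
  have h1 := h (1 / x)
  rw [one_div, inv_mul_cancel₀ hx] at h1
  have h2 := congrArg norm h1
  rw [Complex.norm_exp, norm_one, Complex.one_re, Real.exp_eq_one_iff] at h2
  exact one_ne_zero h2

/-- products of elements at different factors -/
theorem prod_mem {Q : ∀ i, Matrix (ι i) (ι i) ℂ} {H : Set (Pm ι)} (hG : GrpO Q H)
    (T : Set (Fin r)) (hT : ∀ i ∈ T, ∀ s, Iso (Q i) s → s.det = 1 → at1 i s ∈ H)
    (b : ∀ i, Matrix (ι i) (ι i) ℂ) (hb : ∀ i, Iso (Q i) (b i) ∧ (b i).det = 1)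
    (S : Finset (Fin r)) :
    (∀ i ∈ S, i ∈ T) → ((1, fun i => if i ∈ S then b i else 1) : Pm ι) ∈ H := by
  classical
  induction S using Finset.induction_on with
  | empty =>
    intro _
    have : ((1, fun i => if i ∈ (∅ : Finset (Fin r)) then b i else 1) : Pm ι) = 1 := by
      refine Prod.ext rfl (funext fun i => ?_)
      simp
    rw [this]
    exact hG.one
  | insert a S ha ih =>
    intro hS
    have h1 := ih (fun i hi => hS i (Finset.mem_insert_of_mem hi))
    have h2 := hT a (hS a (Finset.mem_insert_self a S)) (b a) (hb a).1 (hb a).2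
    have h3 := hG.mul _ h2 _ h1
    have : (at1 a (b a) * ((1, fun i => if i ∈ S then b i else 1) : Pm ι)) =
        ((1, fun i => if i ∈ insert a S then b i else 1) : Pm ι) := by
      refine Prod.ext ?_ (funext fun i => ?_)
      · show (1 : ℂ) * 1 = 1
        rw [mul_one]
      · show Function.update (1 : ∀ i, Matrix (ι i) (ι i) ℂ) a (b a) i *
          (if i ∈ S then b i else 1) = if i ∈ insert a S then b i else 1
        by_cases hi : i = a
        · subst hi
          rw [Function.update_self, if_neg ha, if_pos (Finset.mem_insert_self i S), mul_one]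
        · rw [Function.update_of_ne hi, Pi.one_apply, one_mul]
          by_cases hi' : i ∈ S
          · rw [if_pos hi', if_pos (Finset.mem_insert_of_mem hi')]
          · rw [if_neg hi', if_neg (by simp [hi, hi'])]
    rwa [this] at h3

end

end RDO_

open RDO_ in
theorem rdo_proof (h1 : Stmt_Lie) : Stmt_Rdo := by
  intro r ι _ _ Q hQ H hG hInf T hT hLie i₀ hi₀
  classical
  have g2 : GrpO Q (H2 T H) := grpO_H2 hG T
  have g1 : GrpO Q (H1 (H2 T H)) := grpO_H1 g2
  -- normalisation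
  have norm : ∀ h ∈ H, ∃ h' ∈ H2 T H, h'.1 = h.1 ∧ ∀ i, i ∉ T → h'.2 i = h.2 i := by
    intro h hh
    obtain ⟨b, hb, e1, e2⟩ := hG.inv h hh
    have e1' : ∀ i, h.2 i * b.2 i = 1 := fun i => congrFun (congrArg Prod.snd e1) i
    have hk := prod_mem hG T hT b.2 (hG.sub b hb).2 (Finset.univ.filter (· ∈ T)) (by
      intro i hi
      exact (Finset.mem_filter.1 hi).2)
    refine ⟨h * _, ⟨hG.mul h hh _ hk, ?_⟩, ?_, ?_⟩
    · intro i hi
      show h.2 i * (if i ∈ Finset.univ.filter (· ∈ T) then b.2 i else 1) = 1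
      rw [if_pos (by simp [hi]), e1' i]
    · show h.1 * 1 = h.1
      rw [mul_one]
    · intro i hi
      show h.2 i * (if i ∈ Finset.univ.filter (· ∈ T) then b.2 i else 1) = h.2 i
      rw [if_neg (by simp [hi]), mul_one]
  -- the Lie algebra of H2 is in the first component
  have lie0 : ∀ X ∈ LieO (H2 T H), X.2 = 0 := by
    intro X hX
    refine funext fun i => ?_
    by_cases hi : i ∈ T
    · apply eq_zero_of_exp
      intro t
      exact (hX t).2 i hi
    · exact hLie X (fun t => (hX t).1) i hi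
  have lie1 : ∀ X ∈ LieO (H1 (H2 T H)), X = 0 := fun X hX =>
    Prod.ext (czero fun t => (hX t).2) (lie0 X (fun t => (hX t).1))
  have fin1 : (H1 (H2 T H)).Finite := by
    by_contra hn
    obtain ⟨X, hX, hX0⟩ := (h1 r ι Q hQ _ g1).2.1 hn
    exact hX0 (lie1 X hX)
  have inf2 : ¬ (H2 T H).Finite := by
    intro hf
    apply hInf
    refine (hf.image Prod.fst).subset ?_
    rintro x ⟨h, hh, rfl⟩
    obtain ⟨h', hh', e1, -⟩ := norm h hh
    exact ⟨h', hh', e1⟩
  obtain ⟨X, hX, hX0⟩ := (h1 r ι Q hQ _ g2).2.1 inf2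
  have hX1 : X.1 ≠ 0 := fun h0 => hX0 (Prod.ext h0 (lie0 X hX))
  -- all (z, 1) are in H2
  have hz : ∀ z : ℂ, z ≠ 0 → ((z, 1) : Pm ι) ∈ H2 T H := by
    intro z hz
    have h3 := hX (Complex.log z / X.1)
    have h4 : ex (Complex.log z / X.1) X = ((z, 1) : Pm ι) := by
      refine Prod.ext ?_ (funext fun i => ?_)
      · show Complex.exp (Complex.log z / X.1 * X.1) = z
        rw [div_mul_cancel₀ _ hX1, Complex.exp_log hz]
      · show NormedSpace.exp ((Complex.log z / X.1) • X.2 i) = 1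
        rw [lie0 X hX, Pi.zero_apply, smul_zero, NormedSpace.exp_zero]
    rwa [h4] at h3
  refine (fin1.image fun k : Pm ι => k.2 i₀).subset ?_
  rintro x ⟨h, hh, rfl⟩
  obtain ⟨h', hh', e1, e2⟩ := norm h hh
  have hne : h.1 ≠ 0 := (hG.sub h hh).1
  refine ⟨((h.1)⁻¹, 1) * h', ⟨g2.mul _ (hz _ (inv_ne_zero hne)) _ hh', ?_⟩, ?_⟩
  · show (h.1)⁻¹ * h'.1 = 1
    rw [e1, inv_mul_cancel₀ hne]
  · show (1 : Matrix (ι i₀) (ι i₀) ℂ) * h'.2 i₀ = h.2 i₀
    rw [one_mul, e2 i₀ hi₀]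

end Pool.Agent.EVT
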