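import Pool.Agent.EVT.Stmts

set_option autoImplicit false

/-!
# EVT, module SCM: antisymmetric matrices commuting with the special orthogonal group
-/

open scoped BigOperators

namespace Pool.Agent.EVT

open Pool.Agent.EVD (Iso wed OSim pt cm Ix)

namespace SCM_

variable {ι : Type} [Fintype ι] [DecidableEq ι]

/-- the diagonal of signs, `-1` at `a` and `b` -/
def sg (a b : ι) (i : ι) : ℂ := if i = a ∨ i = b then -1 else 1

lemma sg_sq (a b i : ι) : sg a b i * sg a b i = 1 := by
  unfold sg
  split_ifs <;> norm_num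

lemma prod_sg (a b : ι) (hab : a ≠ b) : ∏ i, sg a b i = 1 := by
  have h : ∀ i, sg a b i = (if i = a then (-1 : ℂ) else 1) * (if i = b then (-1 : ℂ) else 1) := by
    intro i
    unfold sg
    by_cases h1 : i = a
    · subst h1
      simp [hab]
    · by_cases h2 : i = b
      · subst h2
        simp [h1]
      · simp [h1, h2]
  simp only [h, Finset.prod_mul_distrib]
  simp

lemma diag_iso (a b : ι) : Iso (1 : Matrix ι ι ℂ) (Matrix.diagonal (sg a b)) := by
  unfold Iso
  rw [Matrix.diagonal_transpose, mul_one, Matrix.diagonal_mul_diagonal]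
  rw [← Matrix.diagonal_one]
  congr 1
  funext i
  exact sg_sq a b i

/-- the case `Q = 1` -/
lemma case_one (h3 : 3 ≤ Fintype.card ι) (X : Matrix ι ι ℂ) (hX : X.transpose + X = 0)
    (hc : ∀ s : Matrix ι ι ℂ, Iso 1 s → s.det = 1 → s * X = X * s) : X = 0 := by
  ext a b
  by_cases hab : a = b
  · subst hab
    have h := congrFun (congrFun hX a) a
    simp only [Matrix.add_apply, Matrix.transpose_apply, Matrix.zero_apply] at h
    have : (2 : ℂ) * X a a = 0 := by linear_combination h
    simpa using this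
  · -- a third index
    obtain ⟨c, hc1⟩ : ∃ c : ι, c ∉ ({a, b} : Finset ι) := by
      by_contra h
      push Not at h
      have h1 : (Finset.univ : Finset ι) ⊆ {a, b} := fun i _ => h i
      have h2 := Finset.card_le_card h1
      have h4 : ({a, b} : Finset ι).card ≤ 2 := Finset.card_le_two
      rw [Finset.card_univ] at h2
      omega
    simp only [Finset.mem_insert, Finset.mem_singleton, not_or] at hc1
    have hac : a ≠ c := fun h => hc1.1 h.symm
    have h := hc (Matrix.diagonal (sg a c)) (diag_iso a c)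
      (by rw [Matrix.det_diagonal]; exact prod_sg a c hac)
    have h1 := congrFun (congrFun h a) b
    rw [Matrix.diagonal_mul, Matrix.mul_diagonal] at h1
    have e1 : sg a c a = -1 := by simp [sg]
    have e2 : sg a c b = 1 := by
      unfold sg
      rw [if_neg]
      rintro (h | h)
      · exact hab h.symm
      · exact hc1.2 h.symm
    rw [e1, e2] at h1
    have : (2 : ℂ) * X a b = 0 := by linear_combination -h1
    simpa using this

end SCM_

open SCM_

theorem scm_proof (hO : EVD.Stmt_Ort) : Stmt_Scm := by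
  intro ι _ _ Q h3 hQs hQd X hX hc
  obtain ⟨M, hM, hMQ⟩ := hO ι Q hQs hQd
  have hMu : IsUnit M.det := isUnit_iff_ne_zero.mpr hM
  have hMM : M * M⁻¹ = 1 := Matrix.mul_nonsing_inv M hMu
  have hMM' : M⁻¹ * M = 1 := Matrix.nonsing_inv_mul M hMu
  -- Q = M⁻ᵀ M⁻¹
  have hQ : Q = M⁻¹.transpose * M⁻¹ := by
    have h1 : M⁻¹.transpose * (M.transpose * Q * M) * M⁻¹ = M⁻¹.transpose * 1 * M⁻¹ := by
      rw [hMQ]
    have h2 : M⁻¹.transpose * M.transpose = 1 := by
      rw [← Matrix.transpose_mul, hMM, Matrix.transpose_one]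
    calc Q = (M⁻¹.transpose * M.transpose) * Q * (M * M⁻¹) := by rw [h2, hMM, one_mul, mul_one]
      _ = M⁻¹.transpose * (M.transpose * Q * M) * M⁻¹ := by simp only [mul_assoc]
      _ = M⁻¹.transpose * M⁻¹ := by rw [h1, mul_one]
  set Y : Matrix ι ι ℂ := M⁻¹ * X * M with hY
  have hXY : X = M * Y * M⁻¹ := by
    rw [hY]
    calc X = (M * M⁻¹) * X * (M * M⁻¹) := by rw [hMM, one_mul, mul_one]
      _ = M * (M⁻¹ * X * M) * M⁻¹ := by simp only [mul_assoc]
  have h0 : Y = 0 := by
    apply case_one h3
    · -- Yᵀ + Y = Mᵀ (Xᵀ Q + Q X) M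
      have hQM : Q * M = M⁻¹.transpose := by
        rw [hQ, mul_assoc, hMM', mul_one]
      have hMtQ : M.transpose * Q = M⁻¹ := by
        rw [hQ, ← mul_assoc, ← Matrix.transpose_mul, hMM', Matrix.transpose_one, one_mul]
      have h1 : M.transpose * (X.transpose * Q + Q * X) * M = 0 := by
        rw [hX, mul_zero, zero_mul]
      have h2 : M.transpose * (X.transpose * Q + Q * X) * M =
          M.transpose * X.transpose * (Q * M) + (M.transpose * Q) * X * M := by
        simp only [mul_add, add_mul, mul_assoc]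
      rw [h2, hQM, hMtQ] at h1
      rw [hY, Matrix.transpose_mul, Matrix.transpose_mul]
      rw [← mul_assoc]
      exact h1
    · intro s hs hsd
      have h1 : Iso Q (M * s * M⁻¹) := by
        unfold Iso at hs ⊢
        rw [mul_one] at hs
        rw [hQ, Matrix.transpose_mul, Matrix.transpose_mul]
        have e1 : M.transpose * M⁻¹.transpose = 1 := by
          rw [← Matrix.transpose_mul, hMM', Matrix.transpose_one]
        calc M⁻¹.transpose * (s.transpose * M.transpose) * (M⁻¹.transpose * M⁻¹) *
              (M * s * M⁻¹)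
            = M⁻¹.transpose * (s.transpose * (M.transpose * M⁻¹.transpose) *
                ((M⁻¹ * M) * s)) * M⁻¹ := by simp only [mul_assoc]
          _ = M⁻¹.transpose * (s.transpose * s) * M⁻¹ := by
              rw [e1, hMM', mul_one, one_mul]
          _ = M⁻¹.transpose * M⁻¹ := by rw [hs, mul_one]
      have h2 : (M * s * M⁻¹).det = 1 := by
        rw [Matrix.det_mul, Matrix.det_mul, hsd, mul_one, ← Matrix.det_mul, hMM, Matrix.det_one]
      have h4 := hc _ h1 h2
      have h5 : M⁻¹ * (M * s * M⁻¹ * X) * M = M⁻¹ * (X * (M * s * M⁻¹)) * M := by rw [h4]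
      calc s * Y = (M⁻¹ * M) * s * (M⁻¹ * X * M) := by rw [hMM', one_mul]
        _ = M⁻¹ * (M * s * M⁻¹ * X) * M := by simp only [mul_assoc]
        _ = M⁻¹ * (X * (M * s * M⁻¹)) * M := h5
        _ = (M⁻¹ * X * M) * s * (M⁻¹ * M) := by simp only [mul_assoc]
        _ = Y * s := by rw [hMM', mul_one]
  rw [hXY, h0, mul_zero, zero_mul]

end Pool.Agent.EVT
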