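import Pool.Agent.EVT.Stmts

set_option autoImplicit false

/-!
# EVT: the adjoint representation of the special orthogonal group is irreducible
-/

namespace Pool.Agent.EVT

open Matrix

namespace SOI_

variable {ι : Type} [Fintype ι] [DecidableEq ι]

/-- Conjugation by a diagonal matrix of signs. -/
theorem sgn (W : Submodule ℂ (Matrix ι ι ℂ))
    (hS : ∀ X ∈ W, ∀ s : Matrix ι ι ℂ, s.transpose * s = 1 → s.det = 1 →
      s * X * s.transpose ∈ W)
    (X : Matrix ι ι ℂ) (hX : X ∈ W) (ε : ι → ℂ) (hε : ∀ i, ε i * ε i = 1) (hp : ∏ i, ε i = 1) :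
    (Matrix.of fun i j => ε i * ε j * X i j) ∈ W := by
  have h := hS X hX (Matrix.diagonal ε) (by
    rw [Matrix.diagonal_transpose, Matrix.diagonal_mul_diagonal]
    have : (fun i => ε i * ε i) = fun _ => (1 : ℂ) := funext hε
    rw [this, Matrix.diagonal_one]) (by rw [Matrix.det_diagonal, hp])
  have e : (Matrix.diagonal ε * X * (Matrix.diagonal ε).transpose) =
      Matrix.of fun i j => ε i * ε j * X i j := by
    ext i j
    rw [Matrix.diagonal_transpose, Matrix.mul_diagonal, Matrix.diagonal_mul, Matrix.of_apply]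
    ring
  rw [← e]
  exact h

/-- The sign vector of a pair. -/
def ep (c d i : ι) : ℂ := if i = c ∨ i = d then -1 else 1

omit [Fintype ι] in
theorem ep_sq (c d i : ι) : ep c d i * ep c d i = 1 := by
  unfold ep; split_ifs <;> norm_num

theorem ep_prod (c d : ι) (h : c ≠ d) : ∏ i, ep c d i = 1 := by
  have e : (fun i => ep c d i) = fun i => (if i = c then (-1 : ℂ) else 1) *
      (if i = d then (-1 : ℂ) else 1) := by
    funext i
    unfold ep
    by_cases h1 : i = c
    · have h2 : i ≠ d := fun h3 => h (h1.symm.trans h3)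
      simp [h1, h]
    · by_cases h2 : i = d
      · simp [h2]
        intro h3
        exact absurd h3.symm h
      · simp [h1, h2]
  rw [e, Finset.prod_mul_distrib, Finset.prod_ite_eq', Finset.prod_ite_eq']
  simp

theorem step (W : Submodule ℂ (Matrix ι ι ℂ))
    (hS : ∀ X ∈ W, ∀ s : Matrix ι ι ℂ, s.transpose * s = 1 → s.det = 1 →
      s * X * s.transpose ∈ W)
    (X : Matrix ι ι ℂ) (hX : X ∈ W) (c d : ι) (h : c ≠ d) :
    (Matrix.of fun i j => (1 - ep c d i * ep c d j) * X i j) ∈ W := by
  have h1 := W.sub_mem hX (sgn W hS X hX (ep c d) (ep_sq c d) (ep_prod c d h))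
  have e : (X - Matrix.of fun i j => ep c d i * ep c d j * X i j) =
      Matrix.of fun i j => (1 - ep c d i * ep c d j) * X i j := by
    ext i j
    rw [Matrix.sub_apply, Matrix.of_apply, Matrix.of_apply]
    ring
  rw [← e]
  exact h1

/-- `E_ab - E_ba`. -/
def E (a b : ι) : Matrix ι ι ℂ :=
  Matrix.of fun i j => (if i = a ∧ j = b then 1 else 0) - (if i = b ∧ j = a then 1 else 0)

theorem four (W : Submodule ℂ (Matrix ι ι ℂ))
    (hA : ∀ X ∈ W, X.transpose + X = 0)
    (hS : ∀ X ∈ W, ∀ s : Matrix ι ι ℂ, s.transpose * s = 1 → s.det = 1 →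
      s * X * s.transpose ∈ W)
    (X : Matrix ι ι ℂ) (hX : X ∈ W) (a b c d e : ι) (hab : a ≠ b) (hac : a ≠ c) (had : a ≠ d)
    (hae : a ≠ e) (hbc : b ≠ c) (hbd : b ≠ d) (hbe : b ≠ e) (hcd : c ≠ d) (hce : c ≠ e)
    (hde : d ≠ e) (hne : X a b ≠ 0) : E a b ∈ W := by
  have h1 := step W hS X hX a c hac
  have h2 := step W hS _ h1 a d had
  have h3 := step W hS _ h2 a e hae
  have h4 := step W hS _ h3 b c hbc
  have hanti : X b a = - X a b := by
    have := congrFun (congrFun (hA X hX) a) b
    rw [Matrix.add_apply, Matrix.transpose_apply, Matrix.zero_apply] at this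
    exact eq_neg_of_add_eq_zero_left this
  have hE : E a b = (1 / (16 * X a b)) • (Matrix.of fun i j =>
      (1 - ep b c i * ep b c j) * ((Matrix.of fun i j => (1 - ep a e i * ep a e j) *
      ((Matrix.of fun i j => (1 - ep a d i * ep a d j) * ((Matrix.of fun i j =>
      (1 - ep a c i * ep a c j) * X i j) : Matrix ι ι ℂ) i j) : Matrix ι ι ℂ) i j) :
        Matrix ι ι ℂ) i j) := by
    ext i j
    rw [Matrix.smul_apply, smul_eq_mul]
    simp only [Matrix.of_apply, E]
    by_cases hi : i = a
    · by_cases hj : j = b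
      · subst hi hj
        have e1 : ep j c i = 1 := by simp [ep, hab, hac]
        have e2 : ep j c j = -1 := by simp [ep]
        have e3 : ep i e i = -1 := by simp [ep]
        have e4 : ep i e j = 1 := by simp [ep, hab.symm, hbe]
        have e5 : ep i d i = -1 := by simp [ep]
        have e6 : ep i d j = 1 := by simp [ep, hab.symm, hbd]
        have e7 : ep i c i = -1 := by simp [ep]
        have e8 : ep i c j = 1 := by simp [ep, hab.symm, hbc]
        rw [e1, e2, e3, e4, e5, e6, e7, e8]
        have : ¬ (i = j ∧ j = i) := fun h => hab h.1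
        rw [if_pos ⟨rfl, rfl⟩, if_neg this]
        field_simp
        norm_num
      · have hz : (1 - ep b c i * ep b c j) * ((1 - ep a e i * ep a e j) *
            ((1 - ep a d i * ep a d j) * ((1 - ep a c i * ep a c j)))) = 0 := by
          subst hi
          by_cases h5 : j = i
          · subst h5
            rw [ep_sq]; ring
          · by_cases h6 : j = c
            · subst h6
              have : ep i j i * ep i j j = 1 := by simp [ep]
              rw [this]; ring
            · have : ep b c i * ep b c j = 1 := by simp [ep, hab, hac, hj, h6]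
              rw [this]; ring
        have h7 : ¬ (i = a ∧ j = b) := fun h => hj h.2
        have h8 : ¬ (i = b ∧ j = a) := fun h => hab (hi.symm.trans h.1)
        rw [if_neg h7, if_neg h8]
        linear_combination (-(1 / (16 * X a b)) * X i j) * hz
    · by_cases hj : j = a
      · by_cases hib : i = b
        · subst hj hib
          have e1 : ep i c j = 1 := by simp [ep, hab, hac]
          have e2 : ep i c i = -1 := by simp [ep]
          have e3 : ep j e j = -1 := by simp [ep]
          have e4 : ep j e i = 1 := by simp [ep, hab.symm, hbe]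
          have e5 : ep j d j = -1 := by simp [ep]
          have e6 : ep j d i = 1 := by simp [ep, hab.symm, hbd]
          have e7 : ep j c j = -1 := by simp [ep]
          have e8 : ep j c i = 1 := by simp [ep, hab.symm, hbc]
          rw [e1, e2, e3, e4, e5, e6, e7, e8, hanti]
          have : ¬ (i = j ∧ j = i) := fun h => hi h.1
          rw [if_neg this, if_pos ⟨rfl, rfl⟩]
          field_simp
          norm_num
        · have hz : (1 - ep b c i * ep b c j) * ((1 - ep a e i * ep a e j) *
              ((1 - ep a d i * ep a d j) * ((1 - ep a c i * ep a c j)))) = 0 := by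
            subst hj
            by_cases h6 : i = c
            · subst h6
              have : ep j i i * ep j i j = 1 := by simp [ep]
              rw [this]; ring
            · have : ep b c i * ep b c j = 1 := by simp [ep, hab, hac, hib, h6]
              rw [this]; ring
          have h7 : ¬ (i = a ∧ j = b) := fun h => hi h.1
          have h8 : ¬ (i = b ∧ j = a) := fun h => hib h.1
          rw [if_neg h7, if_neg h8]
          linear_combination (-(1 / (16 * X a b)) * X i j) * hz
      · have hz : (1 - ep b c i * ep b c j) * ((1 - ep a e i * ep a e j) *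
            ((1 - ep a d i * ep a d j) * ((1 - ep a c i * ep a c j)))) = 0 := by
          by_cases h3 : i = c
          · subst h3
            by_cases h4 : j = d
            · subst h4
              have : ep a e i * ep a e j = 1 := by
                simp [ep, hac.symm, hce, had.symm, hde]
              rw [this]; ring
            · have : ep a d i * ep a d j = 1 := by
                simp [ep, hac.symm, hcd, hj, h4]
              rw [this]; ring
          · by_cases h4 : j = c
            · subst h4
              by_cases h5 : i = d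
              · subst h5
                have : ep a e i * ep a e j = 1 := by
                  simp [ep, hac.symm, hce, had.symm, hde]
                rw [this]; ring
              · have : ep a d i * ep a d j = 1 := by
                  simp [ep, hac.symm, hcd, hi, h5]
                rw [this]; ring
            · have : ep a c i * ep a c j = 1 := by
                simp [ep, hi, hj, h3, h4]
              rw [this]; ring
        have h7 : ¬ (i = a ∧ j = b) := fun h => hi h.1
        have h8 : ¬ (i = b ∧ j = a) := fun h => hj h.2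
        rw [if_neg h7, if_neg h8]
        linear_combination (-(1 / (16 * X a b)) * X i j) * hz
  rw [hE]
  exact W.smul_mem _ h4

/-- A signed permutation matrix. -/
theorem perm (W : Submodule ℂ (Matrix ι ι ℂ))
    (hS : ∀ X ∈ W, ∀ s : Matrix ι ι ℂ, s.transpose * s = 1 → s.det = 1 →
      s * X * s.transpose ∈ W)
    (hc : 3 ≤ Fintype.card ι) (a b c d : ι) (hab : a ≠ b) (hcd : c ≠ d) (h : E a b ∈ W) :
    E c d ∈ W := by
  obtain ⟨k, hk⟩ : ∃ k, k ∉ ({c, d} : Finset ι) := by
    by_contra hcon
    push Not at hcon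
    have : (Finset.univ : Finset ι) ⊆ {c, d} := fun k _ => hcon k
    have h1 := Finset.card_le_card this
    rw [Finset.card_univ] at h1
    have h2 := Finset.card_le_two (a := c) (b := d)
    omega
  have hkc : c ≠ k := fun h => hk (by simp [h])
  have hkd : d ≠ k := fun h => hk (by simp [h])
  let σ : Equiv.Perm ι := Equiv.swap (Equiv.swap a c b) d * Equiv.swap a c
  have hσa : σ a = c := by
    show Equiv.swap (Equiv.swap a c b) d (Equiv.swap a c a) = c
    rw [Equiv.swap_apply_left]
    apply Equiv.swap_apply_of_ne_of_ne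
    · intro h1
      have h2 : Equiv.swap a c a = Equiv.swap a c b := by rw [Equiv.swap_apply_left]; exact h1
      exact hab ((Equiv.swap a c).injective h2)
    · exact hcd
  have hσb : σ b = d := by
    show Equiv.swap (Equiv.swap a c b) d (Equiv.swap a c b) = d
    rw [Equiv.swap_apply_left]
  -- `P = permMatrix of σ⁻¹`
  let τ : Equiv.Perm ι := σ⁻¹
  have hτ : ∀ i x, τ i = x ↔ i = σ x := fun i x => by
    show σ⁻¹ i = x ↔ i = σ x
    rw [Equiv.Perm.inv_eq_iff_eq]
  let ε : ι → ℂ := fun i => if i = k then ((Equiv.Perm.sign τ : ℤˣ) : ℤ) else 1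
  have hε : ∀ i, ε i * ε i = 1 := by
    intro i
    show (if i = k then (((Equiv.Perm.sign τ : ℤˣ) : ℤ) : ℂ) else 1) *
      (if i = k then (((Equiv.Perm.sign τ : ℤˣ) : ℤ) : ℂ) else 1) = 1
    split_ifs
    · rcases Int.units_eq_one_or (Equiv.Perm.sign τ) with h1 | h1 <;> rw [h1] <;> norm_num
    · norm_num
  have hεc : ε c = 1 := if_neg hkc
  have hεd : ε d = 1 := if_neg hkd
  let P : Matrix ι ι ℂ := Equiv.Perm.permMatrix ℂ τ
  let s : Matrix ι ι ℂ := Matrix.diagonal ε * P
  have hPap : ∀ i j, P i j = if τ i = j then 1 else 0 := by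
    intro i j
    show Equiv.Perm.permMatrix ℂ τ i j = _
    rw [Equiv.Perm.permMatrix, PEquiv.toMatrix_apply]
    simp [Equiv.toPEquiv]
  have hsap : ∀ i j, s i j = if τ i = j then ε i else 0 := by
    intro i j
    show (Matrix.diagonal ε * P) i j = _
    rw [Matrix.diagonal_mul, hPap]
    split_ifs <;> simp
  have hss : s * s.transpose = 1 := by
    ext i j
    rw [Matrix.mul_apply]
    simp only [Matrix.transpose_apply, hsap]
    rw [Finset.sum_eq_single (τ i)]
    · rw [if_pos rfl, Matrix.one_apply]
      by_cases hij : i = j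
      · subst hij; rw [if_pos rfl, if_pos rfl]; exact hε i
      · have : ¬ τ j = τ i := fun h => hij (τ.injective h).symm
        rw [if_neg this, if_neg hij, mul_zero]
    · intro x _ hx
      rw [if_neg (fun h => hx h.symm), zero_mul]
    · intro h; exact absurd (Finset.mem_univ _) h
  have hst : s.transpose * s = 1 := mul_eq_one_comm.1 hss
  have hdet : s.det = 1 := by
    show (Matrix.diagonal ε * P).det = 1
    rw [Matrix.det_mul, Matrix.det_diagonal, Matrix.det_permutation]
    show (∏ i, (if i = k then (((Equiv.Perm.sign τ : ℤˣ) : ℤ) : ℂ) else 1)) * _ = 1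
    rw [Finset.prod_ite_eq']
    rw [if_pos (Finset.mem_univ _)]
    rcases Int.units_eq_one_or (Equiv.Perm.sign τ) with h1 | h1 <;> rw [h1] <;> norm_num
  have h1 := hS _ h s hst hdet
  have e1 : s * E a b * s.transpose = E c d := by
    ext i j
    have e2 : (s * E a b * s.transpose) i j = ε i * ε j * E a b (τ i) (τ j) := by
      rw [Matrix.mul_apply]
      simp only [Matrix.transpose_apply, hsap]
      rw [Finset.sum_eq_single (τ j)]
      · rw [if_pos rfl, Matrix.mul_apply]
        simp only [hsap]
        rw [Finset.sum_eq_single (τ i)]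
        · rw [if_pos rfl]; ring
        · intro x _ hx
          rw [if_neg (fun h => hx h.symm), zero_mul]
        · intro h; exact absurd (Finset.mem_univ _) h
      · intro x _ hx
        rw [if_neg (fun h => hx h.symm), mul_zero]
      · intro h; exact absurd (Finset.mem_univ _) h
    rw [e2]
    show ε i * ε j * ((if τ i = a ∧ τ j = b then 1 else 0) -
      (if τ i = b ∧ τ j = a then 1 else 0)) = (if i = c ∧ j = d then 1 else 0) -
      (if i = d ∧ j = c then 1 else 0)
    simp only [hτ, hσa, hσb]
    by_cases h2 : i = c ∧ j = d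
    · rw [if_pos h2, h2.1, h2.2, hεc, hεd]; ring
    · by_cases h3 : i = d ∧ j = c
      · rw [if_neg h2, if_pos h3, h3.1, h3.2, hεc, hεd]; ring
      · rw [if_neg h2, if_neg h3]; ring
  rw [← e1]
  exact h1

theorem core (hc : 5 ≤ Fintype.card ι) (W : Submodule ℂ (Matrix ι ι ℂ))
    (hA : ∀ X ∈ W, X.transpose + X = 0)
    (hS : ∀ X ∈ W, ∀ s : Matrix ι ι ℂ, s.transpose * s = 1 → s.det = 1 →
      s * X * s.transpose ∈ W) (hne : ∃ X ∈ W, X ≠ 0) (u w : ι → ℂ) :
    Matrix.vecMulVec u w - Matrix.vecMulVec w u ∈ W := by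
  obtain ⟨X, hX, hX0⟩ := hne
  obtain ⟨a, b, hab0⟩ : ∃ a b, X a b ≠ 0 := by
    by_contra hcon
    push Not at hcon
    exact hX0 (by ext i j; exact hcon i j)
  have hab : a ≠ b := by
    intro h
    subst h
    have := congrFun (congrFun (hA X hX) a) a
    rw [Matrix.add_apply, Matrix.transpose_apply, Matrix.zero_apply] at this
    apply hab0
    have h2 : (2 : ℂ) * X a a = 0 := by rw [two_mul]; exact this
    rcases mul_eq_zero.1 h2 with h3 | h3
    · exact absurd h3 two_ne_zero
    · exact h3
  have hcard : 2 < (Finset.univ \ ({a, b} : Finset ι)).card := by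
    rw [Finset.card_sdiff_of_subset (Finset.subset_univ _), Finset.card_univ,
      Finset.card_pair hab]
    omega
  obtain ⟨c, hc1, d, hd1, e, he1, hcd, hce, hde⟩ := Finset.two_lt_card.1 hcard
  simp only [Finset.mem_sdiff, Finset.mem_univ, true_and, Finset.mem_insert,
    Finset.mem_singleton, not_or] at hc1 hd1 he1
  have hE := four W hA hS X hX a b c d e hab (Ne.symm hc1.1) (Ne.symm hd1.1) (Ne.symm he1.1)
    (Ne.symm hc1.2) (Ne.symm hd1.2) (Ne.symm he1.2) hcd hce hde hab0
  have hall : ∀ x y, E x y ∈ W := by
    intro x y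
    by_cases hxy : x = y
    · subst hxy
      have : E x x = (0 : Matrix ι ι ℂ) := by
        ext i j
        simp [E]
      rw [this]
      exact W.zero_mem
    · exact perm W hS (by omega) a b x y hab hxy hE
  have e1 : Matrix.vecMulVec u w - Matrix.vecMulVec w u = ∑ x, ∑ y, (u x * w y) • E x y := by
    ext i j
    rw [Matrix.sub_apply, Matrix.vecMulVec_apply, Matrix.vecMulVec_apply, Matrix.sum_apply]
    simp only [Matrix.sum_apply, Matrix.smul_apply, smul_eq_mul, E, Matrix.of_apply, mul_sub,
      Finset.sum_sub_distrib]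
    have e2 : ∑ x, ∑ y, u x * w y * (if i = x ∧ j = y then (1 : ℂ) else 0) = u i * w j := by
      rw [Finset.sum_eq_single i, Finset.sum_eq_single j]
      · simp
      · intro y _ hy
        rw [if_neg (fun h => hy h.2.symm), mul_zero]
      · intro h; exact absurd (Finset.mem_univ _) h
      · intro x _ hx
        apply Finset.sum_eq_zero
        intro y _
        rw [if_neg (fun h => hx h.1.symm), mul_zero]
      · intro h; exact absurd (Finset.mem_univ _) h
    have e3 : ∑ x, ∑ y, u x * w y * (if i = y ∧ j = x then (1 : ℂ) else 0) = u j * w i := by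
      rw [Finset.sum_eq_single j, Finset.sum_eq_single i]
      · simp
      · intro y _ hy
        rw [if_neg (fun h => hy h.1.symm), mul_zero]
      · intro h; exact absurd (Finset.mem_univ _) h
      · intro x _ hx
        apply Finset.sum_eq_zero
        intro y _
        rw [if_neg (fun h => hx h.2.symm), mul_zero]
      · intro h; exact absurd (Finset.mem_univ _) h
    rw [e2, e3]
    ring
  rw [e1]
  exact W.sum_mem fun x _ => W.sum_mem fun y _ => W.smul_mem _ (hall x y)

end SOI_

theorem soi_proof (hOrt : EVD.Stmt_Ort) : Stmt_Soi := by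
  intro ι _ _ Q hc hQ hdet W hW hA hS hne u w
  obtain ⟨M, hM, hMQ⟩ := hOrt ι Q hQ hdet
  have hMu : IsUnit M.det := isUnit_iff_ne_zero.2 hM
  have hMM : M * M⁻¹ = 1 := Matrix.mul_nonsing_inv M hMu
  have hMM' : M⁻¹ * M = 1 := Matrix.nonsing_inv_mul M hMu
  -- `Q = M⁻¹ᵀ M⁻¹`
  have hQM : Q * M = (M⁻¹).transpose := by
    have h1 : (M⁻¹).transpose * (M.transpose * Q * M) = (M⁻¹).transpose := by
      rw [hMQ, Matrix.mul_one]
    rw [← h1]
    have h2 : (M⁻¹).transpose * M.transpose = 1 := by
      rw [← Matrix.transpose_mul, hMM, Matrix.transpose_one]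
    calc Q * M = 1 * (Q * M) := by rw [Matrix.one_mul]
      _ = ((M⁻¹).transpose * M.transpose) * (Q * M) := by rw [h2]
      _ = _ := by simp only [Matrix.mul_assoc]
  have h0 : (0 : Matrix ι ι ℂ) ∈ W := by
    obtain ⟨X, hX, _⟩ := hne
    have := hW X hX X hX (-1)
    rwa [neg_one_smul, add_neg_cancel] at this
  let V : Submodule ℂ (Matrix ι ι ℂ) :=
    { carrier := {Y | M * Y * M⁻¹ ∈ W}
      zero_mem' := by
        show M * 0 * M⁻¹ ∈ W
        rw [Matrix.mul_zero, Matrix.zero_mul]; exact h0
      add_mem' := by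
        intro X Y hX hY
        show M * (X + Y) * M⁻¹ ∈ W
        have := hW _ hX _ hY 1
        rw [one_smul] at this
        rw [Matrix.mul_add, Matrix.add_mul]
        exact this
      smul_mem' := by
        intro c X hX
        show M * (c • X) * M⁻¹ ∈ W
        have := hW _ h0 _ hX c
        rw [zero_add] at this
        rw [Matrix.mul_smul, Matrix.smul_mul]
        exact this }
  have hV : ∀ Y, Y ∈ V ↔ M * Y * M⁻¹ ∈ W := fun Y => Iff.rfl
  have hback : ∀ X : Matrix ι ι ℂ, M * (M⁻¹ * X * M) * M⁻¹ = X := by
    intro X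
    calc M * (M⁻¹ * X * M) * M⁻¹ = (M * M⁻¹) * X * (M * M⁻¹) := by
          simp only [Matrix.mul_assoc]
      _ = X := by rw [hMM, Matrix.one_mul, Matrix.mul_one]
  have key := SOI_.core hc V ?_ ?_ ?_ (M⁻¹.mulVec u) (M⁻¹.mulVec w)
  · rw [hV] at key
    have hvw : ∀ x y : ι → ℂ, M * Matrix.vecMulVec (M⁻¹.mulVec x) (M⁻¹.mulVec y) * M⁻¹ =
        Matrix.vecMulVec x (Q.mulVec y) := by
      intro x y
      rw [Matrix.mul_vecMulVec, Matrix.vecMulVec_mul, Matrix.mulVec_mulVec, hMM,
        Matrix.one_mulVec, ← Matrix.mulVec_transpose, ← hQM, Matrix.mulVec_mulVec]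
      rw [Matrix.mul_assoc, hMM, Matrix.mul_one]
    have e : EVD.wed Q u w = M * (Matrix.vecMulVec (M⁻¹.mulVec u) (M⁻¹.mulVec w) -
        Matrix.vecMulVec (M⁻¹.mulVec w) (M⁻¹.mulVec u)) * M⁻¹ := by
      rw [Matrix.mul_sub, Matrix.sub_mul, hvw, hvw]
      rfl
    rw [e]
    exact key
  · intro Y hY
    have h1 := hA _ ((hV Y).1 hY)
    have h2 : M.transpose * ((M * Y * M⁻¹).transpose * Q + Q * (M * Y * M⁻¹)) * M = 0 := by
      rw [h1, Matrix.mul_zero, Matrix.zero_mul]
    rw [← h2]
    rw [Matrix.transpose_mul, Matrix.transpose_mul, Matrix.mul_add, Matrix.add_mul]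
    have e1 : M.transpose * ((M⁻¹).transpose * (Y.transpose * M.transpose) * Q) * M =
        Y.transpose := by
      calc M.transpose * ((M⁻¹).transpose * (Y.transpose * M.transpose) * Q) * M
          = (M.transpose * (M⁻¹).transpose) * Y.transpose * (M.transpose * Q * M) := by
            simp only [Matrix.mul_assoc]
        _ = Y.transpose := by
            rw [hMQ, ← Matrix.transpose_mul, hMM', Matrix.transpose_one, Matrix.one_mul,
              Matrix.mul_one]
    have e2 : M.transpose * (Q * (M * Y * M⁻¹)) * M = Y := by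
      calc M.transpose * (Q * (M * Y * M⁻¹)) * M = (M.transpose * Q * M) * Y * (M⁻¹ * M) := by
            simp only [Matrix.mul_assoc]
        _ = Y := by rw [hMQ, hMM', Matrix.one_mul, Matrix.mul_one]
    rw [e1, e2]
  · intro Y hY s hs hsd
    rw [hV]
    have h1 := hS _ ((hV Y).1 hY) (M * s * M⁻¹) ?_ ?_
    · have hsi : s⁻¹ = s.transpose := Matrix.inv_eq_left_inv hs
      have e1 : (M * s * M⁻¹)⁻¹ = M * s.transpose * M⁻¹ := by
        apply Matrix.inv_eq_left_inv
        calc M * s.transpose * M⁻¹ * (M * s * M⁻¹)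
            = M * s.transpose * (M⁻¹ * M) * s * M⁻¹ := by simp only [Matrix.mul_assoc]
          _ = M * (s.transpose * s) * M⁻¹ := by
              rw [hMM', Matrix.mul_one]; simp only [Matrix.mul_assoc]
          _ = 1 := by rw [hs, Matrix.mul_one, hMM]
      rw [e1] at h1
      have e2 : M * s * M⁻¹ * (M * Y * M⁻¹) * (M * s.transpose * M⁻¹) =
          M * (s * Y * s.transpose) * M⁻¹ := by
        calc M * s * M⁻¹ * (M * Y * M⁻¹) * (M * s.transpose * M⁻¹)
            = M * s * (M⁻¹ * M) * Y * (M⁻¹ * M) * s.transpose * M⁻¹ := by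
              simp only [Matrix.mul_assoc]
          _ = _ := by rw [hMM', Matrix.mul_one, Matrix.mul_one]; simp only [Matrix.mul_assoc]
      rw [e2] at h1
      exact h1
    · show (M * s * M⁻¹).transpose * Q * (M * s * M⁻¹) = Q
      have e3 : Q = (M⁻¹).transpose * M⁻¹ := by
        rw [← hQM, Matrix.mul_assoc, hMM, Matrix.mul_one]
      rw [Matrix.transpose_mul, Matrix.transpose_mul]
      calc (M⁻¹).transpose * (s.transpose * M.transpose) * Q * (M * s * M⁻¹)
          = (M⁻¹).transpose * s.transpose * (M.transpose * Q * M) * s * M⁻¹ := by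
            simp only [Matrix.mul_assoc]
        _ = (M⁻¹).transpose * (s.transpose * s) * M⁻¹ := by
            rw [hMQ, Matrix.mul_one]; simp only [Matrix.mul_assoc]
        _ = Q := by rw [hs, Matrix.mul_one, ← e3]
    · rw [Matrix.det_mul, Matrix.det_mul, hsd, mul_one, ← Matrix.det_mul, hMM, Matrix.det_one]
  · obtain ⟨X, hX, hX0⟩ := hne
    refine ⟨M⁻¹ * X * M, ?_, ?_⟩
    · rw [hV, hback]; exact hX
    · intro h1
      apply hX0
      rw [← hback X, h1, Matrix.mul_zero, Matrix.zero_mul]

end Pool.Agent.EVT
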