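import Pool.Agent.EVT.Stmts
import Pool.Agent.DRD.Desc

set_option autoImplicit false

/-!
# TRO: no proper subtorsor over `L`, from relations of bounded degree and the uniform bound
-/

open scoped BigOperators

namespace Pool.Agent.EVT

open Pool.Agent.EVD (Iso wed OSim pt cm Ix)
open Pool.Agent.DRD (GalL descL)

noncomputable section

namespace TRO_

section one

variable {κ : Type} [Fintype κ] [DecidableEq κ]

lemma osim_iff (w : ℕ) (Q : Matrix κ κ ℚ) (mu : ℂ) (g : Matrix κ κ ℂ) :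
    OSim (2 * w) Q mu g ↔ g.transpose * cm Q * g = mu ^ (2 * w) • cm Q ∧
      g.det = mu ^ (w * Fintype.card κ) := by
  unfold OSim cm
  rw [Nat.mul_div_cancel_left w (by norm_num : 0 < 2)]

lemma osim_of_iso (w : ℕ) (Q : Matrix κ κ ℚ) (mu : ℂ) (s : Matrix κ κ ℂ)
    (h : Iso (cm Q) s) (hd : s.det = 1) : OSim (2 * w) Q mu (mu ^ w • s) := by
  rw [osim_iff]
  constructor
  · rw [Matrix.transpose_smul, Matrix.smul_mul, Matrix.smul_mul, Matrix.mul_smul, smul_smul]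
    unfold Iso at h
    rw [h, ← pow_add, two_mul]
  · rw [Matrix.det_smul, hd, mul_one, ← pow_mul]

lemma iso_of_osim (w : ℕ) (Q : Matrix κ κ ℚ) (mu : ℂ) (hmu : mu ≠ 0) (g : Matrix κ κ ℂ)
    (h : OSim (2 * w) Q mu g) :
    Iso (cm Q) ((mu ^ w)⁻¹ • g) ∧ ((mu ^ w)⁻¹ • g).det = 1 := by
  rw [osim_iff] at h
  have h0 : mu ^ w ≠ 0 := pow_ne_zero _ hmu
  constructor
  · unfold Iso
    rw [Matrix.transpose_smul, Matrix.smul_mul, Matrix.smul_mul, Matrix.mul_smul, smul_smul, h.1,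
      smul_smul, two_mul, pow_add]
    have : (mu ^ w)⁻¹ * (mu ^ w)⁻¹ * (mu ^ w * mu ^ w) = 1 := by
      field_simp
    rw [this, one_smul]
  · rw [Matrix.det_smul, h.2, pow_mul, inv_pow]
    exact inv_mul_cancel₀ (pow_ne_zero _ h0)

lemma iso_inv (Q s t : Matrix κ κ ℂ) (h : Iso Q s) (hst : s * t = 1) : Iso Q t := by
  unfold Iso at *
  calc t.transpose * Q * t = t.transpose * (s.transpose * Q * s) * t := by rw [h]
    _ = (s * t).transpose * Q * (s * t) := by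
      rw [Matrix.transpose_mul]
      simp only [Matrix.mul_assoc]
    _ = Q := by rw [hst, Matrix.transpose_one, Matrix.one_mul, Matrix.mul_one]

lemma iso_mul (Q s t : Matrix κ κ ℂ) (h : Iso Q s) (ht : Iso Q t) : Iso Q (s * t) := by
  unfold Iso at *
  calc (s * t).transpose * Q * (s * t) = t.transpose * (s.transpose * Q * s) * t := by
        rw [Matrix.transpose_mul]
        simp only [Matrix.mul_assoc]
    _ = Q := by rw [h, ht]

end one

variable {r : ℕ} {ι : Fin r → Type} [∀ i, Fintype (ι i)] [∀ i, DecidableEq (ι i)]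

/-- The coordinates. -/
abbrev Cr (ι : Fin r → Type) : Type := Option (Σ i, ι i × ι i)

/-- The substitution `(mu, s) ↦ (mu lam, M (mu^w s))`. -/
def th (w : Fin r → ℕ) (M : ∀ i, Matrix (ι i) (ι i) ℂ) (lam : ℂ) :
    Cr ι → MvPolynomial (Cr ι) ℂ
  | none => MvPolynomial.X none * MvPolynomial.C lam
  | some p => MvPolynomial.X none ^ w p.1 *
      ∑ k, MvPolynomial.C (M p.1 p.2.1 k) * MvPolynomial.X (some ⟨p.1, (k, p.2.2)⟩)

lemma eval_th (w : Fin r → ℕ) (M : ∀ i, Matrix (ι i) (ι i) ℂ) (lam : ℂ) (a : Pm ι)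
    (o : Cr ι) : MvPolynomial.eval (pt a.1 a.2) (th w M lam o) =
      pt (a.1 * lam) (fun i => M i * (a.1 ^ w i • a.2 i)) o := by
  cases o with
  | none =>
    rw [th, map_mul, MvPolynomial.eval_C, MvPolynomial.eval_X]
    rfl
  | some p =>
    have h : pt (a.1 * lam) (fun i => M i * (a.1 ^ w i • a.2 i)) (some p) =
        a.1 ^ w p.1 * ∑ k, M p.1 p.2.1 k * a.2 p.1 k p.2.2 := by
      change (M p.1 * (a.1 ^ w p.1 • a.2 p.1)) p.2.1 p.2.2 = _
      rw [Matrix.mul_smul, Matrix.smul_apply, Matrix.mul_apply, smul_eq_mul]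
    rw [h, th, map_mul, map_pow, MvPolynomial.eval_X, map_sum]
    congr 1
    refine Finset.sum_congr rfl fun l _ => ?_
    rw [map_mul, MvPolynomial.eval_C, MvPolynomial.eval_X]
    rfl

lemma ev_th (w : Fin r → ℕ) (M : ∀ i, Matrix (ι i) (ι i) ℂ) (lam : ℂ)
    (P : MvPolynomial (Cr ι) ℂ) (a : Pm ι) :
    ev (MvPolynomial.bind₁ (th w M lam) P) a =
      MvPolynomial.eval (pt (a.1 * lam) (fun i => M i * (a.1 ^ w i • a.2 i))) P := by
  unfold ev
  change MvPolynomial.eval₂Hom (RingHom.id ℂ) (pt a.1 a.2) (MvPolynomial.bind₁ _ P) = _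
  rw [MvPolynomial.eval₂Hom_bind₁]
  exact congrArg (fun f => MvPolynomial.eval f P) (funext (eval_th w M lam a))

/-- The numerators of the inverse substitution. -/
def nn (w : Fin r → ℕ) (M' : ∀ i, Matrix (ι i) (ι i) ℂ) (lam : ℂ) :
    Cr ι → MvPolynomial (Cr ι) ℂ
  | none => MvPolynomial.C lam⁻¹ * MvPolynomial.X none
  | some p => MvPolynomial.C (lam ^ w p.1) *
      ∑ k, MvPolynomial.C (M' p.1 p.2.1 k) * MvPolynomial.X (some ⟨p.1, (k, p.2.2)⟩)

/-- The exponents of the denominators. -/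
def we (w : Fin r → ℕ) : Cr ι → ℕ
  | none => 0
  | some p => w p.1

lemma we_le (w : Fin r → ℕ) (o : Cr ι) : we w o ≤ ∑ i, w i := by
  cases o with
  | none => exact Nat.zero_le _
  | some p => exact Finset.single_le_sum (f := w) (fun _ _ => Nat.zero_le _) (Finset.mem_univ p.1)

lemma eval_nn (w : Fin r → ℕ) (M' : ∀ i, Matrix (ι i) (ι i) ℂ) (lam : ℂ) (hlam : lam ≠ 0)
    (z : ℂ) (hz : z ≠ 0) (x : ∀ i, Matrix (ι i) (ι i) ℂ) (o : Cr ι) :
    MvPolynomial.eval (pt z x) (nn w M' lam o) =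
      z ^ we w o * pt (z * lam⁻¹) (fun i => ((z * lam⁻¹) ^ w i)⁻¹ • (M' i * x i)) o := by
  cases o with
  | none =>
    rw [nn, map_mul, MvPolynomial.eval_C, MvPolynomial.eval_X]
    change lam⁻¹ * z = z ^ 0 * (z * lam⁻¹)
    ring
  | some p =>
    have h : pt (z * lam⁻¹) (fun i => ((z * lam⁻¹) ^ w i)⁻¹ • (M' i * x i)) (some p) =
        ((z * lam⁻¹) ^ w p.1)⁻¹ * ∑ k, M' p.1 p.2.1 k * x p.1 k p.2.2 := by
      change (((z * lam⁻¹) ^ w p.1)⁻¹ • (M' p.1 * x p.1)) p.2.1 p.2.2 = _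
      rw [Matrix.smul_apply, Matrix.mul_apply, smul_eq_mul]
    have h2 : z ^ we w (some p) * ((z * lam⁻¹) ^ w p.1)⁻¹ = lam ^ w p.1 := by
      change z ^ w p.1 * ((z * lam⁻¹) ^ w p.1)⁻¹ = lam ^ w p.1
      rw [mul_pow, inv_pow]
      have h3 : z ^ w p.1 ≠ 0 := pow_ne_zero _ hz
      have h4 : lam ^ w p.1 ≠ 0 := pow_ne_zero _ hlam
      field_simp
    rw [h, ← mul_assoc, h2, nn, map_mul, MvPolynomial.eval_C, map_sum]
    congr 1
    refine Finset.sum_congr rfl fun l _ => ?_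
    rw [map_mul, MvPolynomial.eval_C, MvPolynomial.eval_X]
    rfl

lemma deg_nn (w : Fin r → ℕ) (M' : ∀ i, Matrix (ι i) (ι i) ℂ) (lam : ℂ) (o : Cr ι) :
    (nn w M' lam o).totalDegree ≤ 1 := by
  cases o with
  | none =>
    rw [nn]
    refine (MvPolynomial.totalDegree_mul _ _).trans ?_
    rw [MvPolynomial.totalDegree_C, MvPolynomial.totalDegree_X]
  | some p =>
    rw [nn]
    refine (MvPolynomial.totalDegree_mul _ _).trans ?_
    rw [MvPolynomial.totalDegree_C, zero_add]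
    refine MvPolynomial.totalDegree_finsetSum_le fun l _ => ?_
    refine (MvPolynomial.totalDegree_mul _ _).trans ?_
    rw [MvPolynomial.totalDegree_C, MvPolynomial.totalDegree_X]

/-- `z^(D W) P (z/lam, (z/lam)^(-w) M' X)` -/
def hom' (w : Fin r → ℕ) (M' : ∀ i, Matrix (ι i) (ι i) ℂ) (lam : ℂ) (E : ℕ)
    (P : MvPolynomial (Cr ι) ℂ) : MvPolynomial (Cr ι) ℂ :=
  ∑ d ∈ P.support, MvPolynomial.C (P.coeff d) * (∏ o, nn w M' lam o ^ d o) *
    MvPolynomial.X none ^ (E - ∑ o, we w o * d o)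

lemma deg_supp {D : ℕ} {P : MvPolynomial (Cr ι) ℂ} (hP : P.totalDegree ≤ D) {d : Cr ι →₀ ℕ}
    (hd : d ∈ P.support) : ∑ o, d o ≤ D := by
  have h3 := MvPolynomial.le_totalDegree hd
  rw [Finsupp.sum_fintype _ _ (fun _ => rfl)] at h3
  exact h3.trans hP

lemma we_supp (w : Fin r → ℕ) {D : ℕ} {P : MvPolynomial (Cr ι) ℂ} (hP : P.totalDegree ≤ D)
    {d : Cr ι →₀ ℕ} (hd : d ∈ P.support) : ∑ o, we w o * d o ≤ D * ∑ i, w i := by
  have h1 : ∑ o, we w o * d o ≤ ∑ o, (∑ i, w i) * d o :=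
    Finset.sum_le_sum fun o _ => Nat.mul_le_mul_right _ (we_le w o)
  rw [← Finset.mul_sum] at h1
  refine h1.trans ?_
  rw [mul_comm]
  exact Nat.mul_le_mul_right _ (deg_supp hP hd)

lemma deg_hom' (w : Fin r → ℕ) (M' : ∀ i, Matrix (ι i) (ι i) ℂ) (lam : ℂ) (D : ℕ)
    (P : MvPolynomial (Cr ι) ℂ) (hP : P.totalDegree ≤ D) :
    (hom' w M' lam (D * ∑ i, w i) P).totalDegree ≤ D * (1 + ∑ i, w i) := by
  unfold hom'
  refine MvPolynomial.totalDegree_finsetSum_le fun d hd => ?_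
  refine (MvPolynomial.totalDegree_mul _ _).trans ?_
  have h1 : (MvPolynomial.C (P.coeff d) * (∏ o, nn w M' lam o ^ d o)).totalDegree ≤ D := by
    refine (MvPolynomial.totalDegree_mul _ _).trans ?_
    rw [MvPolynomial.totalDegree_C, zero_add]
    refine (MvPolynomial.totalDegree_finsetProd _ _).trans ?_
    have h1 : ∑ o, (nn w M' lam o ^ d o).totalDegree ≤ ∑ o, d o := by
      refine Finset.sum_le_sum fun o _ => ?_
      refine (MvPolynomial.totalDegree_pow _ _).trans ?_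
      exact (Nat.mul_le_mul_left _ (deg_nn w M' lam o)).trans (le_of_eq (mul_one _))
    exact h1.trans (deg_supp hP hd)
  have h2 : ((MvPolynomial.X none : MvPolynomial (Cr ι) ℂ) ^
      (D * ∑ i, w i - ∑ o, we w o * d o)).totalDegree ≤ D * ∑ i, w i := by
    refine (MvPolynomial.totalDegree_pow _ _).trans ?_
    rw [MvPolynomial.totalDegree_X, mul_one]
    exact Nat.sub_le _ _
  rw [mul_add, mul_one]
  exact add_le_add h1 h2

lemma eval_hom' (w : Fin r → ℕ) (M' : ∀ i, Matrix (ι i) (ι i) ℂ) (lam : ℂ) (hlam : lam ≠ 0)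
    (D : ℕ) (P : MvPolynomial (Cr ι) ℂ) (hP : P.totalDegree ≤ D) (z : ℂ) (hz : z ≠ 0)
    (x : ∀ i, Matrix (ι i) (ι i) ℂ) :
    MvPolynomial.eval (pt z x) (hom' w M' lam (D * ∑ i, w i) P) =
      z ^ (D * ∑ i, w i) *
        MvPolynomial.eval (pt (z * lam⁻¹) (fun i => ((z * lam⁻¹) ^ w i)⁻¹ • (M' i * x i))) P := by
  have hwe : ∀ d ∈ P.support, ∑ o, we w o * d o ≤ D * ∑ i, w i := fun d hd => we_supp w hP hd
  generalize (∑ i, w i) = W at hwe ⊢
  unfold hom'
  rw [map_sum, MvPolynomial.eval_eq' _ P, Finset.mul_sum]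
  refine Finset.sum_congr rfl fun d hd => ?_
  rw [map_mul, map_mul, MvPolynomial.eval_C, map_prod, map_pow, MvPolynomial.eval_X]
  have h1 : ∏ o, MvPolynomial.eval (pt z x) (nn w M' lam o ^ d o) =
      z ^ (∑ o, we w o * d o) *
        ∏ o, pt (z * lam⁻¹) (fun i => ((z * lam⁻¹) ^ w i)⁻¹ • (M' i * x i)) o ^ d o := by
    rw [← Finset.prod_pow_eq_pow_sum, ← Finset.prod_mul_distrib]
    refine Finset.prod_congr rfl fun o _ => ?_
    rw [map_pow, eval_nn w M' lam hlam z hz x o, mul_pow, ← pow_mul]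
  rw [h1]
  have h2 : pt z x none = z := rfl
  rw [h2]
  have h3 : z ^ (D * W) = z ^ (∑ o, we w o * d o) *
      z ^ (D * W - ∑ o, we w o * d o) := by
    rw [← pow_add, Nat.add_sub_cancel' (hwe d hd)]
  rw [h3]
  ring

/-- The point of `Aut` with given components. -/
def mkA (mu : ℂ) (hmu : mu ≠ 0) (g : ∀ i, Matrix (ι i) (ι i) ℂ) (hg : ∀ i, (g i).det ≠ 0) :
    Aut ι :=
  (Units.mk0 mu hmu, fun i => (Matrix.isUnit_iff_isUnit_det (g i)).2
    (isUnit_iff_ne_zero.2 (hg i)) |>.unit)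

lemma mkA_1 (mu : ℂ) (hmu : mu ≠ 0) (g : ∀ i, Matrix (ι i) (ι i) ℂ)
    (hg : ∀ i, (g i).det ≠ 0) : ((mkA mu hmu g hg).1 : ℂ) = mu := rfl

lemma mkA_2 (mu : ℂ) (hmu : mu ≠ 0) (g : ∀ i, Matrix (ι i) (ι i) ℂ)
    (hg : ∀ i, (g i).det ≠ 0) (i : Fin r) :
    ((mkA mu hmu g hg).2 i : Matrix (ι i) (ι i) ℂ) = g i := rfl

end TRO_

open TRO_ in
theorem tro_proof (hUBO : Stmt_Ubo) : Stmt_Tro := by
  classical
  intro r ι _ _ Q w hcard hQ
  have hQ' : ∀ i, (cm (Q i)).transpose = cm (Q i) ∧ (cm (Q i)).det ≠ 0 := by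
    intro i
    constructor
    · have h := congrArg cm (hQ i).1
      exact h
    · have h : (cm (Q i)).det = (((Q i).det : ℚ) : ℂ) := by
        have h2 := (RingHom.map_det (algebraMap ℚ ℂ) (Q i)).symm
        exact h2
      rw [h]
      exact_mod_cast (hQ i).2
  obtain ⟨D₀, hD₀⟩ := hUBO r ι (fun i => cm (Q i)) hcard hQ'
  refine ⟨D₀ * (1 + ∑ i, w i), ?_⟩
  intro L hL lam hlamT N c δ M hM hrel H hH x hx
  obtain ⟨E, hE⟩ := hH
  have hlam : lam ≠ 0 := by
    intro h0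
    rw [h0] at hlamT
    exact hlamT isAlgebraic_zero
  have hMdet : ∀ i, (M i).det ≠ 0 := by
    intro i h0
    have h1 := congrArg Matrix.det (hM i).2.2.1
    rw [Matrix.det_mul, h0, mul_zero, Matrix.det_smul] at h1
    have h2 : lam ^ (2 * w i) * (c i : ℂ) ≠ 0 :=
      mul_ne_zero (pow_ne_zero _ hlam) (by exact_mod_cast (hM i).1)
    exact mul_ne_zero (pow_ne_zero _ h2) (hQ' i).2 h1.symm
  have hδ : ∀ i, δ i ≠ 0 := by
    intro i h0
    apply hMdet i
    rw [(hM i).2.2.2, h0, zero_mul]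
  have hMM : ∀ i, M i * (M i)⁻¹ = 1 := fun i =>
    Matrix.mul_nonsing_inv _ (isUnit_iff_ne_zero.2 (hMdet i))
  have hMM' : ∀ i, (M i)⁻¹ * M i = 1 := fun i =>
    Matrix.nonsing_inv_mul _ (isUnit_iff_ne_zero.2 (hMdet i))
  -- the group
  let H0 : Set (Pm ι) := {a | InO (fun i => cm (Q i)) a ∧ ∃ y ∈ H, (y.1 : ℂ) = a.1 ∧
    ∀ i, (y.2 i : Matrix (ι i) (ι i) ℂ) = a.1 ^ w i • a.2 i}
  -- the torsor over `L`
  let S' : Set (Cr ι → ℂ) := {p | ∃ (z : ℂ) (X : ∀ i, Matrix (ι i) (ι i) ℂ), p = pt z X ∧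
    z ≠ 0 ∧ (∀ i, (X i).transpose * cm (N i) * X i = (z ^ (2 * w i) * (c i : ℂ)) • cm (Q i) ∧
      (X i).det = δ i * z ^ (w i * Fintype.card (ι i))) ∧
    ∀ e ∈ E, MvPolynomial.aeval (pt z X) e = (0 : ℂ)}
  have hcS' : pt lam M ∈ S' := by
    refine ⟨lam, M, rfl, hlam, fun i => ⟨(hM i).2.2.1, (hM i).2.2.2⟩, ?_⟩
    have h1 := (hE 1).1 H.one_mem
    intro e he
    have h2 := h1 e he
    have h3 : pt (((1 : Aut ι).1 : ℂ) * lam)
        (fun i => M i * ((1 : Aut ι).2 i : Matrix (ι i) (ι i) ℂ)) = pt lam M := by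
      have e1 : ((1 : Aut ι).1 : ℂ) * lam = lam := by simp
      have e2 : (fun i => M i * ((1 : Aut ι).2 i : Matrix (ι i) (ι i) ℂ)) = M := by
        funext i
        simp
      rw [e1, e2]
    rw [h3] at h2
    exact h2
  -- stability
  have hst : ∀ τ ∈ GalL L, ∀ p ∈ S', (fun j => τ (p j)) ∈ S' := by
    rintro τ hτ p ⟨z, X, rfl, hz0, hX, hXE⟩
    have hz : (fun j => τ (pt z X j)) = pt (τ z) (fun i => (X i).map τ) := by
      funext o
      cases o with
      | none => rfl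
      | some p => rfl
    have hcm : ∀ {κ : Type} (A : Matrix κ κ ℚ), (cm A).map (τ : ℂ →+* ℂ) = cm A := by
      intro κ A
      ext u v
      simp [cm]
    refine ⟨τ z, fun i => (X i).map τ, hz, fun h => hz0 ((map_eq_zero τ).1 h), fun i => ⟨?_, ?_⟩,
      ?_⟩
    · have h1 := congrArg (fun A : Matrix (ι i) (ι i) ℂ => A.map (τ : ℂ →+* ℂ)) (hX i).1
      simp only [Matrix.map_mul] at h1
      rw [hcm] at h1
      have h2 : ((z ^ (2 * w i) * (c i : ℂ)) • cm (Q i)).map (τ : ℂ →+* ℂ) =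
          ((τ z) ^ (2 * w i) * (c i : ℂ)) • cm (Q i) := by
        ext u v
        simp [cm]
      rw [h2] at h1
      exact h1
    · have h1 : ((X i).map τ).det = τ (X i).det := by
        have := (RingHom.map_det (τ : ℂ →+* ℂ) (X i)).symm
        exact this
      rw [h1, (hX i).2, map_mul, map_pow, hτ _ (hM i).2.1]
    · intro e he
      have h2 := congrArg τ (hXE e he)
      rw [map_zero] at h2
      rw [← hz, ← h2, MvPolynomial.aeval_def, MvPolynomial.aeval_def, MvPolynomial.eval₂_eq',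
        MvPolynomial.eval₂_eq', map_sum]
      refine Finset.sum_congr rfl fun d _ => ?_
      rw [map_mul, map_prod]
      congr 1
      · exact (hτ _ (e.coeff d).2).symm
      · refine Finset.prod_congr rfl fun j _ => ?_
        rw [map_pow]
  -- points of `S'` come from `H0`
  have hS'H : ∀ (z : ℂ) (X : ∀ i, Matrix (ι i) (ι i) ℂ), z ≠ 0 →
      (∀ i, (X i).transpose * cm (N i) * X i = (z ^ (2 * w i) * (c i : ℂ)) • cm (Q i) ∧
      (X i).det = δ i * z ^ (w i * Fintype.card (ι i))) →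
      (∀ e ∈ E, MvPolynomial.aeval (pt z X) e = (0 : ℂ)) →
      ((z * lam⁻¹, fun i => ((z * lam⁻¹) ^ w i)⁻¹ • ((M i)⁻¹ * X i)) : Pm ι) ∈ H0 := by
    intro z X hz hX hXE
    have hmu : z * lam⁻¹ ≠ 0 := mul_ne_zero hz (inv_ne_zero hlam)
    have hg : ∀ i, OSim (2 * w i) (Q i) (z * lam⁻¹) ((M i)⁻¹ * X i) := by
      intro i
      rw [osim_iff]
      have hc : (lam ^ (2 * w i) * (c i : ℂ)) ≠ 0 :=
        mul_ne_zero (pow_ne_zero _ hlam) (by exact_mod_cast (hM i).1)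
      constructor
      · have h1 : (lam ^ (2 * w i) * (c i : ℂ)) •
            (((M i)⁻¹ * X i).transpose * cm (Q i) * ((M i)⁻¹ * X i)) =
            (z ^ (2 * w i) * (c i : ℂ)) • cm (Q i) := by
          rw [← (hX i).1]
          calc (lam ^ (2 * w i) * (c i : ℂ)) •
              (((M i)⁻¹ * X i).transpose * cm (Q i) * ((M i)⁻¹ * X i))
              = ((M i)⁻¹ * X i).transpose * ((lam ^ (2 * w i) * (c i : ℂ)) • cm (Q i)) *
                ((M i)⁻¹ * X i) := by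
                rw [Matrix.mul_smul, Matrix.smul_mul]
            _ = ((M i)⁻¹ * X i).transpose * ((M i).transpose * cm (N i) * M i) *
                ((M i)⁻¹ * X i) := by rw [(hM i).2.2.1]
            _ = (M i * (M i)⁻¹ * X i).transpose * cm (N i) * (M i * (M i)⁻¹ * X i) := by
                simp only [Matrix.transpose_mul, Matrix.mul_assoc]
            _ = _ := by rw [hMM, Matrix.one_mul]
        have h2 : (lam ^ (2 * w i) * (c i : ℂ)) • ((z * lam⁻¹) ^ (2 * w i) • cm (Q i)) =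
            (z ^ (2 * w i) * (c i : ℂ)) • cm (Q i) := by
          rw [smul_smul]
          congr 1
          rw [mul_pow, inv_pow]
          have h3 : lam ^ (2 * w i) ≠ 0 := pow_ne_zero _ hlam
          field_simp
        rw [← h2] at h1
        exact smul_right_injective _ hc h1
      · have h1 : (M i).det * ((M i)⁻¹ * X i).det = (X i).det := by
          rw [← Matrix.det_mul, ← Matrix.mul_assoc, hMM, Matrix.one_mul]
        have h2 : (M i).det * (z * lam⁻¹) ^ (w i * Fintype.card (ι i)) = (X i).det := by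
          rw [(hM i).2.2.2, (hX i).2, mul_pow, inv_pow]
          have h3 : lam ^ (w i * Fintype.card (ι i)) ≠ 0 := pow_ne_zero _ hlam
          field_simp
        exact mul_left_cancel₀ (hMdet i) (h1.trans h2.symm)
    have hgd : ∀ i, ((M i)⁻¹ * X i).det ≠ 0 := by
      intro i
      rw [((osim_iff _ _ _ _).1 (hg i)).2]
      exact pow_ne_zero _ hmu
    refine ⟨⟨hmu, fun i => iso_of_osim (w i) (Q i) _ hmu _ (hg i)⟩,
      mkA (z * lam⁻¹) hmu (fun i => (M i)⁻¹ * X i) hgd, ?_, rfl, ?_⟩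
    · rw [hE]
      intro e he
      have h1 : pt ((mkA (z * lam⁻¹) hmu (fun i => (M i)⁻¹ * X i) hgd).1 * lam)
          (fun i => M i * ((mkA (z * lam⁻¹) hmu (fun i => (M i)⁻¹ * X i) hgd).2 i :
            Matrix (ι i) (ι i) ℂ)) = pt z X := by
        have e1 : ((mkA (z * lam⁻¹) hmu (fun i => (M i)⁻¹ * X i) hgd).1 : ℂ) * lam = z := by
          rw [mkA_1, mul_assoc, inv_mul_cancel₀ hlam, mul_one]
        have e2 : (fun i => M i * ((mkA (z * lam⁻¹) hmu (fun i => (M i)⁻¹ * X i) hgd).2 i :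
            Matrix (ι i) (ι i) ℂ)) = X := by
          funext i
          rw [mkA_2, ← Matrix.mul_assoc, hMM, Matrix.one_mul]
        rw [e1, e2]
      rw [h1]
      exact hXE e he
    · intro i
      rw [mkA_2]
      change (M i)⁻¹ * X i = (z * lam⁻¹) ^ w i • (((z * lam⁻¹) ^ w i)⁻¹ • ((M i)⁻¹ * X i))
      rw [smul_smul, mul_inv_cancel₀ (pow_ne_zero _ hmu), one_smul]
  have hG : GrpO (fun i => cm (Q i)) H0 := by
    refine ⟨fun a ha => ha.1, ?_, ?_, ?_, ?_⟩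
    · refine ⟨⟨one_ne_zero, fun i => ⟨?_, ?_⟩⟩, 1, H.one_mem, rfl, fun i => ?_⟩
      · change Iso (cm (Q i)) 1
        unfold Iso
        rw [Matrix.transpose_one, Matrix.one_mul, Matrix.mul_one]
      · change (1 : Matrix (ι i) (ι i) ℂ).det = 1
        exact Matrix.det_one
      · change (1 : Matrix (ι i) (ι i) ℂ) = (1 : ℂ) ^ w i • (1 : Matrix (ι i) (ι i) ℂ)
        rw [one_pow, one_smul]
    · rintro a ⟨ha, y, hy, hy1, hy2⟩ b ⟨hb, y', hy', hy1', hy2'⟩
      refine ⟨⟨mul_ne_zero ha.1 hb.1, fun i => ⟨iso_mul _ _ _ (ha.2 i).1 (hb.2 i).1, ?_⟩⟩,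
        y * y', H.mul_mem hy hy', ?_, fun i => ?_⟩
      · change (a.2 i * b.2 i).det = 1
        rw [Matrix.det_mul, (ha.2 i).2, (hb.2 i).2, mul_one]
      · change ((y.1 * y'.1 : ℂˣ) : ℂ) = a.1 * b.1
        rw [Units.val_mul, hy1, hy1']
      · change ((y.2 i * y'.2 i : (Matrix (ι i) (ι i) ℂ)ˣ) : Matrix (ι i) (ι i) ℂ) =
          (a.1 * b.1) ^ w i • (a.2 i * b.2 i)
        rw [Units.val_mul, hy2, hy2', Matrix.smul_mul, Matrix.mul_smul, smul_smul, mul_pow]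
    · rintro a ⟨ha, y, hy, hy1, hy2⟩
      have ha1 : a.1 ^ (0 : ℕ) = 1 := pow_zero _
      have hab : ∀ i, a.2 i * (a.1 ^ w i • ((y.2 i)⁻¹ : (Matrix (ι i) (ι i) ℂ)ˣ).val) = 1 := by
        intro i
        rw [Matrix.mul_smul, ← Matrix.smul_mul, ← hy2 i]
        exact Units.mul_inv _
      have hba : ∀ i, (a.1 ^ w i • ((y.2 i)⁻¹ : (Matrix (ι i) (ι i) ℂ)ˣ).val) * a.2 i = 1 := by
        intro i
        rw [Matrix.smul_mul, ← Matrix.mul_smul, ← hy2 i]
        exact Units.inv_mul _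
      refine ⟨(a.1⁻¹, fun i => a.1 ^ w i • ((y.2 i)⁻¹ : (Matrix (ι i) (ι i) ℂ)ˣ).val),
        ⟨⟨inv_ne_zero ha.1, fun i => ⟨iso_inv _ _ _ (ha.2 i).1 (hab i), ?_⟩⟩, y⁻¹, H.inv_mem hy,
          ?_, fun i => ?_⟩, ?_, ?_⟩
      · have h1 := congrArg Matrix.det (hab i)
        rw [Matrix.det_mul, (ha.2 i).2, one_mul, Matrix.det_one] at h1
        exact h1
      · change ((y.1⁻¹ : ℂˣ) : ℂ) = a.1⁻¹
        rw [Units.val_inv_eq_inv_val, hy1]
      · change ((y.2 i)⁻¹ : (Matrix (ι i) (ι i) ℂ)ˣ).val =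
          (a.1⁻¹) ^ w i • (a.1 ^ w i • ((y.2 i)⁻¹ : (Matrix (ι i) (ι i) ℂ)ˣ).val)
        rw [smul_smul, inv_pow, inv_mul_cancel₀ (pow_ne_zero _ ha.1), one_smul]
      · apply Prod.ext
        · exact mul_inv_cancel₀ ha.1
        · funext i
          exact hab i
      · apply Prod.ext
        · exact inv_mul_cancel₀ ha.1
        · funext i
          exact hba i
    · intro a ha hP
      have hgd : ∀ i, (a.1 ^ w i • a.2 i).det ≠ 0 := by
        intro i
        rw [Matrix.det_smul, (ha.2 i).2, mul_one]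
        exact pow_ne_zero _ (pow_ne_zero _ ha.1)
      refine ⟨ha, mkA a.1 ha.1 (fun i => a.1 ^ w i • a.2 i) hgd, ?_, rfl, fun i => rfl⟩
      rw [hE]
      intro e he
      have h1 := hP (MvPolynomial.bind₁ (th w M lam) (MvPolynomial.map (algebraMap L ℂ) e)) (by
        rintro h ⟨hh, y, hy, hy1, hy2⟩
        rw [ev_th, MvPolynomial.eval_map]
        have h2 := (hE y).1 hy e he
        have h3 : pt ((y.1 : ℂ) * lam) (fun i => M i * (y.2 i : Matrix (ι i) (ι i) ℂ)) =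
            pt (h.1 * lam) (fun i => M i * (h.1 ^ w i • h.2 i)) := by
          have e2 : (fun i => M i * (y.2 i : Matrix (ι i) (ι i) ℂ)) =
              (fun i => M i * (h.1 ^ w i • h.2 i)) := by
            funext i
            rw [hy2 i]
          rw [hy1, e2]
        rw [h3] at h2
        exact h2)
      rw [ev_th, MvPolynomial.eval_map] at h1
      exact h1
  have hinf : Inf1 H0 := by
    intro hfin
    have h1 : {z : ℂ | ∃ p ∈ S', p none = z}.Finite := by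
      refine (hfin.image (fun z => z * lam)).subset ?_
      rintro z ⟨p, ⟨z', X, rfl, hz0, hX, hXE⟩, rfl⟩
      refine ⟨z' * lam⁻¹, ⟨_, hS'H z' X hz0 hX hXE, rfl⟩, ?_⟩
      change z' * lam⁻¹ * lam = z'
      rw [mul_assoc, inv_mul_cancel₀ hlam, mul_one]
    apply hlamT
    refine Pool.Agent.DRB.aut2_proof _ ?_
    refine (h1.subset ?_).countable
    rintro z ⟨τ, hτ, rfl⟩
    exact ⟨_, hst τ (fun a ha => hτ a (hL a ha)) _ hcS', rfl⟩
  have hdns : Dns D₀ (fun i => cm (Q i)) H0 := by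
    intro P hP hPH a ha
    have h1 : ∀ p ∈ S', MvPolynomial.eval p
        (hom' w (fun i => (M i)⁻¹) lam (D₀ * ∑ i, w i) P) = 0 := by
      rintro p ⟨z, X, rfl, hz0, hX, hXE⟩
      rw [eval_hom' w _ lam hlam D₀ P hP z hz0 X]
      have h2 := hPH _ (hS'H z X hz0 hX hXE)
      unfold ev at h2
      change MvPolynomial.eval (pt (z * lam⁻¹)
        (fun i => ((z * lam⁻¹) ^ w i)⁻¹ • ((M i)⁻¹ * X i))) P = 0 at h2
      rw [h2, mul_zero]
    have h2 := descL L hL S' {p | ∃ (mu : ℂ) (g : ∀ i, Matrix (ι i) (ι i) ℂ), mu ≠ 0 ∧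
        (∀ i, OSim (2 * w i) (Q i) mu (g i)) ∧ p = pt (mu * lam) (fun i => M i * g i)} hst
      (pt lam M) hcS' (D₀ * (1 + ∑ i, w i)) (by
        rintro R hR hRc p ⟨mu, g, hmu, hg, rfl⟩
        exact hrel R hR hRc mu g hmu hg) _ (deg_hom' w (fun i => (M i)⁻¹) lam D₀ P hP) h1
      (pt (a.1 * lam) (fun i => M i * (a.1 ^ w i • a.2 i)))
      ⟨a.1, fun i => a.1 ^ w i • a.2 i, ha.1,
        fun i => osim_of_iso (w i) (Q i) a.1 (a.2 i) (ha.2 i).1 (ha.2 i).2, rfl⟩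
    rw [eval_hom' w _ lam hlam D₀ P hP _ (mul_ne_zero ha.1 hlam)] at h2
    have h3 : pt (a.1 * lam * lam⁻¹) (fun i => ((a.1 * lam * lam⁻¹) ^ w i)⁻¹ •
        ((M i)⁻¹ * (M i * (a.1 ^ w i • a.2 i)))) = pt a.1 a.2 := by
      have e1 : a.1 * lam * lam⁻¹ = a.1 := by
        rw [mul_assoc, mul_inv_cancel₀ hlam, mul_one]
      rw [e1]
      congr 1
      funext i
      rw [← Matrix.mul_assoc, hMM', Matrix.one_mul, smul_smul,
        inv_mul_cancel₀ (pow_ne_zero _ ha.1), one_smul]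
    rw [h3] at h2
    rcases mul_eq_zero.1 h2 with h4 | h4
    · exact absurd h4 (pow_ne_zero _ (mul_ne_zero ha.1 hlam))
    · exact h4
  -- conclusion
  have hx1 : (x.1 : ℂ) ≠ 0 := x.1.ne_zero
  have hfin := hD₀ H0 hG hinf hdns
    ((x.1 : ℂ), fun i => (((x.1 : ℂ) ^ w i)⁻¹ • (x.2 i : Matrix (ι i) (ι i) ℂ)))
    ⟨hx1, fun i => iso_of_osim (w i) (Q i) _ hx1 _ (hx i)⟩
  obtain ⟨-, y, hy, hy1, hy2⟩ := hfin
  have hxy : y = x := by
    apply Prod.ext
    · exact Units.ext hy1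
    · funext i
      apply Units.ext
      rw [hy2 i]
      change (x.1 : ℂ) ^ w i • (((x.1 : ℂ) ^ w i)⁻¹ • (x.2 i : Matrix (ι i) (ι i) ℂ)) = _
      rw [smul_smul, mul_inv_cancel₀ (pow_ne_zero _ hx1), one_smul]
  rw [← hxy]
  exact hy

end

end Pool.Agent.EVT
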