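import Pool.Agent.EVT.Stmts

set_option autoImplicit false

/-!
# EVT, module UBO: the uniform bound (uses FAC, RDO, LSO)
-/

open scoped BigOperators

namespace Pool.Agent.EVT

open Pool.Agent.EVD (Iso wed OSim pt cm Ix)

namespace UBO_

theorem dns_mono {r : ℕ} {ι : Fin r → Type} [∀ i, Fintype (ι i)] [∀ i, DecidableEq (ι i)]
    {D D' : ℕ} (hD : D' ≤ D) {Q : ∀ i, Matrix (ι i) (ι i) ℂ} {H : Set (Pm ι)} (h : Dns D Q H) :
    Dns D' Q H := fun P hP => h P (hP.trans hD)

theorem iso_one {ι : Type} [Fintype ι] [DecidableEq ι] (Q : Matrix ι ι ℂ) :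
    Iso Q 1 := by
  unfold Iso
  rw [Matrix.transpose_one, Matrix.one_mul, Matrix.mul_one]

/-- all points with components in a finset of full factors -/
theorem mem_prod {r : ℕ} {ι : Fin r → Type} [∀ i, Fintype (ι i)] [∀ i, DecidableEq (ι i)]
    {Q : ∀ i, Matrix (ι i) (ι i) ℂ} {H : Set (Pm ι)} (hH : GrpO Q H)
    (hfull : ∀ i, ∀ s, Iso (Q i) s → s.det = 1 → at1 i s ∈ H)
    (s : ∀ i, Matrix (ι i) (ι i) ℂ) (hs : ∀ i, Iso (Q i) (s i) ∧ (s i).det = 1)
    (S : Finset (Fin r)) :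
    ((1 : ℂ), fun i => if i ∈ S then s i else 1) ∈ H := by
  classical
  induction S using Finset.induction_on with
  | empty =>
    have h1 : ((1 : ℂ), fun i => if i ∈ (∅ : Finset (Fin r)) then s i else 1) = (1 : Pm ι) := by
      ext i : 2
      · rfl
      · simp
    rw [h1]
    exact hH.one
  | insert j S hj ih =>
    have h1 : ((1 : ℂ), fun i => if i ∈ insert j S then s i else 1)
        = at1 j (s j) * ((1 : ℂ), fun i => if i ∈ S then s i else 1) := by
      refine Prod.ext ?_ ?_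
      · simp [at1]
      · funext i
        by_cases hij : i = j
        · subst hij
          simp [at1, hj]
        · simp [at1, hij]
    rw [h1]
    exact hH.mul _ (hfull j (s j) (hs j).1 (hs j).2) _ ih

theorem mem_all {r : ℕ} {ι : Fin r → Type} [∀ i, Fintype (ι i)] [∀ i, DecidableEq (ι i)]
    {Q : ∀ i, Matrix (ι i) (ι i) ℂ} {H : Set (Pm ι)} (hH : GrpO Q H)
    (hfull : ∀ i, ∀ s, Iso (Q i) s → s.det = 1 → at1 i s ∈ H)
    (s : ∀ i, Matrix (ι i) (ι i) ℂ) (hs : ∀ i, Iso (Q i) (s i) ∧ (s i).det = 1) :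
    ((1 : ℂ), s) ∈ H := by
  have h := mem_prod hH hfull s hs Finset.univ
  have h1 : ((1 : ℂ), fun i => if i ∈ (Finset.univ : Finset (Fin r)) then s i else 1)
      = ((1 : ℂ), s) := by
    refine Prod.ext rfl ?_
    funext i
    simp
  rw [h1] at h
  exact h

/-- the univariate polynomial `x ↦ P(x, s)` -/
noncomputable def upol {r : ℕ} {ι : Fin r → Type} (s : ∀ i, Matrix (ι i) (ι i) ℂ)
    (P : MvPolynomial (Option (Σ i, ι i × ι i)) ℂ) : Polynomial ℂ :=
  MvPolynomial.aeval (fun o : Option (Σ i, ι i × ι i) =>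
    (o.elim Polynomial.X (fun p => Polynomial.C (s p.1 p.2.1 p.2.2)) : Polynomial ℂ)) P

theorem upol_eval {r : ℕ} {ι : Fin r → Type} (s : ∀ i, Matrix (ι i) (ι i) ℂ)
    (P : MvPolynomial (Option (Σ i, ι i × ι i)) ℂ) (x : ℂ) :
    (upol s P).eval x = ev P (x, s) := by
  unfold upol ev
  induction P using MvPolynomial.induction_on with
  | C a => simp
  | add p q hp hq =>
    rw [map_add, map_add, Polynomial.eval_add, hp, hq]
  | mul_X p o hp =>
    rw [map_mul, map_mul, Polynomial.eval_mul, hp, MvPolynomial.aeval_X, MvPolynomial.eval_X]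
    cases o with
    | none => simp [pt]
    | some p => simp [pt]

end UBO_

open UBO_

/-- module UBO: the uniform bound -/
theorem ubo_proof (hFac : Stmt_Fac) (hRdo : Stmt_Rdo) (hLso : Stmt_Lso) : Stmt_Ubo := by
  classical
  intro r ι _ _ Q hcard hQ
  choose D hD using fun i₀ => hLso r ι Q hcard hQ i₀
  refine ⟨max 2 (∑ i, D i), ?_⟩
  intro H hH hinf hdns a ha
  have hfac := hFac r ι Q hcard hQ H hH (dns_mono (le_max_left _ _) hdns)
  have hfull : ∀ i, ∀ s, Iso (Q i) s → s.det = 1 → at1 i s ∈ H := by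
    intro i₀
    by_contra hcon
    let T : Set (Fin r) := {i | ∀ s, Iso (Q i) s → s.det = 1 → at1 i s ∈ H}
    have hfin := hRdo r ι Q (fun i => (hQ i).2) H hH hinf T (fun i hi => hi)
      (fun X hX i hi => (hfac i).resolve_left hi X hX) i₀ hcon
    exact hD i₀ H hH hfin (dns_mono (le_trans
      (Finset.single_le_sum (f := D) (fun _ _ => Nat.zero_le _) (Finset.mem_univ i₀))
      (le_max_right _ _)) hdns)
  refine hH.closed a ha ?_
  intro P hP
  have hinf2 : {x : ℂ | (upol a.2 P).IsRoot x}.Infinite := by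
    refine hinf.mono ?_
    rintro x ⟨h, hh, rfl⟩
    obtain ⟨b, hb, hhb, -⟩ := hH.inv h hh
    have h1 : ((1 : ℂ), b.2) ∈ H := mem_all hH hfull b.2 (hH.sub b hb).2
    have h2 : ((1 : ℂ), a.2) ∈ H := mem_all hH hfull a.2 ha.2
    have h3 := hH.mul _ (hH.mul _ hh _ h1) _ h2
    have h4 : h * ((1 : ℂ), b.2) * ((1 : ℂ), a.2) = (h.1, a.2) := by
      refine Prod.ext ?_ ?_
      · simp
      · have h5 : h.2 * b.2 = 1 := congrArg Prod.snd hhb
        show h.2 * b.2 * a.2 = a.2
        rw [h5, one_mul]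
    rw [h4] at h3
    show (upol a.2 P).eval h.1 = 0
    rw [upol_eval]
    exact hP _ h3
  have h0 : upol a.2 P = 0 := Polynomial.eq_zero_of_infinite_isRoot _ hinf2
  have h6 := upol_eval a.2 P a.1
  rw [h0, Polynomial.eval_zero] at h6
  exact h6.symm

end Pool.Agent.EVT
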