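import Pool.Agent.EVD.Main
import Pool.Agent.UBD.JOR
import Pool.Agent.EVT.SCM
import Pool.Agent.EVT.SOI
import Pool.Agent.EVT.LIE
import Pool.Agent.EVT.ADO
import Pool.Agent.EVT.FAC
import Pool.Agent.EVT.RDO
import Pool.Agent.EVT.LSO
import Pool.Agent.EVT.UBO
import Pool.Agent.EVT.TRO
import Pool.Agent.EVT.FLD
import Pool.Agent.EVT.CRD
import Pool.Agent.EVT.FI2

set_option autoImplicit false

/-!
# EVT: the main theorem
-/

namespace Pool.Agent.EVT

namespace Main_

theorem scm : Stmt_Scm := scm_proof EVD.Main_.ort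
theorem soi : Stmt_Soi := soi_proof EVD.Main_.ort
theorem lie : Stmt_Lie := lie_proof EVD.Main_.lia EVD.Main_.lib EVD.Main_.lic
theorem ado : Stmt_Ado := ado_proof lie
theorem fac : Stmt_Fac := fac_proof lie ado soi scm EVD.Main_.gen
theorem rdo : Stmt_Rdo := rdo_proof lie
theorem lso : Stmt_Lso := lso_proof UBD.jor_proof EVD.Main_.irx
theorem ubo : Stmt_Ubo := ubo_proof fac rdo lso
theorem tro : Stmt_Tro := tro_proof ubo

end Main_

theorem main : Stmt_Fi2 :=
  fi2_proof EVD.Main_.okt EVD.Main_.sro EVD.Main_.lap EVD.Main_.mko EVD.Main_.blc EVD.Main_.trg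
    EVD.Main_.ndg EVD.main Main_.tro fld_proof crd_proof

end Pool.Agent.EVT
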