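import Pool.Agent.EVD.Sealed

set_option autoImplicit false

/-!
# EVT: torsors, definitions
-/

namespace Pool.Agent.EVT

noncomputable section

/-- The automorphisms of `1 (1) ⊕ V_1 ⊕ ... ⊕ V_r` which preserve the summands. -/
abbrev Aut {r : ℕ} (ι : Fin r → Type) [∀ i, Fintype (ι i)] [∀ i, DecidableEq (ι i)] : Type :=
  ℂˣ × (∀ i, (Matrix (ι i) (ι i) ℂ)ˣ)

/-- The orbit `c H` of the point `c = (lam, M_1, ..., M_r)` under the group `H` is the set of the
common zeros (among the points of the orbit of `c` under all automorphisms) of some polynomials with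
coefficients in `L`: it is a torsor over `L` under `H`, which contains `c`. -/
def IsTors {r : ℕ} {ι : Fin r → Type} [∀ i, Fintype (ι i)] [∀ i, DecidableEq (ι i)]
    (L : IntermediateField ℚ ℂ) (lam : ℂ) (M : ∀ i, Matrix (ι i) (ι i) ℂ)
    (H : Subgroup (Aut ι)) : Prop :=
  ∃ E : Set (MvPolynomial (Option (Σ i, ι i × ι i)) L), ∀ x : Aut ι, x ∈ H ↔
    ∀ e ∈ E, MvPolynomial.aeval (EVD.pt ((x.1 : ℂ) * lam)
      (fun i => M i * (x.2 i : Matrix (ι i) (ι i) ℂ))) e = (0 : ℂ)

end

end Pool.Agent.EVT
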