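import Pool.Agent.EVD.Stmts
import Pool.Agent.EVT.Sealed
import Pool.Agent.UBD.Stmts

set_option autoImplicit false

/-!
# EVT: no proper subtorsor over number fields of bounded degree, exact statements of the modules
-/

open scoped BigOperators

namespace Pool.Agent.EVT

open Pool.Agent.EVD (Iso wed OSim pt cm Ix)

noncomputable section

/-! ## Definitions -/

/-- A number and a family of square matrices (a ring). -/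
abbrev Pm {r : ℕ} (ι : Fin r → Type) : Type := ℂ × (∀ i, Matrix (ι i) (ι i) ℂ)

/-- The value of a polynomial. -/
def ev {r : ℕ} {ι : Fin r → Type} (P : MvPolynomial (Option (Σ i, ι i × ι i)) ℂ) (a : Pm ι) : ℂ :=
  MvPolynomial.eval (pt a.1 a.2) P

/-- The group of all `(mu, s_1, ..., s_r)`, `mu ≠ 0`, `s_i ∈ SO (Q_i)`. -/
def InO {r : ℕ} {ι : Fin r → Type} [∀ i, Fintype (ι i)] [∀ i, DecidableEq (ι i)]
    (Q : ∀ i, Matrix (ι i) (ι i) ℂ) (a : Pm ι) : Prop :=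
  a.1 ≠ 0 ∧ ∀ i, Iso (Q i) (a.2 i) ∧ (a.2 i).det = 1

/-- `H` is a Zariski closed subgroup. -/
structure GrpO {r : ℕ} {ι : Fin r → Type} [∀ i, Fintype (ι i)] [∀ i, DecidableEq (ι i)]
    (Q : ∀ i, Matrix (ι i) (ι i) ℂ) (H : Set (Pm ι)) : Prop where
  sub : ∀ a ∈ H, InO Q a
  one : 1 ∈ H
  mul : ∀ a ∈ H, ∀ b ∈ H, a * b ∈ H
  inv : ∀ a ∈ H, ∃ b ∈ H, a * b = 1 ∧ b * a = 1
  closed : ∀ a, InO Q a → (∀ P : MvPolynomial (Option (Σ i, ι i × ι i)) ℂ,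
    (∀ h ∈ H, ev P h = 0) → ev P a = 0) → a ∈ H

/-- `H` is dense in degree `D`. -/
def Dns {r : ℕ} {ι : Fin r → Type} [∀ i, Fintype (ι i)] [∀ i, DecidableEq (ι i)] (D : ℕ)
    (Q : ∀ i, Matrix (ι i) (ι i) ℂ) (H : Set (Pm ι)) : Prop :=
  ∀ P : MvPolynomial (Option (Σ i, ι i × ι i)) ℂ, P.totalDegree ≤ D →
    (∀ h ∈ H, ev P h = 0) → ∀ a, InO Q a → ev P a = 0

/-- The values of `mu` on `H` are infinite in number. -/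
def Inf1 {r : ℕ} {ι : Fin r → Type} (H : Set (Pm ι)) : Prop :=
  {x : ℂ | ∃ h ∈ H, h.1 = x}.Infinite

/-- The one-parameter group with direction `X`. -/
def ex {r : ℕ} {ι : Fin r → Type} [∀ i, Fintype (ι i)] [∀ i, DecidableEq (ι i)] (t : ℂ)
    (X : Pm ι) : Pm ι :=
  (Complex.exp (t * X.1), fun i => NormedSpace.exp (t • X.2 i))

/-- The Lie algebra of `H`. -/
def LieO {r : ℕ} {ι : Fin r → Type} [∀ i, Fintype (ι i)] [∀ i, DecidableEq (ι i)]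
    (H : Set (Pm ι)) : Set (Pm ι) := {X | ∀ t : ℂ, ex t X ∈ H}

/-- The point with components `1`, except for `s` at `i`. -/
def at1 {r : ℕ} {ι : Fin r → Type} [∀ i, Fintype (ι i)] [∀ i, DecidableEq (ι i)] (i : Fin r)
    (s : Matrix (ι i) (ι i) ℂ) : Pm ι := (1, Function.update 1 i s)

/-! ## One orthogonal group -/

/-- SCM: antisymmetric matrices which commute with the special orthogonal group. -/
def Stmt_Scm : Prop := ∀ (ι : Type) [Fintype ι] [DecidableEq ι] (Q : Matrix ι ι ℂ),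
  3 ≤ Fintype.card ι → Q.transpose = Q → Q.det ≠ 0 → ∀ X : Matrix ι ι ℂ,
  X.transpose * Q + Q * X = 0 → (∀ s, Iso Q s → s.det = 1 → s * X = X * s) → X = 0

/-- SOI: the adjoint representation of the special orthogonal group is irreducible. -/
def Stmt_Soi : Prop := ∀ (ι : Type) [Fintype ι] [DecidableEq ι] (Q : Matrix ι ι ℂ),
  5 ≤ Fintype.card ι → Q.transpose = Q → Q.det ≠ 0 → ∀ W : Set (Matrix ι ι ℂ),
  (∀ X ∈ W, ∀ Y ∈ W, ∀ c : ℂ, X + c • Y ∈ W) →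
  (∀ X ∈ W, X.transpose * Q + Q * X = 0) →
  (∀ X ∈ W, ∀ s, Iso Q s → s.det = 1 → s * X * s⁻¹ ∈ W) → (∃ X ∈ W, X ≠ 0) →
  ∀ u w, wed Q u w ∈ W

/-! ## The uniform bound -/

/-- LIE: the Lie algebra. -/
def Stmt_Lie : Prop := ∀ (r : ℕ) (ι : Fin r → Type) [∀ i, Fintype (ι i)]
  [∀ i, DecidableEq (ι i)] (Q : ∀ i, Matrix (ι i) (ι i) ℂ), (∀ i, (Q i).det ≠ 0) →
  ∀ H : Set (Pm ι), GrpO Q H →
  (∀ X ∈ LieO H, ∀ Y ∈ LieO H, ∀ c : ℂ, X + c • Y ∈ LieO H) ∧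
  (¬ H.Finite → ∃ X ∈ LieO H, X ≠ 0) ∧
  (∀ X ∈ LieO H, ∀ i, (X.2 i).transpose * Q i + Q i * X.2 i = 0) ∧
  ∀ X ∈ LieO H, ∀ a ∈ H, ∀ b, a * b = 1 → b * a = 1 → a * X * b ∈ LieO H

/-- ADO: density in degree `2` implies that the Lie algebra is stable under the group. -/
def Stmt_Ado : Prop := ∀ (r : ℕ) (ι : Fin r → Type) [∀ i, Fintype (ι i)]
  [∀ i, DecidableEq (ι i)] (Q : ∀ i, Matrix (ι i) (ι i) ℂ), (∀ i, (Q i).det ≠ 0) →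
  ∀ H : Set (Pm ι), GrpO Q H → Dns 2 Q H → ∀ X ∈ LieO H, ∀ a b, InO Q a → a * b = 1 →
    a * X * b ∈ LieO H

/-- FAC: every factor is full or trivial for the Lie algebra. -/
def Stmt_Fac : Prop := ∀ (r : ℕ) (ι : Fin r → Type) [∀ i, Fintype (ι i)]
  [∀ i, DecidableEq (ι i)] (Q : ∀ i, Matrix (ι i) (ι i) ℂ), (∀ i, 5 ≤ Fintype.card (ι i)) →
  (∀ i, (Q i).transpose = Q i ∧ (Q i).det ≠ 0) →
  ∀ H : Set (Pm ι), GrpO Q H → Dns 2 Q H → ∀ i,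
  (∀ s, Iso (Q i) s → s.det = 1 → at1 i s ∈ H) ∨ ∀ X ∈ LieO H, X.2 i = 0

/-- RDO: if a factor is not full, the component is finite. -/
def Stmt_Rdo : Prop := ∀ (r : ℕ) (ι : Fin r → Type) [∀ i, Fintype (ι i)]
  [∀ i, DecidableEq (ι i)] (Q : ∀ i, Matrix (ι i) (ι i) ℂ), (∀ i, (Q i).det ≠ 0) →
  ∀ H : Set (Pm ι), GrpO Q H → Inf1 H → ∀ T : Set (Fin r),
  (∀ i ∈ T, ∀ s, Iso (Q i) s → s.det = 1 → at1 i s ∈ H) →
  (∀ X ∈ LieO H, ∀ i, i ∉ T → X.2 i = 0) → ∀ i₀, i₀ ∉ T →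
  {x : Matrix (ι i₀) (ι i₀) ℂ | ∃ h ∈ H, h.2 i₀ = x}.Finite

/-- LSO: a finite component contradicts the density. -/
def Stmt_Lso : Prop := ∀ (r : ℕ) (ι : Fin r → Type) [∀ i, Fintype (ι i)]
  [∀ i, DecidableEq (ι i)] (Q : ∀ i, Matrix (ι i) (ι i) ℂ), (∀ i, 5 ≤ Fintype.card (ι i)) →
  (∀ i, (Q i).transpose = Q i ∧ (Q i).det ≠ 0) → ∀ i₀, ∃ D : ℕ, ∀ H : Set (Pm ι), GrpO Q H →
  {x : Matrix (ι i₀) (ι i₀) ℂ | ∃ h ∈ H, h.2 i₀ = x}.Finite → ¬ Dns D Q H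

/-- UBO: the uniform bound. -/
def Stmt_Ubo : Prop := ∀ (r : ℕ) (ι : Fin r → Type) [∀ i, Fintype (ι i)]
  [∀ i, DecidableEq (ι i)] (Q : ∀ i, Matrix (ι i) (ι i) ℂ), (∀ i, 5 ≤ Fintype.card (ι i)) →
  (∀ i, (Q i).transpose = Q i ∧ (Q i).det ≠ 0) → ∃ D : ℕ, ∀ H : Set (Pm ι), GrpO Q H →
  Inf1 H → Dns D Q H → ∀ a, InO Q a → a ∈ H

/-! ## Torsors -/

/-- TRO: no proper subtorsor over `L`, from relations of bounded degree. -/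
def Stmt_Tro : Prop := ∀ (r : ℕ) (ι : Fin r → Type) [∀ i, Fintype (ι i)]
  [∀ i, DecidableEq (ι i)] (Q : ∀ i, Matrix (ι i) (ι i) ℚ) (w : Fin r → ℕ),
  (∀ i, 5 ≤ Fintype.card (ι i)) → (∀ i, (Q i).transpose = Q i ∧ (Q i).det ≠ 0) →
  ∃ D₁ : ℕ, ∀ (L : IntermediateField ℚ ℂ), (∀ a ∈ L, IsAlgebraic ℚ a) →
  ∀ lam : ℂ, Transcendental ℚ lam → ∀ (N : ∀ i, Matrix (ι i) (ι i) ℚ) (c : Fin r → ℚ)
  (δ : Fin r → ℂ) (M : ∀ i, Matrix (ι i) (ι i) ℂ),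
  (∀ i, c i ≠ 0 ∧ δ i ∈ L ∧ (M i).transpose * cm (N i) * M i =
    (lam ^ (2 * w i) * (c i : ℂ)) • cm (Q i) ∧
    (M i).det = δ i * lam ^ (w i * Fintype.card (ι i))) →
  (∀ P : MvPolynomial (Option (Σ i, ι i × ι i)) L, P.totalDegree ≤ D₁ →
    MvPolynomial.aeval (pt lam M) P = (0 : ℂ) →
    ∀ (mu : ℂ) (g : ∀ i, Matrix (ι i) (ι i) ℂ), mu ≠ 0 → (∀ i, OSim (2 * w i) (Q i) mu (g i)) →
      MvPolynomial.aeval (pt (mu * lam) (fun i => M i * g i)) P = (0 : ℂ)) →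
  ∀ H : Subgroup (Aut ι), IsTors L lam M H → ∀ x : Aut ι,
  (∀ i, OSim (2 * w i) (Q i) (x.1 : ℂ) (x.2 i : Matrix (ι i) (ι i) ℂ)) → x ∈ H

/-- FLD: adjunction of square roots. -/
def Stmt_Fld : Prop := ∀ (r : ℕ) (δ : Fin r → ℂ), (∀ i, ∃ q : ℚ, δ i ^ 2 = (q : ℂ)) →
  ∀ L : IntermediateField ℚ ℂ, FiniteDimensional ℚ L → ∃ L' : IntermediateField ℚ ℂ,
  FiniteDimensional ℚ L' ∧ L ≤ L' ∧ (∀ i, δ i ∈ L') ∧
  Module.finrank ℚ L' ≤ Module.finrank ℚ L * 2 ^ r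

/-- CRD: the rank is at least five. -/
def Stmt_Crd : Prop := ∀ (k : ℕ) (f : Fin (2 * k + 1) → Polynomial ℚ), 1 ≤ k →
  (∀ j, 2 ≤ (f j).natDegree) →
  (∀ j l, j ≠ l → Nat.Coprime (f j).natDegree (f l).natDegree) → 5 ≤ Fintype.card (Ix f)

end

end Pool.Agent.EVT
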